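import Mathlib

set_option autoImplicit false

/-!
Basic definitions: two-way multihead deterministic (pushdown) automata in the conventions of the
problem file, and a general simulation lemma.
-/

namespace Pool.Agent.Helper5

/-- The information a head at position `p` gets on the input `w` (positions `0 .. |w|+1`):
whether `p = 0`, and the letter at `p` (none on the right endmarker). -/
def sym {α : Type} (w : List α) (p : ℕ) : Bool × Option α := (decide (p = 0), w[p - 1]?)

/-- Moving a head: `0` is left, `1` is stay, `2` is right. -/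
def mv (n : ℕ) (p : ℕ) (d : Fin 3) : ℕ :=
  if d = 0 then p - 1 else if d = 1 then p else min (p + 1) (n + 1)

/-- One step of a two-way `k`-head deterministic pushdown automaton. -/
def dpdaStep {α : Type} {k : ℕ} {Q Γ : Type}
    (δ : Q → (Fin k → Bool × Option α) → Option Γ → Q × (Fin k → Fin 3) × List Γ)
    (w : List α) (c : Q × (Fin k → ℕ) × List Γ) : Q × (Fin k → ℕ) × List Γ :=
  ((δ c.1 (fun j => sym w (c.2.1 j)) c.2.2.head?).1,
   (fun i => mv w.length (c.2.1 i) ((δ c.1 (fun j => sym w (c.2.1 j)) c.2.2.head?).2.1 i)),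
   (δ c.1 (fun j => sym w (c.2.1 j)) c.2.2.head?).2.2 ++ c.2.2.tail)

/-- One step of a two-way `k`-head deterministic finite automaton. -/
def dfaStep {α : Type} {k : ℕ} {P : Type}
    (η : P → (Fin k → Bool × Option α) → P × (Fin k → Fin 3))
    (w : List α) (c : P × (Fin k → ℕ)) : P × (Fin k → ℕ) :=
  ((η c.1 (fun j => sym w (c.2 j))).1,
   (fun i => mv w.length (c.2 i) ((η c.1 (fun j => sym w (c.2 j))).2 i)))

/-- One step of a real-time one-way deterministic pushdown automaton reading the periodic word
`w # w # w # ...`; the second component of a configuration is the place `0 ≤ t ≤ |w|` of the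
current letter in the current period, the separator `#` is read as `none`. -/
def rotStep {α : Type} {Q Γ : Type} (δ : Q → Option α → Option Γ → Q × List Γ)
    (w : List α) (c : Q × ℕ × List Γ) : Q × ℕ × List Γ :=
  ((δ c.1 w[c.2.1]? c.2.2.head?).1,
   (if c.2.1 < w.length then c.2.1 + 1 else 0),
   (δ c.1 w[c.2.1]? c.2.2.head?).2 ++ c.2.2.tail)

section sim

variable {A B : Type*}

/-- General simulation lemma. -/
theorem sim_iff (f : A → A) (g : B → B) (R : A → B → Prop) (pA : A → Prop) (pB : B → Prop)
    (h : ∀ a b, R a b → ∃ m, 1 ≤ m ∧ R (f^[m] a) (g b) ∧ ((∃ i < m, pA (f^[i] a)) ↔ pB b))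
    {a : A} {b : B} (hab : R a b) : (∃ m, pA (f^[m] a)) ↔ (∃ m, pB (g^[m] b)) := by
  constructor
  · rintro ⟨m, hm⟩
    induction m using Nat.strong_induction_on generalizing a b with
    | _ m ih =>
      obtain ⟨m₁, h1, hR, hp⟩ := h a b hab
      by_cases hlt : m < m₁
      · exact ⟨0, hp.1 ⟨m, hlt, hm⟩⟩
      · push Not at hlt
        have hm' : pA (f^[m - m₁] (f^[m₁] a)) := by
          rw [← Function.iterate_add_apply, Nat.sub_add_cancel hlt]
          exact hm
        obtain ⟨m', hm'⟩ := ih (m - m₁) (by omega) hR hm'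
        exact ⟨m' + 1, by rwa [Function.iterate_succ_apply]⟩
  · rintro ⟨m, hm⟩
    induction m generalizing a b with
    | zero =>
      obtain ⟨m₁, h1, hR, hp⟩ := h a b hab
      obtain ⟨i, _, hi⟩ := hp.2 hm
      exact ⟨i, hi⟩
    | succ m ih =>
      obtain ⟨m₁, h1, hR, hp⟩ := h a b hab
      rw [Function.iterate_succ_apply] at hm
      obtain ⟨m', hm'⟩ := ih hR hm
      exact ⟨m' + m₁, by rwa [Function.iterate_add_apply]⟩

/-- A run segment of length `m` from `a` to `a'`, all of whose proper initial configurations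
satisfy `pA` only if `c` holds. -/
def Seg (f : A → A) (pA : A → Prop) (c : Prop) (m : ℕ) (a a' : A) : Prop :=
  f^[m] a = a' ∧ ∀ i < m, pA (f^[i] a) → c

theorem Seg.refl (f : A → A) (pA : A → Prop) (c : Prop) (a : A) : Seg f pA c 0 a a :=
  ⟨rfl, fun i hi => absurd hi (Nat.not_lt_zero i)⟩

theorem Seg.trans {f : A → A} {pA : A → Prop} {c : Prop} {m m' : ℕ} {a a' a'' : A}
    (h : Seg f pA c m a a') (h' : Seg f pA c m' a' a'') : Seg f pA c (m + m') a a'' := by
  obtain ⟨h1, h2⟩ := h
  obtain ⟨h1', h2'⟩ := h'
  refine ⟨?_, ?_⟩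
  · rw [Nat.add_comm, Function.iterate_add_apply, h1, h1']
  · intro i hi hp
    by_cases him : i < m
    · exact h2 i him hp
    · push Not at him
      refine h2' (i - m) (by omega) ?_
      rw [← h1, ← Function.iterate_add_apply, Nat.sub_add_cancel him]
      exact hp

theorem Seg.single {f : A → A} {pA : A → Prop} {c : Prop} {a a' : A}
    (h : f a = a') (hp : pA a → c) : Seg f pA c 1 a a' := by
  refine ⟨h, fun i hi => ?_⟩
  obtain rfl : i = 0 := by omega
  exact hp

end sim

end Pool.Agent.Helper5
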