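import Pool.Agent.Helper5.MacroDPDA

set_option autoImplicit false

/-!
# Data-independence is no restriction for two-way multihead DPDAs

A two-way `k`-head DPDA is data-independent if the positions of its heads at time `m` depend only
on `m` and on the length of the input.  We show that, for each `k`, every two-way `k`-head DPDA is
equivalent to a data-independent two-way `k`-head DPDA (with the same number `k` of heads).
-/

namespace Pool.Agent.Results.MP_4e849b_lc.DataIndependent

open Pool.Agent.Helper5

/-- The configuration after `m` steps of the two-way `k`-head DPDA `δ` with initial state `q₀` on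
the input `w` (state, head positions, pushdown with its top first). -/
def config {α Q Γ : Type} {k : ℕ}
    (δ : Q → (Fin k → Bool × Option α) → Option Γ → Q × (Fin k → Fin 3) × List Γ) (q₀ : Q)
    (w : List α) (m : ℕ) : Q × (Fin k → ℕ) × List Γ :=
  (dpdaStep δ w)^[m] (q₀, (fun _ => 0), [])

/-- The two-way `k`-head DPDA `(δ, q₀, F)` accepts `w`. -/
def Accepts {α Q Γ : Type} {k : ℕ}
    (δ : Q → (Fin k → Bool × Option α) → Option Γ → Q × (Fin k → Fin 3) × List Γ) (q₀ : Q)
    (F : Set Q) (w : List α) : Prop :=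
  ∃ m : ℕ, (config δ q₀ w m).1 ∈ F

/-- The head trajectories of `(δ, q₀)` depend only on the length of the input. -/
def DataIndep {α Q Γ : Type} {k : ℕ}
    (δ : Q → (Fin k → Bool × Option α) → Option Γ → Q × (Fin k → Fin 3) × List Γ) (q₀ : Q) :
    Prop :=
  ∀ w w' : List α, w'.length = w.length → ∀ (m : ℕ) (i : Fin k),
    (config δ q₀ w m).2.1 i = (config δ q₀ w' m).2.1 i

/-- Every two-way `k`-head DPDA is equivalent to a data-independent two-way `k`-head DPDA. -/
theorem result (α : Type) [Fintype α] (k : ℕ) (Q Γ : Type) [Fintype Q] [Fintype Γ]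
    (δ : Q → (Fin k → Bool × Option α) → Option Γ → Q × (Fin k → Fin 3) × List Γ)
    (q₀ : Q) (F : Set Q) :
    ∃ (Q' Γ' : Type) (_ : Fintype Q') (_ : Fintype Γ')
      (δ' : Q' → (Fin k → Bool × Option α) → Option Γ' → Q' × (Fin k → Fin 3) × List Γ')
      (q₀' : Q') (F' : Set Q'),
      DataIndep δ' q₀' ∧ ∀ w : List α, Accepts δ' q₀' F' w ↔ Accepts δ q₀ F w := by
  refine ⟨(DState k Q × Bool) ⊕ ((DState k Q × Bool) × (Fin k → Fin 3)), Option Γ,
    inferInstance, inferInstance, compileP (odo (deltaD δ)), Sum.inl (Sum.inl q₀, false),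
    {s | ∃ p ∈ {s : DState k Q × Bool | s.1 ∈ {s | ∃ q ∈ F, s = Sum.inl q}}, s = Sum.inl p},
    ?_, ?_⟩
  · intro w w' hw m i
    have := odo_independent (deltaD δ) w (Sum.inl q₀) hw m
    exact congrFun this i
  · intro w
    have h2 := rot_iff δ w q₀ F
    have h3 := odo_iff (deltaD δ) w (Sum.inl q₀) {s | ∃ q ∈ F, s = Sum.inl q}
    have h4 := macroP_iff (odo (deltaD δ)) w (Sum.inl q₀, false)
      {s : DState k Q × Bool | s.1 ∈ {s | ∃ q ∈ F, s = Sum.inl q}}
    exact h4.trans (h3.trans h2)

end Pool.Agent.Results.MP_4e849b_lc.DataIndependent
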