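import Pool.Agent.Helper5.LCIneqCert

/-!
Real inequalities for `MP_6d1569_co` (Lagrangian density of linear cycles), asked for by helper52.
-/

namespace Pool.Agent.Helper5.LCIneq

theorem exists_w {L H U : ℝ} (h1 : L ≤ U) (h2 : U ≤ H) :
    ∃ w : ℝ, 0 ≤ w ∧ w ≤ 1 ∧ U = L + (H - L) * w := by
  rcases eq_or_lt_of_le (h1.trans h2) with h | h
  · exact ⟨0, le_refl _, zero_le_one, by linarith⟩
  · have hp : 0 < H - L := by linarith
    refine ⟨(U - L) / (H - L), div_nonneg (by linarith) hp.le, ?_, ?_⟩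
    · rw [div_le_one hp]; linarith
    · field_simp; ring

theorem fin {Y U W V N : ℝ} (hN : 0 ≤ N) (hU : U < 1) (hW : W < 1) (hVW : V ≤ W)
    (h : 0 < (1 - Y) * (1 - U) * (1 - W) - N * (2 - U - W)) :
    Y + N * (1 / (1 - U)) + N * (1 / (1 - V)) < 1 := by
  have hu : 0 < 1 - U := by linarith
  have hw : 0 < 1 - W := by linarith
  have h1 : 1 / (1 - V) ≤ 1 / (1 - W) := one_div_le_one_div_of_le hw (by linarith)
  have h2 : N * (1 / (1 - V)) ≤ N * (1 / (1 - W)) := mul_le_mul_of_nonneg_left h1 hN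
  have h3 : N * (1 / (1 - U)) + N * (1 / (1 - W)) = N * (2 - U - W) / ((1 - U) * (1 - W)) := by
    field_simp; ring
  have h4 : N * (2 - U - W) / ((1 - U) * (1 - W)) < 1 - Y := by
    rw [div_lt_iff₀ (mul_pos hu hw)]; linarith only [h]
  linarith

/-- the reduction: the two numerators may be replaced by `N` -/
theorem red {Y n1 n2 N U V : ℝ} (hVU : V ≤ U) (hU : U < 1) (hY : Y < 1)
    (ha : 0 ≤ N - n1) (hab : 0 ≤ (N - n1) + (N - n2))
    (hmain : 0 ≤ N → Y + N * (1 / (1 - U)) + N * (1 / (1 - V)) < 1) :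
    Y + n1 / (1 - U) + n2 / (1 - V) < 1 := by
  have hu : 0 < 1 - U := by linarith
  have hv : 0 < 1 - V := by linarith
  have hvp : 0 < 1 / (1 - V) := by positivity
  have hup : 0 < 1 / (1 - U) := by positivity
  have h1 : 1 / (1 - V) ≤ 1 / (1 - U) := one_div_le_one_div_of_le hu (by linarith)
  have h2 : n1 / (1 - U) + n2 / (1 - V) ≤ N * (1 / (1 - U)) + N * (1 / (1 - V)) := by
    rw [div_eq_mul_one_div n1, div_eq_mul_one_div n2]
    linarith only [ha, h1, hab, hvp, mul_nonneg ha (sub_nonneg.mpr h1), mul_nonneg hab hvp.le]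
  rcases le_or_gt 0 N with h | h
  · have := hmain h; linarith
  · linarith only [hY, h2, h, hup, hvp, mul_pos (neg_pos.mpr h) hup, mul_pos (neg_pos.mpr h) hvp]

theorem f1main {Y U V : ℝ} (hY : 0 ≤ Y) (hV : V ≤ 5 / 2 * Y) (hYU : Y ≤ U) (hVU : V ≤ U)
    (hU : U < 1) (hU2 : U ≤ 7 / 2 * Y) (hN : 0 ≤ 19 / 49 - Y - (U - Y) ^ 2 / 5) :
    Y + (19 / 49 - Y - (U - Y) ^ 2 / 5) * (1 / (1 - U)) +
      (19 / 49 - Y - (U - Y) ^ 2 / 5) * (1 / (1 - V)) < 1 := by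
  have hY2 : Y ≤ 2 / 5 := by linarith only [hYU, hU, hN, sq_nonneg (U - Y)]
  have hu : 0 < 1 - U := by linarith only [hU]
  rcases le_or_gt U (5 / 2 * Y) with h | h
  · refine fin hN hU hU hVU ?_
    obtain ⟨w, hw0, hw1, hw⟩ := exists_w hYU h
    have hw' : U = Y + 3 / 2 * Y * w := by rw [hw]; ring
    have key : 0 < (1 - Y) * (1 - (Y + 3 / 2 * Y * w)) -
        2 * (19 / 49 - Y - ((Y + 3 / 2 * Y * w) - Y) ^ 2 / 5) := by
      rcases le_total Y (1 / 5) with h1 | h1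
      · exact f1i_0 Y w hY h1 hw0 hw1
      · exact f1i_1 Y w h1 hY2 hw0 hw1
    rw [← hw'] at key
    have e : (1 - Y) * (1 - U) * (1 - U) - (19 / 49 - Y - (U - Y) ^ 2 / 5) * (2 - U - U) =
        (1 - U) * ((1 - Y) * (1 - U) - 2 * (19 / 49 - Y - (U - Y) ^ 2 / 5)) := by ring
    rw [e]
    exact mul_pos hu key
  · have hU0 : 0 ≤ U := by linarith only [hU2, h]
    have hW : 5 / 2 * Y < 1 := by linarith only [hU, h]
    have hwp : 0 < 1 - 5 / 2 * Y := by linarith only [hU, h]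
    obtain ⟨w, hw0, hw1, hw⟩ := exists_w (L := 0) (H := 2 / 5 * U) (U := 7 / 2 * Y - U)
      (by linarith only [hU2]) (by linarith only [h])
    have hw' : 7 / 2 * Y - U = 2 / 5 * U * w := by rw [hw]; ring
    have hYe : Y = 2 / 7 * (U + 2 / 5 * U * w) := by linarith only [hw]
    have key : 0 < (1 - 5 / 2 * (2 / 7 * (U + 2 / 5 * U * w))) *
        (1 - 2 / 7 * (U + 2 / 5 * U * w) - (19 + 5 * U) / 49 +
          2 / 5 * U * w * (70 - 20 * U + 4 * (2 / 5 * U * w)) / 245) -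
        (19 / 49 - 2 / 7 * (U + 2 / 5 * U * w) - (U - 2 / 7 * (U + 2 / 5 * U * w)) ^ 2 / 5) := by
      rcases le_total U (1 / 2) with h1 | h1
      · exact f1ii_0 U w hU0 h1 hw0 hw1
      · exact f1ii_1 U w h1 hU.le hw0 hw1
    rw [← hYe, ← hw'] at key
    set N := 19 / 49 - Y - (U - Y) ^ 2 / 5 with hNdef
    have hNe : N = (1 - U) * (19 + 5 * U) / 49 -
        (7 / 2 * Y - U) * (70 - 20 * U + 4 * (7 / 2 * Y - U)) / 245 := by rw [hNdef]; ring
    have hE : 0 ≤ (7 / 2 * Y - U) * (70 - 20 * U + 4 * (7 / 2 * Y - U)) / 245 := by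
      have : 0 ≤ 7 / 2 * Y - U := by linarith only [hU2]
      have h2 : 0 ≤ 70 - 20 * U + 4 * (7 / 2 * Y - U) := by linarith only [hU, hU2, h]
      positivity
    set E := (7 / 2 * Y - U) * (70 - 20 * U + 4 * (7 / 2 * Y - U)) / 245 with hEdef
    have hinv : 1 ≤ 1 / (1 - U) := by rw [le_div_iff₀ hu]; linarith only [hU2, h]
    have h1 : N * (1 / (1 - U)) ≤ (19 + 5 * U) / 49 - E := by
      have : N * (1 / (1 - U)) = (19 + 5 * U) / 49 - E * (1 / (1 - U)) := by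
        rw [hNe]; field_simp
      rw [this]
      nlinarith only [hU, hU2, h, hE, hinv]
    have h2 : N * (1 / (1 - V)) ≤ N * (1 / (1 - 5 / 2 * Y)) :=
      mul_le_mul_of_nonneg_left (one_div_le_one_div_of_le hwp (by linarith only [hV])) hN
    have h3 : N * (1 / (1 - 5 / 2 * Y)) < 1 - Y - (19 + 5 * U) / 49 + E := by
      rw [mul_one_div, div_lt_iff₀ hwp]
      linarith only [key, key]
    linarith

theorem F1x (a b V U Q : ℝ) (hb : 0 ≤ b) (hba : b ≤ a) (hV1 : a + b ≤ V) (hV : V ≤ a + 4 * b)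
    (hUV : V ≤ U) (hU : U < 1) (hU2 : U ≤ V + (2 / 3) * (V - a - b))
    (hQ : a ^ 2 + b ^ 2 + (U - a - b) ^ 2 / 5 ≤ Q) (_hm : 0 ≤ 19 / 49 - Q - 2 * a * (1 - a)) :
    a + b + (19 / 49 - Q - 2 * a * (1 - a)) / (1 - U) +
      (19 / 49 - Q - 2 * b * (1 - b)) / (1 - V) < 1 := by
  refine red (N := 19 / 49 - (a + b) - (U - (a + b)) ^ 2 / 5) hUV hU (by linarith) ?_ ?_ ?_
  · nlinarith [mul_nonneg (sub_nonneg.mpr hba) (by linarith : (0:ℝ) ≤ 1 - a - b)]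
  · linarith only [hQ]
  · intro hN
    exact f1main (by linarith only [hb, hba]) (by linarith only [hba, hV]) (by linarith only [hV1, hUV]) hUV hU (by linarith only [hba, hV, hU2]) hN

theorem f2main {Y U V : ℝ} (hY : 0 ≤ Y) (hV : V ≤ 4 / 3 * Y) (hYU : Y ≤ U) (hVU : V ≤ U)
    (hU : U < 1) (hU2 : U ≤ 2 * Y) (hN : 0 ≤ 19 / 49 - 2 / 3 * Y - Y ^ 2 / 9 - (U - Y) ^ 2 / 3) :
    Y + (19 / 49 - 2 / 3 * Y - Y ^ 2 / 9 - (U - Y) ^ 2 / 3) * (1 / (1 - U)) +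
      (19 / 49 - 2 / 3 * Y - Y ^ 2 / 9 - (U - Y) ^ 2 / 3) * (1 / (1 - V)) < 1 := by
  have hY2 : Y ≤ 3 / 5 := by nlinarith [sq_nonneg (U - Y)]
  have hu : 0 < 1 - U := by linarith only [hU]
  rcases le_or_gt U (4 / 3 * Y) with h | h
  · refine fin hN hU hU hVU ?_
    obtain ⟨w, hw0, hw1, hw⟩ := exists_w hYU h
    have hw' : U = Y + 1 / 3 * Y * w := by rw [hw]; ring
    have key : 0 < (1 - Y) * (1 - (Y + 1 / 3 * Y * w)) -
        2 * (19 / 49 - 2 / 3 * Y - Y ^ 2 / 9 - ((Y + 1 / 3 * Y * w) - Y) ^ 2 / 3) := by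
      rcases le_total Y (3 / 8) with h1 | h1
      · exact f2i_0 Y w hY h1 hw0 hw1
      · exact f2i_1 Y w h1 (by linarith only [hYU, hU, hY2]) hw0 hw1
    rw [← hw'] at key
    have e : (1 - Y) * (1 - U) * (1 - U) -
        (19 / 49 - 2 / 3 * Y - Y ^ 2 / 9 - (U - Y) ^ 2 / 3) * (2 - U - U) =
        (1 - U) * ((1 - Y) * (1 - U) -
          2 * (19 / 49 - 2 / 3 * Y - Y ^ 2 / 9 - (U - Y) ^ 2 / 3)) := by ring
    rw [e]
    exact mul_pos hu key
  · refine fin (W := 4 / 3 * Y) hN hU (by linarith only [hU, h]) hV ?_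
    rcases le_total Y (1 / 2) with h1 | h1
    · obtain ⟨w, hw0, hw1, hw⟩ := exists_w h.le hU2
      have hw' : U = 4 / 3 * Y + 2 / 3 * Y * w := by rw [hw]; ring
      rw [hw']
      rcases le_total Y (1 / 4) with h2 | h2
      · exact f2ii_0 Y w hY h2 hw0 hw1
      · exact f2ii_1 Y w h2 h1 hw0 hw1
    · obtain ⟨w, hw0, hw1, hw⟩ := exists_w h.le hU.le
      rw [hw]
      exact f2iii_0 Y w h1 hY2 hw0 hw1

theorem F2x (a b c V U Q : ℝ) (hc : 0 ≤ c) (hcb : c ≤ b) (hba : b ≤ a) (hV1 : a + b + c ≤ V)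
    (hV : V ≤ a + b + 2 * c) (hUV : V ≤ U) (hU : U < 1) (hU2 : U ≤ V + 2 * (V - a - b - c))
    (hQ : a ^ 2 + b ^ 2 + c ^ 2 + (U - a - b - c) ^ 2 / 3 ≤ Q)
    (_hm : 0 ≤ 19 / 49 - Q - 2 * a * (1 - a)) :
    a + b + c + (19 / 49 - Q - 2 * a * (1 - a)) / (1 - U) +
      (19 / 49 - Q - 2 * b * (1 - b)) / (1 - V) < 1 := by
  have hs : a + b + c < 1 := by linarith only [hV1, hUV, hU]
  obtain ⟨x, hx⟩ : ∃ x, x = b - c := ⟨_, rfl⟩
  obtain ⟨y, hy⟩ : ∃ y, y = a - b := ⟨_, rfl⟩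
  have hx0 : 0 ≤ x := by linarith only [hcb, hx]
  have hy0 : 0 ≤ y := by linarith only [hba, hy]
  have hb' : b = c + x := by linarith only [hx]
  have ha' : a = c + x + y := by linarith only [hx, hy]
  refine red (N := 19 / 49 - 2 / 3 * (a + b + c) - (a + b + c) ^ 2 / 9 - (U - (a + b + c)) ^ 2 / 3)
    hUV hU hs ?_ ?_ ?_
  · subst hb' ha'
    linarith only [hx0, hy0, hQ, hc, hs, mul_nonneg hc hx0, mul_nonneg hc hy0, mul_nonneg hx0 hy0, mul_nonneg hx0 hx0,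
      mul_nonneg hy0 hy0, mul_nonneg hx0 (sub_nonneg.mpr hs.le),
      mul_nonneg hy0 (sub_nonneg.mpr hs.le)]
  · subst hb' ha'
    linarith only [hx0, hy0, hQ, hs, mul_nonneg hc hx0, mul_nonneg hc hy0, mul_nonneg hx0 hy0, mul_nonneg hx0 hx0,
      mul_nonneg hy0 hy0, mul_nonneg hx0 (sub_nonneg.mpr hs.le),
      mul_nonneg hy0 (sub_nonneg.mpr hs.le)]
  · intro hN
    exact f2main (by linarith only [hc, hcb, hba]) (by linarith only [hcb, hba, hV]) (by linarith only [hV1, hUV]) hUV hU (by linarith only [hcb, hba, hV, hU2]) hN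

theorem c5main {Y U V : ℝ} (hY : 0 ≤ Y) (hV : V ≤ 3 / 2 * Y) (hYU : Y ≤ U) (hVU : V ≤ U)
    (hU : U < 1) (hU2 : U ≤ 2 * Y) (hN : 0 ≤ 25 / 81 - 1 / 2 * Y - Y ^ 2 / 8 - (U - Y) ^ 2 / 4) :
    Y + (25 / 81 - 1 / 2 * Y - Y ^ 2 / 8 - (U - Y) ^ 2 / 4) * (1 / (1 - U)) +
      (25 / 81 - 1 / 2 * Y - Y ^ 2 / 8 - (U - Y) ^ 2 / 4) * (1 / (1 - V)) < 1 := by
  have hY2 : Y ≤ 3 / 5 := by nlinarith only [hN, hY, sq_nonneg (U - Y)]
  have hu : 0 < 1 - U := by linarith only [hU]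
  rcases le_or_gt U (3 / 2 * Y) with h | h
  · refine fin hN hU hU hVU ?_
    obtain ⟨w, hw0, hw1, hw⟩ := exists_w hYU h
    have hw' : U = Y + 1 / 2 * Y * w := by rw [hw]; ring
    have key : 0 < (1 - Y) * (1 - (Y + 1 / 2 * Y * w)) -
        2 * (25 / 81 - 1 / 2 * Y - Y ^ 2 / 8 - ((Y + 1 / 2 * Y * w) - Y) ^ 2 / 4) := by
      rcases le_total Y (1 / 3) with h1 | h1
      · exact c5i_0 Y w hY h1 hw0 hw1
      · exact c5i_1 Y w h1 (by linarith only [hYU, hU, hY2]) hw0 hw1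
    rw [← hw'] at key
    have e : (1 - Y) * (1 - U) * (1 - U) -
        (25 / 81 - 1 / 2 * Y - Y ^ 2 / 8 - (U - Y) ^ 2 / 4) * (2 - U - U) =
        (1 - U) * ((1 - Y) * (1 - U) -
          2 * (25 / 81 - 1 / 2 * Y - Y ^ 2 / 8 - (U - Y) ^ 2 / 4)) := by ring
    rw [e]
    exact mul_pos hu key
  · refine fin (W := 3 / 2 * Y) hN hU (by linarith only [hU, h]) hV ?_
    rcases le_total Y (1 / 2) with h1 | h1
    · obtain ⟨w, hw0, hw1, hw⟩ := exists_w h.le hU2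
      have hw' : U = 3 / 2 * Y + 1 / 2 * Y * w := by rw [hw]; ring
      rw [hw']
      rcases le_total Y (1 / 4) with h2 | h2
      · exact c5ii_0 Y w hY h2 hw0 hw1
      · exact c5ii_1 Y w h2 h1 hw0 hw1
    · obtain ⟨w, hw0, hw1, hw⟩ := exists_w h.le hU.le
      rw [hw]
      exact c5iii_0 Y w h1 hY2 hw0 hw1

theorem C5x (a b c d V U Q : ℝ) (hd : 0 ≤ d) (hdc : d ≤ c) (hcb : c ≤ b) (hba : b ≤ a)
    (hV1 : a + b + c + d ≤ V) (hV : V ≤ a + b + c + 3 * d) (hUV : V ≤ U) (hU : U < 1)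
    (hU2 : U ≤ V + (V - a - b - c - d))
    (hQ : a ^ 2 + b ^ 2 + c ^ 2 + d ^ 2 + (U - a - b - c - d) ^ 2 / 4 ≤ Q)
    (_hm : 0 ≤ 25 / 81 - Q - 2 * a * (1 - a)) :
    a + b + c + d + (25 / 81 - Q - 2 * a * (1 - a)) / (1 - U) +
      (25 / 81 - Q - 2 * b * (1 - b)) / (1 - V) < 1 := by
  have hs : a + b + c + d < 1 := by linarith only [hV1, hUV, hU]
  obtain ⟨x, hx⟩ : ∃ x, x = c - d := ⟨_, rfl⟩
  obtain ⟨y, hy⟩ : ∃ y, y = b - c := ⟨_, rfl⟩
  obtain ⟨z, hz⟩ : ∃ z, z = a - b := ⟨_, rfl⟩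
  have hx0 : 0 ≤ x := by linarith only [hdc, hx]
  have hy0 : 0 ≤ y := by linarith only [hcb, hy]
  have hz0 : 0 ≤ z := by linarith only [hba, hz]
  have hc' : c = d + x := by linarith only [hx]
  have hb' : b = d + x + y := by linarith only [hx, hy]
  have ha' : a = d + x + y + z := by linarith only [hx, hy, hz]
  refine red (N := 25 / 81 - 1 / 2 * (a + b + c + d) - (a + b + c + d) ^ 2 / 8 -
    (U - (a + b + c + d)) ^ 2 / 4) hUV hU hs ?_ ?_ ?_
  · subst hc' hb' ha'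
    linarith only [hx0, hy0, hz0, hQ, hd, hs, mul_nonneg hd hx0, mul_nonneg hd hy0, mul_nonneg hd hz0, mul_nonneg hx0 hy0,
      mul_nonneg hx0 hz0, mul_nonneg hy0 hz0, mul_nonneg hx0 hx0,
      mul_nonneg hy0 hy0, mul_nonneg hz0 hz0, mul_nonneg hx0 (sub_nonneg.mpr hs.le),
      mul_nonneg hy0 (sub_nonneg.mpr hs.le), mul_nonneg hz0 (sub_nonneg.mpr hs.le)]
  · subst hc' hb' ha'
    linarith only [hx0, hy0, hz0, hQ, hs, mul_nonneg hd hx0, mul_nonneg hd hy0, mul_nonneg hd hz0, mul_nonneg hx0 hy0,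
      mul_nonneg hx0 hz0, mul_nonneg hy0 hz0, mul_nonneg hx0 hx0,
      mul_nonneg hy0 hy0, mul_nonneg hz0 hz0, mul_nonneg hx0 (sub_nonneg.mpr hs.le),
      mul_nonneg hy0 (sub_nonneg.mpr hs.le), mul_nonneg hz0 (sub_nonneg.mpr hs.le)]
  · intro hN
    exact c5main (by linarith only [hd, hdc, hcb, hba]) (by linarith only [hdc, hcb, hba, hV]) (by linarith only [hV1, hUV]) hUV hU (by linarith only [hdc, hcb, hba, hV, hU2]) hN

theorem e1 {s V : ℝ} (hs0 : 0 ≤ s) (hs1 : s ≤ 1 / 2) (hV : V ≤ 4 * s)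
    (h : V ^ 2 / 4 ≤ 25 / 81 - 2 * s * (1 - s)) : 0 < (1 - 3 * s) * (1 - V) - 2 * s * (1 - s) := by
  have hs2 : s ≤ 1 / 5 := by nlinarith [sq_nonneg V]
  rcases le_total s (7 / 50) with h1 | h1
  · nlinarith [mul_nonneg (by linarith only [hs1, hs2] : (0:ℝ) ≤ 1 - 3 * s) (sub_nonneg.mpr hV)]
  · have hV2 : V ≤ 5 * (25 / 81 - 2 * s * (1 - s)) + 1 / 5 := by
      linarith only [h, sq_nonneg (V - 2 / 5)]
    have h3 : 0 < (1 - 3 * s) * (4 / 5 - 5 * (25 / 81 - 2 * s * (1 - s))) - 2 * s * (1 - s) := by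
      nlinarith [mul_nonneg (sub_nonneg.mpr h1) (sub_nonneg.mpr hs2),
        mul_nonneg (mul_nonneg (sub_nonneg.mpr h1) (sub_nonneg.mpr hs2)) (sub_nonneg.mpr hs2),
        mul_nonneg (mul_nonneg (sub_nonneg.mpr h1) (sub_nonneg.mpr hs2)) (sub_nonneg.mpr h1)]
    nlinarith [mul_nonneg (by linarith : (0:ℝ) ≤ 1 - 3 * s) (sub_nonneg.mpr hV2)]

theorem b5fin {a M U V : ℝ} (hu : 0 < 1 - U) (hv : 0 < 1 - V)
    (h : 0 < (1 - 3 * a) * (1 - U) * (1 - V) - (M - 2 * a * (1 - a)) * (1 - V) - M * (1 - U)) :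
    3 * a + (M - 2 * a * (1 - a)) / (1 - U) + M / (1 - V) < 1 := by
  rw [div_eq_mul_inv, div_eq_mul_inv]
  have hui : (1 - U) * (1 - U)⁻¹ = 1 := mul_inv_cancel₀ hu.ne'
  have hvi : (1 - V) * (1 - V)⁻¹ = 1 := mul_inv_cancel₀ hv.ne'
  have hp : 0 < (1 - U)⁻¹ := inv_pos.mpr hu
  have hq : 0 < (1 - V)⁻¹ := inv_pos.mpr hv
  have h2 := mul_pos h (mul_pos hp hq)
  generalize (1 - U)⁻¹ = p at *
  generalize (1 - V)⁻¹ = q at *
  have e : 1 - (3 * a + (M - 2 * a * (1 - a)) * p + M * q) =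
      ((1 - 3 * a) * (1 - U) * (1 - V) - (M - 2 * a * (1 - a)) * (1 - V) - M * (1 - U)) *
        (p * q) := by
    linear_combination (-(1 - 3 * a) * ((1 - V) * q) + M * q) * hui +
      (-(1 - 3 * a) + (M - 2 * a * (1 - a)) * p) * hvi
  linarith only [h2, e]

theorem B5x (a V U Q : ℝ) (ha0 : 0 ≤ a) (ha : a ≤ 1 / 2) (hV0 : 0 ≤ V) (hV : V ≤ 4 * a)
    (hUV : V ≤ U) (hU : U < 1) (hU2 : U ≤ (7 / 4) * V)
    (hQ : V ^ 2 / 4 + (U - V) ^ 2 / 3 ≤ Q) (hm : 0 ≤ 25 / 81 - Q - 2 * a * (1 - a)) :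
    3 * a + (25 / 81 - Q - 2 * a * (1 - a)) / (1 - U) + (25 / 81 - Q) / (1 - V) < 1 := by
  have hu : 0 < 1 - U := by linarith only [hU]
  have hv : 0 < 1 - V := by linarith only [hUV, hU]
  obtain ⟨M, hM⟩ : ∃ M, M = 25 / 81 - (V ^ 2 / 4 + (U - V) ^ 2 / 3) := ⟨_, rfl⟩
  have hMQ : 25 / 81 - Q ≤ M := by rw [hM]; linarith only [hQ]
  have hMa : 2 * a * (1 - a) ≤ M := by linarith only [hQ, hm, hM]
  have ha2 : 0 ≤ 2 * a * (1 - a) := by
    have : 0 ≤ 1 - a := by linarith only [ha]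
    positivity
  have hM0 : 0 ≤ M := ha2.trans hMa
  have hM1 : M ≤ 25 / 81 := by rw [hM]; linarith only [sq_nonneg V, sq_nonneg (U - V)]
  -- the root `s`
  obtain ⟨s, hs0, hs1, hs⟩ : ∃ s : ℝ, 0 ≤ s ∧ s ≤ 1 / 2 ∧ 2 * s * (1 - s) = M := by
    have h1 : 0 ≤ 1 - 2 * M := by linarith only [hM1]
    have h2 : Real.sqrt (1 - 2 * M) ≤ 1 := by
      rw [Real.sqrt_le_one]; linarith only [hQ, hm, hM, ha2]
    refine ⟨(1 - Real.sqrt (1 - 2 * M)) / 2, by linarith only [h2],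
      by linarith only [Real.sqrt_nonneg (1 - 2 * M)], ?_⟩
    linarith only [h1, Real.sq_sqrt h1]
  have has : a ≤ s := by
    by_contra hcon
    push Not at hcon
    have h1 : 0 < 1 - a - s := by linarith only [ha, hcon]
    linarith only [hQ, hm, hM, hs, hcon, h1, mul_pos (sub_pos.mpr hcon) h1]
  have hP1 : 0 < (1 - 3 * s) * (1 - V) - 2 * s * (1 - s) := by
    refine e1 hs0 hs1 (by linarith only [hV, has]) ?_
    rw [hs, hM]; linarith only [sq_nonneg (U - V)]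
  have hVa : V / 4 ≤ a := by linarith only [hV]
  have hV2 : V ≤ 4 / 7 := by
    have h1 : 0 ≤ (a - V / 4) * (1 - a - V / 4) :=
      mul_nonneg (by linarith only [hV]) (by linarith only [ha, hV])
    have h2 : V / 2 + V ^ 2 / 8 ≤ 25 / 81 := by linarith only [hQ, hm, h1, sq_nonneg (U - V)]
    nlinarith only [hQ, hm, h1, hV0]
  -- the value at `V / 4`
  have hP2 : 0 < (1 - 3 / 4 * V) * (1 - U) * (1 - V) - (M - V / 2 * (1 - V / 4)) * (2 - U - V) -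
      V / 2 * (1 - V / 4) * (1 - U) := by
    obtain ⟨w, hw0, hw1, hw⟩ := exists_w hUV hU2
    have hw' : U = V + 3 / 4 * V * w := by rw [hw]; ring
    have key : 0 < (1-3/4*V)*(1-(V+3/4*V*w))*(1-V)-(25/81-V/2*(1-V/4)-V^2/4-((V+3/4*V*w)-V)^2/3)*(2-(V+3/4*V*w)-V)-V/2*(1-V/4)*(1-(V+3/4*V*w)) := by
      rcases le_total V (2 / 7) with h1 | h1
      · exact b5e_0 V w hV0 h1 hw0 hw1
      · exact b5e_1 V w h1 hV2 hw0 hw1
    rw [← hw'] at key
    rw [hM]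
    linarith only [key, key]
  obtain ⟨P, hP⟩ : ∃ P : ℝ → ℝ, ∀ x, P x = (1 - 3 * x) * (1 - U) * (1 - V) -
      (M - 2 * x * (1 - x)) * (1 - V) - M * (1 - U) := ⟨_, fun _ => rfl⟩
  have hPs : 0 < P s := by
    rw [hP, hs]
    have : (1 - 3 * s) * (1 - U) * (1 - V) - (M - M) * (1 - V) - M * (1 - U) =
        (1 - U) * ((1 - 3 * s) * (1 - V) - M) := by ring
    rw [this]
    rw [hs] at hP1
    exact mul_pos hu hP1
  have hPl : 0 < P (V / 4) := by
    rw [hP]; linarith only [hP2, hP2]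
  have hPa : 0 < P a := by
    have hid : (s - V / 4) * P a = (s - a) * P (V / 4) + (a - V / 4) * P s +
        2 * (1 - V) * (a - V / 4) * (s - a) * (s - V / 4) := by
      rw [hP, hP, hP]; ring
    rcases eq_or_lt_of_le (hVa.trans has) with h | h
    · have : a = V / 4 := by linarith only [hV, has, h]
      rw [this]; exact hPl
    · have h1 : 0 < (s - V / 4) * P a := by
        rw [hid]
        have e1 : 0 ≤ (s - a) * P (V / 4) := mul_nonneg (by linarith only [has]) hPl.le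
        have e2 : 0 ≤ (a - V / 4) * P s := mul_nonneg (by linarith only [hV]) hPs.le
        have e3 : 0 ≤ 2 * (1 - V) * (a - V / 4) * (s - a) * (s - V / 4) := by
          have : 0 ≤ a - V / 4 := by linarith only [hV]
          have : 0 ≤ s - a := by linarith only [has]
          have : 0 ≤ s - V / 4 := by linarith only [h]
          positivity
        rcases eq_or_lt_of_le has with h' | h'
        · have : 0 < (a - V / 4) * P s := mul_pos (by linarith only [h, h']) hPs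
          linarith only [e1, e3, this]
        · have : 0 < (s - a) * P (V / 4) := mul_pos (by linarith only [h']) hPl
          linarith only [e2, e3, this]
      by_contra hcon
      push Not at hcon
      linarith only [h1, h, hcon, mul_nonneg (sub_nonneg.mpr h.le) (neg_nonneg.mpr hcon)]
  -- conclusion
  have hc1 : (25 / 81 - Q - 2 * a * (1 - a)) / (1 - U) ≤ (M - 2 * a * (1 - a)) / (1 - U) :=
    div_le_div_of_nonneg_right (by linarith only [hQ, hM]) hu.le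
  have hc2 : (25 / 81 - Q) / (1 - V) ≤ M / (1 - V) :=
    div_le_div_of_nonneg_right hMQ hv.le
  have hc3 : 3 * a + (M - 2 * a * (1 - a)) / (1 - U) + M / (1 - V) < 1 :=
    b5fin hu hv (by have := hPa; rw [hP] at this; exact this)
  linarith only [hc1, hc2, hc3]

end Pool.Agent.Helper5.LCIneq
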