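import Mathlib

namespace Pool.Agent.Helper5.LCIneq

set_option maxRecDepth 100000
set_option linter.unusedVariables false

theorem f1i_0 (y w : ℝ) (h1 : 0 ≤ y) (h2 : y ≤ 1/5) (h3 : 0 ≤ w) (h4 : w ≤ 1) :
    0 < (1-y)*(1-(y+3/2*y*w))-2*(19/49-y-((y+3/2*y*w)-y)^2/5) := by
  have key : ∀ u a v b : ℝ, 0 ≤ u → 0 ≤ a → 0 ≤ v → 0 ≤ b → 0 ≤ (7575/1568)*a^2*b^2
      + (7575/784)*a^2*v^1*b^1
      + (7575/1568)*a^2*v^2
      + (7575/784)*u^1*a^1*b^2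
      + (4635/392)*u^1*a^1*v^1*b^1
      + (1695/784)*u^1*a^1*v^2
      + (9143/1568)*u^2*b^2
      + (4439/784)*u^2*v^1*b^1
      + (5731/7840)*u^2*v^2 := by
    intro u a v b hu ha hv hb; positivity
  have h := key (y - 0) (1/5 - y) (w - 0) (1 - w) (by linarith) (by linarith) (by linarith) (by linarith)
  have h' : (0:ℝ) < 1/32 := by norm_num
  refine lt_of_lt_of_le h' ?_
  rw [← sub_nonneg]
  refine le_of_le_of_eq h ?_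
  ring

theorem f1i_1 (y w : ℝ) (h1 : 1/5 ≤ y) (h2 : y ≤ 2/5) (h3 : 0 ≤ w) (h4 : w ≤ 1) :
    0 < (1-y)*(1-(y+3/2*y*w))-2*(19/49-y-((y+3/2*y*w)-y)^2/5) := by
  have key : ∀ u a v b : ℝ, 0 ≤ u → 0 ≤ a → 0 ≤ v → 0 ≤ b → 0 ≤ (9143/1568)*a^2*b^2
      + (4439/784)*a^2*v^1*b^1
      + (5731/7840)*a^2*v^2
      + (10711/784)*u^1*a^1*b^2
      + (4243/392)*u^1*a^1*v^1*b^1
      + (2987/3920)*u^1*a^1*v^2
      + (13847/1568)*u^2*b^2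
      + (6791/784)*u^2*v^1*b^1
      + (26899/7840)*u^2*v^2 := by
    intro u a v b hu ha hv hb; positivity
  have h := key (y - 1/5) (2/5 - y) (w - 0) (1 - w) (by linarith) (by linarith) (by linarith) (by linarith)
  have h' : (0:ℝ) < 1/32 := by norm_num
  refine lt_of_lt_of_le h' ?_
  rw [← sub_nonneg]
  refine le_of_le_of_eq h ?_
  ring

theorem f1ii_0 (y w : ℝ) (h1 : 0 ≤ y) (h2 : y ≤ 1/2) (h3 : 0 ≤ w) (h4 : w ≤ 1) :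
    0 < (1-(5/2*(2/7*(y+(2/5*y*w)))))*(1-(2/7*(y+(2/5*y*w)))-(19+5*y)/49+(2/5*y*w)*(70-20*y+4*(2/5*y*w))/245)-(19/49-(2/7*(y+(2/5*y*w)))-(y-(2/7*(y+(2/5*y*w))))^2/5) := by
  have key : ∀ u a v b : ℝ, 0 ≤ u → 0 ≤ a → 0 ≤ v → 0 ≤ b → 0 ≤ (303/196)*a^3*b^3
      + (909/196)*a^3*v^1*b^2
      + (909/196)*a^3*v^2*b^1
      + (303/196)*a^3*v^3
      + (3403/1372)*u^1*a^2*b^3
      + (49381/6860)*u^1*a^2*v^1*b^2
      + (47717/6860)*u^1*a^2*v^2*b^1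
      + (2193/980)*u^1*a^2*v^3
      + (1483/1372)*u^2*a^1*b^3
      + (19541/6860)*u^2*a^1*v^1*b^2
      + (422717/171500)*u^2*a^1*v^2*b^1
      + (17081/24500)*u^2*a^1*v^3
      + (201/1372)*u^3*b^3
      + (61/196)*u^3*v^1*b^2
      + (703/3500)*u^3*v^2*b^1
      + (867/24500)*u^3*v^3 := by
    intro u a v b hu ha hv hb; positivity
  have h := key (y - 0) (1/2 - y) (w - 0) (1 - w) (by linarith) (by linarith) (by linarith) (by linarith)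
  have h' : (0:ℝ) < 1/32 := by norm_num
  refine lt_of_lt_of_le h' ?_
  rw [← sub_nonneg]
  refine le_of_le_of_eq h ?_
  ring

theorem f1ii_1 (y w : ℝ) (h1 : 1/2 ≤ y) (h2 : y ≤ 1) (h3 : 0 ≤ w) (h4 : w ≤ 1) :
    0 < (1-(5/2*(2/7*(y+(2/5*y*w)))))*(1-(2/7*(y+(2/5*y*w)))-(19+5*y)/49+(2/5*y*w)*(70-20*y+4*(2/5*y*w))/245)-(19/49-(2/7*(y+(2/5*y*w)))-(y-(2/7*(y+(2/5*y*w))))^2/5) := by
  have key : ∀ u a v b : ℝ, 0 ≤ u → 0 ≤ a → 0 ≤ v → 0 ≤ b → 0 ≤ (1833/5488)*a^3*b^3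
      + (685/784)*a^3*v^1*b^2
      + (10687/14000)*a^3*v^2*b^1
      + (21843/98000)*a^3*v^3
      + (1979/5488)*u^1*a^2*b^3
      + (19381/27440)*u^1*a^2*v^1*b^2
      + (58697/137200)*u^1*a^2*v^2*b^1
      + (1087/14000)*u^1*a^2*v^3
      + (2619/5488)*u^2*a^1*b^3
      + (33653/27440)*u^2*a^1*v^1*b^2
      + (819309/686000)*u^2*a^1*v^2*b^1
      + (8549/19600)*u^2*a^1*v^3
      + (2473/5488)*u^3*b^3
      + (38887/27440)*u^3*v^1*b^2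
      + (1086607/686000)*u^3*v^2*b^1
      + (59923/98000)*u^3*v^3 := by
    intro u a v b hu ha hv hb; positivity
  have h := key (y - 1/2) (1 - y) (w - 0) (1 - w) (by linarith) (by linarith) (by linarith) (by linarith)
  have h' : (0:ℝ) < 1/128 := by norm_num
  refine lt_of_lt_of_le h' ?_
  rw [← sub_nonneg]
  refine le_of_le_of_eq h ?_
  ring

theorem f2i_0 (y w : ℝ) (h1 : 0 ≤ y) (h2 : y ≤ 3/8) (h3 : 0 ≤ w) (h4 : w ≤ 1) :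
    0 < (1-y)*(1-(y+1/3*y*w))-2*(19/49-2/3*y-y^2/9-((y+1/3*y*w)-y)^2/3) := by
  have key : ∀ u a v b : ℝ, 0 ≤ u → 0 ≤ a → 0 ≤ v → 0 ≤ b → 0 ≤ (202/147)*a^2*b^2
      + (404/147)*a^2*v^1*b^1
      + (202/147)*a^2*v^2
      + (428/441)*u^1*a^1*b^2
      + (464/441)*u^1*a^1*v^1*b^1
      + (4/49)*u^1*a^1*v^2
      + (361/441)*u^2*b^2
      + (53/49)*u^2*v^1*b^1
      + (446/1323)*u^2*v^2 := by
    intro u a v b hu ha hv hb; positivity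
  have h := key (y - 0) (3/8 - y) (w - 0) (1 - w) (by linarith) (by linarith) (by linarith) (by linarith)
  have h' : (0:ℝ) < 1/32 := by norm_num
  refine lt_of_lt_of_le h' ?_
  rw [← sub_nonneg]
  refine le_of_le_of_eq h ?_
  ring

theorem f2i_1 (y w : ℝ) (h1 : 3/8 ≤ y) (h2 : y ≤ 3/4) (h3 : 0 ≤ w) (h4 : w ≤ 1) :
    0 < (1-y)*(1-(y+1/3*y*w))-2*(19/49-2/3*y-y^2/9-((y+1/3*y*w)-y)^2/3) := by
  have key : ∀ u a v b : ℝ, 0 ≤ u → 0 ≤ a → 0 ≤ v → 0 ≤ b → 0 ≤ (263/441)*a^2*b^2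
      + (281/441)*a^2*v^1*b^1
      + (152/1323)*a^2*v^2
      + (820/441)*u^1*a^1*b^2
      + (1052/441)*u^1*a^1*v^1*b^1
      + (1088/1323)*u^1*a^1*v^2
      + (1096/441)*u^2*b^2
      + (1996/441)*u^2*v^1*b^1
      + (3092/1323)*u^2*v^2 := by
    intro u a v b hu ha hv hb; positivity
  have h := key (y - 3/8) (3/4 - y) (w - 0) (1 - w) (by linarith) (by linarith) (by linarith) (by linarith)
  have h' : (0:ℝ) < 1/16 := by norm_num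
  refine lt_of_lt_of_le h' ?_
  rw [← sub_nonneg]
  refine le_of_le_of_eq h ?_
  ring

theorem f2ii_0 (y w : ℝ) (h1 : 0 ≤ y) (h2 : y ≤ 1/4) (h3 : 0 ≤ w) (h4 : w ≤ 1) :
    0 < (1-y)*(1-(4/3*y+2/3*y*w))*(1-(4/3*y))-(19/49-2/3*y-y^2/9-((4/3*y+2/3*y*w)-y)^2/3)*(2-(4/3*y+2/3*y*w)-(4/3*y)) := by
  have key : ∀ u a v b : ℝ, 0 ≤ u → 0 ≤ a → 0 ≤ v → 0 ≤ b → 0 ≤ (655/49)*a^3*b^3
      + (1965/49)*a^3*v^1*b^2
      + (1965/49)*a^3*v^2*b^1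
      + (655/49)*a^3*v^3
      + (2839/147)*u^1*a^2*b^3
      + (2519/49)*u^1*a^2*v^1*b^2
      + (2199/49)*u^1*a^2*v^2*b^1
      + (1879/147)*u^1*a^2*v^3
      + (1961/189)*u^2*a^1*b^3
      + (31349/1323)*u^2*a^1*v^1*b^2
      + (855/49)*u^2*a^1*v^2*b^1
      + (607/147)*u^2*a^1*v^3
      + (8959/3969)*u^3*b^3
      + (17813/3969)*u^3*v^1*b^2
      + (1277/441)*u^3*v^2*b^1
      + (107/189)*u^3*v^3 := by
    intro u a v b hu ha hv hb; positivity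
  have h := key (y - 0) (1/4 - y) (w - 0) (1 - w) (by linarith) (by linarith) (by linarith) (by linarith)
  have h' : (0:ℝ) < 1/64 := by norm_num
  refine lt_of_lt_of_le h' ?_
  rw [← sub_nonneg]
  refine le_of_le_of_eq h ?_
  ring

theorem f2ii_1 (y w : ℝ) (h1 : 1/4 ≤ y) (h2 : y ≤ 1/2) (h3 : 0 ≤ w) (h4 : w ≤ 1) :
    0 < (1-y)*(1-(4/3*y+2/3*y*w))*(1-(4/3*y))-(19/49-2/3*y-y^2/9-((4/3*y+2/3*y*w)-y)^2/3)*(2-(4/3*y+2/3*y*w)-(4/3*y)) := by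
  have key : ∀ u a v b : ℝ, 0 ≤ u → 0 ≤ a → 0 ≤ v → 0 ≤ b → 0 ≤ (21887/7938)*a^3*b^3
      + (47533/7938)*a^3*v^1*b^2
      + (3877/882)*a^3*v^2*b^1
      + (403/378)*a^3*v^3
      + (4117/882)*u^1*a^2*b^3
      + (2923/378)*u^1*a^2*v^1*b^2
      + (1301/294)*u^1*a^2*v^2*b^1
      + (677/882)*u^1*a^2*v^3
      + (16927/2646)*u^2*a^1*b^3
      + (4405/294)*u^2*a^1*v^1*b^2
      + (4213/294)*u^2*a^1*v^2*b^1
      + (4021/882)*u^2*a^1*v^3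
      + (18367/7938)*u^3*b^3
      + (42365/7938)*u^3*v^1*b^2
      + (3989/882)*u^3*v^2*b^1
      + (1877/2646)*u^3*v^3 := by
    intro u a v b hu ha hv hb; positivity
  have h := key (y - 1/4) (1/2 - y) (w - 0) (1 - w) (by linarith) (by linarith) (by linarith) (by linarith)
  have h' : (0:ℝ) < 1/128 := by norm_num
  refine lt_of_lt_of_le h' ?_
  rw [← sub_nonneg]
  refine le_of_le_of_eq h ?_
  ring

theorem f2iii_0 (y w : ℝ) (h1 : 1/2 ≤ y) (h2 : y ≤ 3/5) (h3 : 0 ≤ w) (h4 : w ≤ 1) :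
    0 < (1-y)*(1-(4/3*y+(1-4/3*y)*w))*(1-(4/3*y))-(19/49-2/3*y-y^2/9-((4/3*y+(1-4/3*y)*w)-y)^2/3)*(2-(4/3*y+(1-4/3*y)*w)-(4/3*y)) := by
  have key : ∀ u a v b : ℝ, 0 ≤ u → 0 ≤ a → 0 ≤ v → 0 ≤ b → 0 ≤ (899875/31752)*a^3*b^3
      + (1903625/31752)*a^3*v^1*b^2
      + (166625/3528)*a^3*v^2*b^1
      + (34625/10584)*a^3*v^3
      + (935875/10584)*u^1*a^2*b^3
      + (710275/3528)*u^1*a^2*v^1*b^2
      + (1610825/10584)*u^1*a^2*v^2*b^1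
      + (20075/1176)*u^1*a^2*v^3
      + (313505/3528)*u^2*a^1*b^3
      + (728515/3528)*u^2*a^1*v^1*b^2
      + (532195/3528)*u^2*a^1*v^2*b^1
      + (70145/3528)*u^2*a^1*v^3
      + (31289/1176)*u^3*b^3
      + (24057/392)*u^3*v^1*b^2
      + (16825/392)*u^3*v^2*b^1
      + (6457/1176)*u^3*v^3 := by
    intro u a v b hu ha hv hb; positivity
  have h := key (y - 1/2) (3/5 - y) (w - 0) (1 - w) (by linarith) (by linarith) (by linarith) (by linarith)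
  have h' : (0:ℝ) < 1/64 := by norm_num
  refine lt_of_lt_of_le h' ?_
  rw [← sub_nonneg]
  refine le_of_le_of_eq h ?_
  ring

theorem c5i_0 (y w : ℝ) (h1 : 0 ≤ y) (h2 : y ≤ 1/3) (h3 : 0 ≤ w) (h4 : w ≤ 1) :
    0 < (1-y)*(1-(y+1/2*y*w))-2*(25/81-1/2*y-y^2/8-((y+1/2*y*w)-y)^2/4) := by
  have key : ∀ u a v b : ℝ, 0 ≤ u → 0 ≤ a → 0 ≤ v → 0 ≤ b → 0 ≤ (415/144)*a^2*b^2
      + (415/72)*a^2*v^1*b^1
      + (415/144)*a^2*v^2
      + (199/72)*u^1*a^1*b^2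
      + (145/36)*u^1*a^1*v^1*b^1
      + (91/72)*u^1*a^1*v^2
      + (163/144)*u^2*b^2
      + (91/72)*u^2*v^1*b^1
      + (37/144)*u^2*v^2 := by
    intro u a v b hu ha hv hb; positivity
  have h := key (y - 0) (1/3 - y) (w - 0) (1 - w) (by linarith) (by linarith) (by linarith) (by linarith)
  have h' : (0:ℝ) < 1/16 := by norm_num
  refine lt_of_lt_of_le h' ?_
  rw [← sub_nonneg]
  refine le_of_le_of_eq h ?_
  ring

theorem c5i_1 (y w : ℝ) (h1 : 1/3 ≤ y) (h2 : y ≤ 2/3) (h3 : 0 ≤ w) (h4 : w ≤ 1) :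
    0 < (1-y)*(1-(y+1/2*y*w))-2*(25/81-1/2*y-y^2/8-((y+1/2*y*w)-y)^2/4) := by
  have key : ∀ u a v b : ℝ, 0 ≤ u → 0 ≤ a → 0 ≤ v → 0 ≤ b → 0 ≤ (407/288)*a^2*b^2
      + (263/144)*a^2*v^1*b^1
      + (155/288)*a^2*v^2
      + (335/144)*u^1*a^1*b^2
      + (155/72)*u^1*a^1*v^1*b^1
      + (47/144)*u^1*a^1*v^2
      + (623/288)*u^2*b^2
      + (479/144)*u^2*v^1*b^1
      + (479/288)*u^2*v^2 := by
    intro u a v b hu ha hv hb; positivity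
  have h := key (y - 1/3) (2/3 - y) (w - 0) (1 - w) (by linarith) (by linarith) (by linarith) (by linarith)
  have h' : (0:ℝ) < 1/32 := by norm_num
  refine lt_of_lt_of_le h' ?_
  rw [← sub_nonneg]
  refine le_of_le_of_eq h ?_
  ring

theorem c5ii_0 (y w : ℝ) (h1 : 0 ≤ y) (h2 : y ≤ 1/4) (h3 : 0 ≤ w) (h4 : w ≤ 1) :
    0 < (1-y)*(1-(3/2*y+1/2*y*w))*(1-(3/2*y))-(25/81-1/2*y-y^2/8-((3/2*y+1/2*y*w)-y)^2/4)*(2-(3/2*y+1/2*y*w)-(3/2*y)) := by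
  have key : ∀ u a v b : ℝ, 0 ≤ u → 0 ≤ a → 0 ≤ v → 0 ≤ b → 0 ≤ (1822/81)*a^3*b^3
      + (1822/27)*a^3*v^1*b^2
      + (1822/27)*a^3*v^2*b^1
      + (1822/81)*a^3*v^3
      + (926/27)*u^1*a^2*b^3
      + (7886/81)*u^1*a^2*v^1*b^2
      + (7438/81)*u^1*a^2*v^2*b^1
      + (2330/81)*u^1*a^2*v^3
      + (317/18)*u^2*a^1*b^3
      + (7577/162)*u^2*a^1*v^1*b^2
      + (3338/81)*u^2*a^1*v^2*b^1
      + (976/81)*u^2*a^1*v^3
      + (3883/1296)*u^3*b^3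
      + (18763/2592)*u^3*v^1*b^2
      + (3719/648)*u^3*v^2*b^1
      + (211/144)*u^3*v^3 := by
    intro u a v b hu ha hv hb; positivity
  have h := key (y - 0) (1/4 - y) (w - 0) (1 - w) (by linarith) (by linarith) (by linarith) (by linarith)
  have h' : (0:ℝ) < 1/32 := by norm_num
  refine lt_of_lt_of_le h' ?_
  rw [← sub_nonneg]
  refine le_of_le_of_eq h ?_
  ring

theorem c5ii_1 (y w : ℝ) (h1 : 1/4 ≤ y) (h2 : y ≤ 1/2) (h3 : 0 ≤ w) (h4 : w ≤ 1) :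
    0 < (1-y)*(1-(3/2*y+1/2*y*w))*(1-(3/2*y))-(25/81-1/2*y-y^2/8-((3/2*y+1/2*y*w)-y)^2/4)*(2-(3/2*y+1/2*y*w)-(3/2*y)) := by
  have key : ∀ u a v b : ℝ, 0 ≤ u → 0 ≤ a → 0 ≤ v → 0 ≤ b → 0 ≤ (5827/1296)*a^3*b^3
      + (30427/2592)*a^3*v^1*b^2
      + (6635/648)*a^3*v^2*b^1
      + (427/144)*a^3*v^3
      + (1051/216)*u^1*a^2*b^3
      + (13169/1296)*u^1*a^2*v^1*b^2
      + (2179/324)*u^1*a^2*v^2*b^1
      + (805/648)*u^1*a^2*v^3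
      + (155/36)*u^2*a^1*b^3
      + (6893/648)*u^2*a^1*v^1*b^2
      + (758/81)*u^2*a^1*v^2*b^1
      + (859/324)*u^2*a^1*v^3
      + (91/81)*u^3*b^3
      + (829/324)*u^3*v^1*b^2
      + (283/162)*u^3*v^2*b^1
      + (5/81)*u^3*v^3 := by
    intro u a v b hu ha hv hb; positivity
  have h := key (y - 1/4) (1/2 - y) (w - 0) (1 - w) (by linarith) (by linarith) (by linarith) (by linarith)
  have h' : (0:ℝ) < 1/128 := by norm_num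
  refine lt_of_lt_of_le h' ?_
  rw [← sub_nonneg]
  refine le_of_le_of_eq h ?_
  ring

theorem c5iii_0 (y w : ℝ) (h1 : 1/2 ≤ y) (h2 : y ≤ 3/5) (h3 : 0 ≤ w) (h4 : w ≤ 1) :
    0 < (1-y)*(1-(3/2*y+(1-3/2*y)*w))*(1-(3/2*y))-(25/81-1/2*y-y^2/8-((3/2*y+(1-3/2*y)*w)-y)^2/4)*(2-(3/2*y+(1-3/2*y)*w)-(3/2*y)) := by
  have key : ∀ u a v b : ℝ, 0 ≤ u → 0 ≤ a → 0 ≤ v → 0 ≤ b → 0 ≤ (55625/2592)*a^3*b^3
      + (8375/162)*a^3*v^1*b^2
      + (101125/2592)*a^3*v^2*b^1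
      + (12625/2592)*a^3*v^3
      + (50575/864)*u^1*a^2*b^3
      + (126775/864)*u^1*a^2*v^1*b^2
      + (96425/864)*u^1*a^2*v^2*b^1
      + (16175/864)*u^1*a^2*v^3
      + (14905/288)*u^2*a^1*b^3
      + (37015/288)*u^2*a^1*v^1*b^2
      + (27875/288)*u^2*a^1*v^2*b^1
      + (5225/288)*u^2*a^1*v^3
      + (30755/2592)*u^3*b^3
      + (74417/2592)*u^3*v^1*b^2
      + (53977/2592)*u^3*v^2*b^1
      + (9667/2592)*u^3*v^3 := by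
    intro u a v b hu ha hv hb; positivity
  have h := key (y - 1/2) (3/5 - y) (w - 0) (1 - w) (by linarith) (by linarith) (by linarith) (by linarith)
  have h' : (0:ℝ) < 1/256 := by norm_num
  refine lt_of_lt_of_le h' ?_
  rw [← sub_nonneg]
  refine le_of_le_of_eq h ?_
  ring

theorem b5e_0 (y w : ℝ) (h1 : 0 ≤ y) (h2 : y ≤ 2/7) (h3 : 0 ≤ w) (h4 : w ≤ 1) :
    0 < (1-3/4*y)*(1-(y+3/4*y*w))*(1-y)-(25/81-y/2*(1-y/4)-y^2/4-((y+3/4*y*w)-y)^2/3)*(2-(y+3/4*y*w)-y)-y/2*(1-y/4)*(1-(y+3/4*y*w)) := by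
  have key : ∀ u a v b : ℝ, 0 ≤ u → 0 ≤ a → 0 ≤ v → 0 ≤ b → 0 ≤ (312473/20736)*a^3*b^3
      + (312473/6912)*a^3*v^1*b^2
      + (312473/6912)*a^3*v^2*b^1
      + (312473/20736)*a^3*v^3
      + (522683/20736)*u^1*a^2*b^3
      + (159593/2304)*u^1*a^2*v^1*b^2
      + (434875/6912)*u^1*a^2*v^2*b^1
      + (390971/20736)*u^1*a^2*v^3
      + (280315/20736)*u^2*a^1*b^3
      + (74753/2304)*u^2*a^1*v^1*b^2
      + (177275/6912)*u^2*a^1*v^2*b^1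
      + (139363/20736)*u^2*a^1*v^3
      + (46777/20736)*u^3*b^3
      + (29441/6912)*u^3*v^1*b^2
      + (2065/768)*u^3*v^2*b^1
      + (11293/20736)*u^3*v^3 := by
    intro u a v b hu ha hv hb; positivity
  have h := key (y - 0) (2/7 - y) (w - 0) (1 - w) (by linarith) (by linarith) (by linarith) (by linarith)
  have h' : (0:ℝ) < 1/32 := by norm_num
  refine lt_of_lt_of_le h' ?_
  rw [← sub_nonneg]
  refine le_of_le_of_eq h ?_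
  ring

theorem b5e_1 (y w : ℝ) (h1 : 2/7 ≤ y) (h2 : y ≤ 4/7) (h3 : 0 ≤ w) (h4 : w ≤ 1) :
    0 < (1-3/4*y)*(1-(y+3/4*y*w))*(1-y)-(25/81-y/2*(1-y/4)-y^2/4-((y+3/4*y*w)-y)^2/3)*(2-(y+3/4*y*w)-y)-y/2*(1-y/4)*(1-(y+3/4*y*w)) := by
  have key : ∀ u a v b : ℝ, 0 ≤ u → 0 ≤ a → 0 ≤ v → 0 ≤ b → 0 ≤ (568697/165888)*a^3*b^3
      + (430009/55296)*a^3*v^1*b^2
      + (38129/6144)*a^3*v^2*b^1
      + (284825/165888)*a^3*v^3
      + (586219/165888)*u^1*a^2*b^3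
      + (67513/18432)*u^1*a^2*v^1*b^2
      + (57323/55296)*u^1*a^2*v^2*b^1
      + (10603/165888)*u^1*a^2*v^3
      + (285419/165888)*u^2*a^1*b^3
      + (21241/18432)*u^2*a^1*v^1*b^2
      + (173803/55296)*u^2*a^1*v^2*b^1
      + (335723/165888)*u^2*a^1*v^3
      + (27091/55296)*u^3*b^3
      + (63097/55296)*u^3*v^1*b^2
      + (169337/55296)*u^3*v^2*b^1
      + (71123/55296)*u^3*v^3 := by
    intro u a v b hu ha hv hb; positivity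
  have h := key (y - 2/7) (4/7 - y) (w - 0) (1 - w) (by linarith) (by linarith) (by linarith) (by linarith)
  have h' : (0:ℝ) < 1/256 := by norm_num
  refine lt_of_lt_of_le h' ?_
  rw [← sub_nonneg]
  refine le_of_le_of_eq h ?_
  ring

end Pool.Agent.Helper5.LCIneq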