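import Pool.Agent.Helper5.RotCode

set_option autoImplicit false

/-!
Two-way multihead DFAs with additional macro moves (jump to the left or right endmarker) are
simulated by ordinary ones.  As an application, the class of languages accepted by two-way
multihead DFAs is closed under inverse images of the odometer map `pad k`.
-/

namespace Pool.Agent.Helper5

/-- Macro moves: `0` left, `1` stay, `2` right, `3` jump to the left endmarker, `4` jump to the
right endmarker. -/
def mmv (n : ℕ) (p : ℕ) (d : Fin 5) : ℕ :=
  if d = 0 then p - 1 else if d = 1 then p else if d = 2 then min (p + 1) (n + 1)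
  else if d = 3 then 0 else n + 1

/-- One step of a macro machine. -/
def macroStep {α : Type} {K : ℕ} {P : Type}
    (η : P → (Fin K → Bool × Option α) → P × (Fin K → Fin 5))
    (w : List α) (c : P × (Fin K → ℕ)) : P × (Fin K → ℕ) :=
  ((η c.1 (fun j => sym w (c.2 j))).1,
   (fun i => mmv w.length (c.2 i) ((η c.1 (fun j => sym w (c.2 j))).2 i)))

/-- first ordinary move of a macro move -/
def firstMv (d : Fin 5) : Fin 3 :=
  if d = 0 then 0 else if d = 1 then 1 else if d = 2 then 2 else if d = 3 then 0 else 2

/-- direction of the remaining sweep -/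
def pendMv (d : Fin 5) : Fin 3 :=
  if d = 3 then 0 else if d = 4 then 2 else 1

/-- all sweeps are finished -/
def swept {α : Type} {K : ℕ} (π : Fin K → Fin 3) (x : Fin K → Bool × Option α) : Prop :=
  ∀ i, (π i = 0 → (x i).1 = true) ∧ (π i = 2 → ((x i).1 = false ∧ (x i).2 = none))

open Classical in
/-- the ordinary machine simulating a macro machine -/
noncomputable def compile {α : Type} {K : ℕ} {P : Type}
    (η : P → (Fin K → Bool × Option α) → P × (Fin K → Fin 5))
    (s : P ⊕ (P × (Fin K → Fin 3))) (x : Fin K → Bool × Option α) :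
    (P ⊕ (P × (Fin K → Fin 3))) × (Fin K → Fin 3) :=
  match s with
  | Sum.inl p => (Sum.inr ((η p x).1, fun i => pendMv ((η p x).2 i)),
      fun i => firstMv ((η p x).2 i))
  | Sum.inr (p, π) => if swept π x then (Sum.inl p, fun _ => 1) else (Sum.inr (p, π), π)

section

variable {α : Type} {K : ℕ} {P : Type}
variable (η : P → (Fin K → Bool × Option α) → P × (Fin K → Fin 5)) (w : List α)

/-- accepting configurations of the compiled machine -/
def accM (G : Set P) (c : (P ⊕ (P × (Fin K → Fin 3))) × (Fin K → ℕ)) : Prop :=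
  ∃ p ∈ G, c.1 = Sum.inl p

variable {G : Set P} {c : Prop}

/-- where a sweep ends -/
def target (n : ℕ) (π : Fin K → Fin 3) (pos : Fin K → ℕ) : Fin K → ℕ :=
  fun i => if π i = 0 then 0 else if π i = 2 then n + 1 else pos i

lemma fin3_cases (x : Fin 3) : x = 0 ∨ x = 1 ∨ x = 2 := by
  fin_cases x <;> simp

lemma fin5_cases (x : Fin 5) : x = 0 ∨ x = 1 ∨ x = 2 ∨ x = 3 ∨ x = 4 := by
  fin_cases x <;> simp

lemma swept_iff (π : Fin K → Fin 3) (pos : Fin K → ℕ) (hpos : ∀ i, pos i ≤ w.length + 1) :
    swept π (fun j => sym w (pos j)) ↔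
      ∀ i, (π i = 0 → pos i = 0) ∧ (π i = 2 → pos i = w.length + 1) := by
  unfold swept
  refine forall_congr' (fun i => ?_)
  have h := hpos i
  simp only [sym, decide_eq_true_eq, decide_eq_false_iff_not, List.getElem?_eq_none_iff]
  constructor
  · rintro ⟨h1, h2⟩
    exact ⟨h1, fun hi => by have := h2 hi; omega⟩
  · rintro ⟨h1, h2⟩
    exact ⟨h1, fun hi => by have := h2 hi; omega⟩

lemma run_sweep (p : P) (π : Fin K → Fin 3) : ∀ (d : ℕ) (pos : Fin K → ℕ),
    (∀ i, pos i ≤ w.length + 1) →
    (∀ i, (π i = 0 → pos i ≤ d) ∧ (π i = 2 → w.length + 1 - pos i ≤ d)) →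
    ∃ m, Seg (dfaStep (compile η) w) (accM G) c m (Sum.inr (p, π), pos)
      (Sum.inl p, target w.length π pos) := by
  intro d
  induction d with
  | zero =>
    intro pos hpos hd
    have hsw : swept π (fun j => sym w (pos j)) := by
      rw [swept_iff w π pos hpos]
      intro i
      obtain ⟨h1, h2⟩ := hd i
      have := hpos i
      exact ⟨fun h => by have := h1 h; omega, fun h => by have := h2 h; omega⟩
    refine ⟨1, Seg.single ?_ ?_⟩
    · simp only [dfaStep, compile, if_pos hsw]
      congr 1
      funext i
      rw [swept_iff w π pos hpos] at hsw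
      obtain ⟨h1, h2⟩ := hsw i
      simp only [mv, target]
      rcases fin3_cases (π i) with h | h | h
      · simp [h, h1 h]
      · simp [h]
      · simp [h, h2 h]
    · rintro ⟨q', -, h⟩
      simp at h
  | succ d ih =>
    intro pos hpos hd
    by_cases hsw : swept π (fun j => sym w (pos j))
    · refine ⟨1, Seg.single ?_ ?_⟩
      · simp only [dfaStep, compile, if_pos hsw]
        congr 1
        funext i
        rw [swept_iff w π pos hpos] at hsw
        obtain ⟨h1, h2⟩ := hsw i
        simp only [mv, target]
        rcases fin3_cases (π i) with h | h | h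
        · simp [h, h1 h]
        · simp [h]
        · simp [h, h2 h]
      · rintro ⟨q', -, h⟩
        simp at h
    · have h1 : Seg (dfaStep (compile η) w) (accM G) c 1 (Sum.inr (p, π), pos)
          (Sum.inr (p, π), fun i => mv w.length (pos i) (π i)) := by
        refine Seg.single ?_ ?_
        · simp only [dfaStep, compile, if_neg hsw]
        · rintro ⟨q', -, h⟩
          simp at h
      obtain ⟨m, hm⟩ := ih (fun i => mv w.length (pos i) (π i))
        (fun i => by
          have := hpos i
          simp only [mv]
          split_ifs <;> omega)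
        (fun i => by
          obtain ⟨h1, h2⟩ := hd i
          have := hpos i
          constructor
          · intro h
            have := h1 h
            simp only [mv, h, if_true]
            omega
          · intro h
            have := h2 h
            simp only [mv, h, show (2 : Fin 3) ≠ 0 by decide, show (2 : Fin 3) ≠ 1 by decide,
              if_false]
            omega)
      refine ⟨1 + m, ?_⟩
      have h2 := h1.trans hm
      have ht : target w.length π (fun i => mv w.length (pos i) (π i)) =
          target w.length π pos := by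
        funext i
        simp only [target, mv]
        rcases fin3_cases (π i) with h | h | h <;> simp [h]
      rw [ht] at h2
      exact h2

/-- simulation relation for macro machines -/
def RelM (a : (P ⊕ (P × (Fin K → Fin 3))) × (Fin K → ℕ)) (b : P × (Fin K → ℕ)) : Prop :=
  (∀ i, b.2 i ≤ w.length + 1) ∧ a = (Sum.inl b.1, b.2)

lemma simM_step (G : Set P) (a : (P ⊕ (P × (Fin K → Fin 3))) × (Fin K → ℕ))
    (b : P × (Fin K → ℕ)) (hab : RelM w a b) :
    ∃ m, 1 ≤ m ∧ RelM w ((dfaStep (compile η) w)^[m] a) (macroStep η w b) ∧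
      ((∃ i < m, accM G ((dfaStep (compile η) w)^[i] a)) ↔ b.1 ∈ G) := by
  obtain ⟨p, pos⟩ := b
  obtain ⟨hpos, rfl⟩ := hab
  simp only at hpos
  set x : Fin K → Bool × Option α := fun j => sym w (pos j) with hx
  set π : Fin K → Fin 3 := fun i => pendMv ((η p x).2 i) with hπ
  set pos₁ : Fin K → ℕ := fun i => mv w.length (pos i) (firstMv ((η p x).2 i)) with hpos₁
  have h1 : Seg (dfaStep (compile η) w) (accM G) (p ∈ G) 1 (Sum.inl p, pos)
      (Sum.inr ((η p x).1, π), pos₁) := by
    refine Seg.single rfl ?_
    rintro ⟨q', hq', h⟩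
    simp only [Sum.inl.injEq] at h
    subst h
    exact hq'
  have hb₁ : ∀ i, pos₁ i ≤ w.length + 1 := by
    intro i
    have := hpos i
    simp only [hpos₁, mv]
    split_ifs <;> omega
  obtain ⟨m, hm⟩ := run_sweep η w (G := G) (c := p ∈ G) (η p x).1 π (w.length + 1) pos₁ hb₁
    (fun i => ⟨fun _ => hb₁ i, fun _ => by omega⟩)
  have h2 := h1.trans hm
  refine ⟨1 + m, by omega, ⟨?_, ?_⟩, ?_⟩
  · intro i
    have := hpos i
    simp only [macroStep, mmv]
    split_ifs <;> omega
  · have ht : target w.length π pos₁ = (macroStep η w (p, pos)).2 := by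
      funext i
      have := hpos i
      simp only [target, macroStep, hπ, hpos₁, ← hx]
      rcases fin5_cases ((η p x).2 i) with h | h | h | h | h <;>
        simp [h, pendMv, firstMv, mmv, mv]
    rw [h2.1, ht]
    rfl
  · constructor
    · rintro ⟨i, hi, hacc⟩
      exact h2.2 i hi hacc
    · intro hs
      exact ⟨0, by omega, p, hs, rfl⟩

theorem macro_iff (p₀ : P) (G : Set P) :
    (∃ m, ((dfaStep (compile η) w)^[m] (Sum.inl p₀, (fun _ => 0))).1 ∈
        {s : P ⊕ (P × (Fin K → Fin 3)) | ∃ p ∈ G, s = Sum.inl p}) ↔
      ∃ m, ((macroStep η w)^[m] (p₀, (fun _ => 0))).1 ∈ G :=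
  sim_iff (dfaStep (compile η) w) (macroStep η w) (RelM w) (accM G)
    (fun c => c.1 ∈ G) (simM_step η w G) ⟨fun _ => Nat.zero_le _, rfl⟩

end

end Pool.Agent.Helper5
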