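import Pool.Agent.Helper5.RotDPDA

set_option autoImplicit false

/-!
Correctness of the simulation of a two-way `k`-head DPDA by a real-time one-way DPDA on the
periodic odometer word.
-/

namespace Pool.Agent.Helper5

open List

section

variable {α : Type} {k : ℕ} {Q Γ : Type}
variable (δ : Q → (Fin k → Bool × Option α) → Option Γ → Q × (Fin k → Fin 3) × List Γ)
variable (w : List α)
variable {F : Set Q} {c : Prop}

lemma head?_map_some_ne (σ : List Γ) : (σ.map some).head? ≠ some (none : Option Γ) := by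
  cases σ <;> simp

lemma run_inl (q : Q) (τ : List (Option Γ)) (hc : q ∈ F → c) :
    ∀ (X t : ℕ), t + X ≤ (w.length + 2) ^ k →
    Seg (rotStep (deltaD δ) (pad k w)) (accD F) c X
      (Sum.inl q, t, replicate X none ++ τ)
      (Sum.inl q, t + X, τ) := by
  intro X
  induction X with
  | zero => intro t _; exact Seg.refl _ _ _ _
  | succ X ih =>
    intro t ht
    have h1 : Seg (rotStep (deltaD δ) (pad k w)) (accD F) c 1
        (Sum.inl q, t, replicate (X + 1) none ++ τ)
        (Sum.inl q, t + 1, replicate X none ++ τ) := by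
      refine Seg.single ?_ ?_
      · have hlt : t < (w.length + 2) ^ k := by omega
        simp only [rotStep, pad_getElem? k w hlt, pad_length, hlt, if_true, deltaD,
          replicate_succ, List.cons_append, List.head?_cons, List.tail_cons,
          List.nil_append]
      · rintro ⟨q', hq', h⟩
        simp only [Sum.inl.injEq] at h
        subst h
        exact hc hq'
    have h2 := ih (t + 1) (by omega)
    have h3 := h1.trans h2
    have e1 : 1 + X = X + 1 := by omega
    have e2 : t + 1 + X = t + (X + 1) := by omega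
    rw [e1, e2] at h3
    exact h3

lemma step_delta (q : Q) (σ : List Γ) (hc : q ∈ F → c) {t : ℕ} (ht : t < (w.length + 2) ^ k)
    (l : Letter k α) (hl : l = fun i : Fin k => sym w (dig (w.length + 2) t i)) :
    Seg (rotStep (deltaD δ) (pad k w)) (accD F) c 1
      (Sum.inl q, t, σ.map some)
      (Sum.inr ((δ q l σ.head?).1, eff l (δ q l σ.head?).2.1, 0, true), t + 1,
        replicate 1 none ++ ((δ q l σ.head?).2.2 ++ σ.tail).map some) := by
  refine Seg.single ?_ ?_
  · have hj : (σ.map (some : Γ → Option Γ)).head?.join = σ.head? := by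
      cases σ <;> simp
    simp only [rotStep, pad_getElem? k w ht, pad_length, ht, if_true, deltaD,
      if_neg (head?_map_some_ne σ), hj, ← hl]
    simp [List.map_append, List.map_tail]
  · rintro ⟨q', hq', h⟩
    simp only [Sum.inl.injEq] at h
    subst h
    exact hc hq'

/-- Phase 1 followed by the first hash. -/
lemma run_phase1 (q : Q) (p : Fin k → ℕ) (hp : ∀ i, p i < w.length + 2) (σ : List Γ)
    (hc : q ∈ F → c) (l : Letter k α) (hl : l = fun i : Fin k => sym w (p i)) :
    Seg (rotStep (deltaD δ) (pad k w)) (accD F) c ((w.length + 2) ^ k + 1)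
      (Sum.inl q, 0, replicate (code (w.length + 2) p) none ++ σ.map some)
      (nextD (δ q l σ.head?).1 (eff l (δ q l σ.head?).2.1) 0, 0,
        replicate ((w.length + 2) ^ k - code (w.length + 2) p) none ++
          ((δ q l σ.head?).2.2 ++ σ.tail).map some) := by
  have hlt := code_lt hp
  set N := (w.length + 2) ^ k with hN
  set X := code (w.length + 2) p with hX
  have h1 := run_inl δ w (F := F) (c := c) q (σ.map some) hc X 0 (by omega)
  have hl' : l = fun i : Fin k => sym w (dig (w.length + 2) (0 + X) i) := by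
    rw [hl, Nat.zero_add]
    funext i
    rw [hX, dig_code hp i]
  have h2 := step_delta δ w (F := F) (c := c) q σ hc (t := 0 + X) (by omega) l hl'
  set q' := (δ q l σ.head?).1 with hq'
  set μ := eff l (δ q l σ.head?).2.1 with hμ
  set τ := ((δ q l σ.head?).2.2 ++ σ.tail).map some with hτ
  have h3 := run_push δ w (F := F) (c := c) q' μ 0 τ (N - X - 1) 1 (0 + X + 1) (by omega)
  have h4 := step_hash δ w (F := F) (c := c) q' μ 0 true (replicate (1 + (N - X - 1)) none ++ τ)
  have e : 0 + X + 1 + (N - X - 1) = (w.length + 2) ^ k := by omega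
  rw [e] at h3
  have h5 := ((h1.trans h2).trans h3).trans h4
  have e1 : X + 1 + (N - X - 1) + 1 = N + 1 := by omega
  have e2 : 1 + (N - X - 1) = N - X := by omega
  rw [e1, e2] at h5
  exact h5

lemma code_update {B : ℕ} (p : Fin k → ℕ) (j : Fin k) (v : ℕ) :
    code B (Function.update p j v) + p j * B ^ (j : ℕ) = code B p + v * B ^ (j : ℕ) := by
  classical
  unfold code
  rw [← Finset.add_sum_erase _ _ (Finset.mem_univ j),
    ← Finset.add_sum_erase Finset.univ (fun i => p i * B ^ (i : ℕ)) (Finset.mem_univ j)]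
  have : ∑ i ∈ Finset.univ.erase j, Function.update p j v i * B ^ (i : ℕ) =
      ∑ i ∈ Finset.univ.erase j, p i * B ^ (i : ℕ) := by
    refine Finset.sum_congr rfl (fun i hi => ?_)
    rw [Function.update_of_ne (Finset.ne_of_mem_erase hi)]
  rw [this, Function.update_self]
  ring

/-- Positions when the moves of the first `j` heads have been performed. -/
def mid (p p' : Fin k → ℕ) (j : ℕ) : Fin k → ℕ := fun i => if (i : ℕ) < j then p' i else p i

lemma mid_zero (p p' : Fin k → ℕ) : mid p p' 0 = p := by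
  funext i; simp [mid]

lemma mid_last (p p' : Fin k → ℕ) : mid p p' k = p' := by
  funext i; simp [mid]

lemma mid_succ (p p' : Fin k → ℕ) (j : ℕ) (hj : j < k) :
    mid p p' (j + 1) = Function.update (mid p p' j) ⟨j, hj⟩ (p' ⟨j, hj⟩) := by
  funext i
  by_cases hi : i = ⟨j, hj⟩
  · subst hi
    simp [mid]
  · rw [Function.update_of_ne hi]
    have hne : (i : ℕ) ≠ j := fun h => hi (Fin.ext h)
    have : ((i : ℕ) < j + 1) ↔ ((i : ℕ) < j) := by omega
    simp [mid, this]

lemma mid_lt {B : ℕ} {p p' : Fin k → ℕ} (hp : ∀ i, p i < B) (hp' : ∀ i, p' i < B) (j : ℕ) :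
    ∀ i, mid p p' j i < B := by
  intro i
  unfold mid
  split_ifs
  · exact hp' i
  · exact hp i

lemma kind_odd (μ : Fin k → Fin 3) (j : ℕ) (hj : j < k) :
    kind μ (2 * j + 1) = if μ ⟨j, hj⟩ = 0 then some ⟨j, hj⟩ else none := by
  have h1 : (2 * j + 1) % 2 = 1 := by omega
  have h2 : (2 * j + 1) / 2 = j := by omega
  unfold kind
  simp [h1, h2, hj]

lemma kind_even (μ : Fin k → Fin 3) (j : ℕ) (hj : j < k) :
    kind μ (2 * j + 2) = if μ ⟨j, hj⟩ = 2 then some ⟨j, hj⟩ else none := by
  have h1 : (2 * j + 2) % 2 = 0 := by omega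
  unfold kind
  simp [h1, hj]

lemma kind_last (μ : Fin k → Fin 3) : kind μ (2 * k + 1) = none := by
  have h1 : (2 * k + 1) % 2 = 1 := by omega
  have h2 : (2 * k + 1) / 2 = k := by omega
  unfold kind
  simp [h1, h2]

/-- The effect of the effective moves. -/
lemma eff_spec {p : ℕ} (hp : p < w.length + 2) (l : Letter k α) (μ : Fin k → Fin 3) (j : Fin k)
    (hl : l j = sym w p) :
    (eff l μ j = 0 ∧ mv w.length p (μ j) + 1 = p) ∨
    (eff l μ j = 1 ∧ mv w.length p (μ j) = p) ∨
    (eff l μ j = 2 ∧ mv w.length p (μ j) = p + 1 ∧ p + 1 < w.length + 2) := by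
  classical
  have hμ : μ j = 0 ∨ μ j = 1 ∨ μ j = 2 := by
    generalize μ j = x
    fin_cases x <;> simp
  unfold eff mv
  rw [hl]
  rcases hμ with h | h | h
  · rw [h]
    by_cases hp0 : p = 0
    · right; left
      simp [sym, hp0]
    · left
      simp only [sym, hp0, decide_false]
      constructor
      · simp
      · simp; omega
  · rw [h]
    right; left
    simp
  · rw [h]
    by_cases hpe : p = w.length + 1
    · right; left
      subst hpe
      simp [sym]
    · right; right
      have hlt : p < w.length + 1 := by omega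
      have hne : ¬ ((sym w p).1 = false ∧ (sym w p).2 = none) := by
        rintro ⟨h1, h2⟩
        simp only [sym, decide_eq_false_iff_not] at h1
        simp only [sym, List.getElem?_eq_none_iff] at h2
        omega
      simp only [hne, if_false]
      refine ⟨by simp, ?_, by omega⟩
      simp only [show (2 : Fin 3) ≠ 0 by decide, show (2 : Fin 3) ≠ 1 by decide, if_false]
      omega

lemma nextD_succ (q : Q) (μ : Fin k → Fin 3) (r : ℕ) (h : r + 1 < 2 * k + 2) :
    nextD q μ ⟨r, by omega⟩ = Sum.inr (q, μ, ⟨r + 1, h⟩, false) := by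
  simp [nextD, h]

lemma nextD_last (q : Q) (μ : Fin k → Fin 3) :
    nextD q μ ⟨2 * k + 1, by omega⟩ = Sum.inl q := by
  simp [nextD]

/-- The two passes of head `j`. -/
lemma run_head (q : Q) (p p' : Fin k → ℕ) (hp : ∀ i, p i < w.length + 2)
    (hp' : ∀ i, p' i < w.length + 2) (μ : Fin k → Fin 3)
    (hμ : ∀ j, (μ j = 0 ∧ p' j + 1 = p j) ∨ (μ j = 1 ∧ p' j = p j) ∨
      (μ j = 2 ∧ p' j = p j + 1))
    (τ : List (Option Γ)) (hτ : τ.head? ≠ some none) (j : ℕ) (hj : j < k) :
    Seg (rotStep (deltaD δ) (pad k w)) (accD F) c (2 * ((w.length + 2) ^ k + 1))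
      (Sum.inr (q, μ, ⟨2 * j + 1, by omega⟩, false), 0,
        replicate ((w.length + 2) ^ k - code (w.length + 2) (mid p p' j)) none ++ τ)
      (Sum.inr (q, μ, ⟨2 * (j + 1) + 1, by omega⟩, false), 0,
        replicate ((w.length + 2) ^ k - code (w.length + 2) (mid p p' (j + 1))) none ++ τ) := by
  have hlt := code_lt (mid_lt hp hp' j)
  have hlt' := code_lt (mid_lt hp hp' (j + 1))
  have hup := code_update (B := w.length + 2) (mid p p' j) ⟨j, hj⟩ (p' ⟨j, hj⟩)
  rw [← mid_succ] at hup
  have hmj : mid p p' j ⟨j, hj⟩ = p ⟨j, hj⟩ := by simp [mid]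
  rw [hmj] at hup
  set B := w.length + 2 with hB
  set N := B ^ k with hN
  set C := code B (mid p p' j) with hC
  set C' := code B (mid p p' (j + 1)) with hC'
  simp only at hup
  have k1 := kind_odd μ j hj
  have k2 := kind_even μ j hj
  have key : ∀ s₁ s₂ : ℕ, skipAmt B (kind μ (2 * j + 1)) = s₁ →
      skipAmt B (kind μ (2 * j + 2)) = s₂ → s₁ + (N - C) ≤ N → s₂ + (N - (s₁ + (N - C))) ≤ N →
      N - (s₂ + (N - (s₁ + (N - C)))) = N - C' →
      Seg (rotStep (deltaD δ) (pad k w)) (accD F) c (2 * (N + 1))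
        (Sum.inr (q, μ, ⟨2 * j + 1, by omega⟩, false), 0, replicate (N - C) none ++ τ)
        (Sum.inr (q, μ, ⟨2 * (j + 1) + 1, by omega⟩, false), 0,
          replicate (N - C') none ++ τ) := by
    intro s₁ s₂ hs₁ hs₂ h1 h2 h3
    have r1 := run_pass δ w (F := F) (c := c) q μ ⟨2 * j + 1, by omega⟩ τ hτ (X := N - C)
      (by show skipAmt B (kind μ (2 * j + 1)) + (N - C) ≤ N; rw [hs₁]; exact h1)
    have r2 := run_pass δ w (F := F) (c := c) q μ ⟨2 * j + 1 + 1, by omega⟩ τ hτ
      (X := N - (s₁ + (N - C)))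
      (by show skipAmt B (kind μ (2 * j + 2)) + (N - (s₁ + (N - C))) ≤ N; rw [hs₂]; exact h2)
    rw [nextD_succ q μ (2 * j + 1) (by omega)] at r1
    simp only [← hB, ← hN] at r1 r2
    rw [hs₁] at r1
    have r3 := r1.trans r2
    rw [nextD_succ q μ (2 * j + 1 + 1) (by omega)] at r3
    rw [show N + 1 + (N + 1) = 2 * (N + 1) by ring] at r3
    simp only [show 2 * j + 1 + 1 = 2 * j + 2 by ring] at r3
    rw [hs₂, h3] at r3
    exact r3
  rcases hμ ⟨j, hj⟩ with ⟨h, h'⟩ | ⟨h, h'⟩ | ⟨h, h'⟩
  · -- left move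
    rw [h] at k1 k2
    have e : C' + B ^ j = C := by
      have : p ⟨j, hj⟩ = p' ⟨j, hj⟩ + 1 := h'.symm
      rw [this, add_mul, one_mul] at hup
      omega
    refine key (B ^ j) 0 ?_ ?_ (by omega) (by omega) (by omega)
    · rw [k1]; rfl
    · rw [k2]; rfl
  · rw [h] at k1 k2
    have e : C' = C := by
      rw [h'] at hup
      omega
    refine key 0 0 ?_ ?_ (by omega) (by omega) (by omega)
    · rw [k1]; rfl
    · rw [k2]; rfl
  · rw [h] at k1 k2
    have e : C' = C + B ^ j := by
      rw [h', add_mul, one_mul] at hup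
      omega
    refine key 0 (B ^ j) ?_ ?_ (by omega) (by omega) (by omega)
    · rw [k1]; rfl
    · rw [k2]; rfl

/-- All head passes. -/
lemma run_heads (q : Q) (p p' : Fin k → ℕ) (hp : ∀ i, p i < w.length + 2)
    (hp' : ∀ i, p' i < w.length + 2) (μ : Fin k → Fin 3)
    (hμ : ∀ j, (μ j = 0 ∧ p' j + 1 = p j) ∨ (μ j = 1 ∧ p' j = p j) ∨
      (μ j = 2 ∧ p' j = p j + 1))
    (τ : List (Option Γ)) (hτ : τ.head? ≠ some none) :
    ∀ (j : ℕ) (hj : j ≤ k),
    Seg (rotStep (deltaD δ) (pad k w)) (accD F) c (j * (2 * ((w.length + 2) ^ k + 1)))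
      (Sum.inr (q, μ, ⟨1, by omega⟩, false), 0,
        replicate ((w.length + 2) ^ k - code (w.length + 2) p) none ++ τ)
      (Sum.inr (q, μ, ⟨2 * j + 1, by omega⟩, false), 0,
        replicate ((w.length + 2) ^ k - code (w.length + 2) (mid p p' j)) none ++ τ) := by
  intro j
  induction j with
  | zero =>
    intro _
    rw [mid_zero, Nat.zero_mul]
    exact Seg.refl _ _ _ _
  | succ j ih =>
    intro hj
    have h1 := ih (by omega)
    have h2 := run_head δ w (F := F) (c := c) q p p' hp hp' μ hμ τ hτ j (by omega)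
    have h3 := h1.trans h2
    rw [show j * (2 * ((w.length + 2) ^ k + 1)) + 2 * ((w.length + 2) ^ k + 1) =
      (j + 1) * (2 * ((w.length + 2) ^ k + 1)) by ring] at h3
    exact h3

/-- The simulation relation. -/
def RelD (a : DState k Q × ℕ × List (Option Γ)) (b : Q × (Fin k → ℕ) × List Γ) : Prop :=
  (∀ i, b.2.1 i < w.length + 2) ∧
  a = (Sum.inl b.1, 0, replicate (code (w.length + 2) b.2.1) none ++ b.2.2.map some)

lemma mv_lt {n p : ℕ} (hp : p < n + 2) (d : Fin 3) : mv n p d < n + 2 := by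
  unfold mv
  split_ifs <;> omega

/-- **Main simulation**: one step of `M` is simulated by `2k+2` passes of `D`. -/
theorem sim_step (F : Set Q) (a : DState k Q × ℕ × List (Option Γ)) (b : Q × (Fin k → ℕ) × List Γ)
    (hab : RelD w a b) :
    ∃ m, 1 ≤ m ∧ RelD w ((rotStep (deltaD δ) (pad k w))^[m] a) (dpdaStep δ w b) ∧
      ((∃ i < m, accD F ((rotStep (deltaD δ) (pad k w))^[i] a)) ↔ b.1 ∈ F) := by
  obtain ⟨q, p, σ⟩ := b
  obtain ⟨hp, rfl⟩ := hab
  simp only at hp
  set l : Letter k α := fun i : Fin k => sym w (p i) with hl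
  set q' := (δ q l σ.head?).1 with hq'
  set μ₀ := (δ q l σ.head?).2.1 with hμ₀
  set μ := eff l μ₀ with hμ
  set σ' := (δ q l σ.head?).2.2 ++ σ.tail with hσ'
  set p' : Fin k → ℕ := fun i => mv w.length (p i) (μ₀ i) with hp'
  have hstep : dpdaStep δ w (q, p, σ) = (q', p', σ') := rfl
  have hp'lt : ∀ i, p' i < w.length + 2 := fun i => mv_lt (hp i) _
  have hspec : ∀ j, (μ j = 0 ∧ p' j + 1 = p j) ∨ (μ j = 1 ∧ p' j = p j) ∨
      (μ j = 2 ∧ p' j = p j + 1) := by
    intro j
    rcases eff_spec w (hp j) l μ₀ j rfl with h | h | h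
    · exact Or.inl h
    · exact Or.inr (Or.inl h)
    · exact Or.inr (Or.inr ⟨h.1, h.2.1⟩)
  have h1 := run_phase1 δ w (F := F) (c := q ∈ F) q p hp σ id l hl
  rw [show nextD (δ q l σ.head?).1 (eff l (δ q l σ.head?).2.1) 0 =
      Sum.inr (q', μ, ⟨1, by omega⟩, false) from nextD_succ q' μ 0 (by omega)] at h1
  have h2 := run_heads δ w (F := F) (c := q ∈ F) q' p p' hp hp'lt μ hspec (σ'.map some)
    (head?_map_some_ne σ') k le_rfl
  have h12 := h1.trans h2
  rw [mid_last] at h12
  have hkl : skipAmt (w.length + 2) (kind μ (2 * k + 1)) = 0 := by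
    rw [kind_last]; rfl
  have hcl := code_lt hp'lt
  have h3 := run_pass δ w (F := F) (c := q ∈ F) q' μ ⟨2 * k + 1, by omega⟩ (σ'.map some)
    (head?_map_some_ne σ') (X := (w.length + 2) ^ k - code (w.length + 2) p')
    (by simp only [hkl]; omega)
  have h123 := h12.trans h3
  rw [nextD_last] at h123
  simp only [hkl] at h123
  rw [show (w.length + 2) ^ k - (0 + ((w.length + 2) ^ k - code (w.length + 2) p')) =
    code (w.length + 2) p' by omega] at h123
  refine ⟨(w.length + 2) ^ k + 1 + k * (2 * ((w.length + 2) ^ k + 1)) + ((w.length + 2) ^ k + 1),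
    le_add_left (Nat.le_add_left 1 _), ?_, ?_⟩
  · refine ⟨hp'lt, ?_⟩
    rw [hstep]
    exact h123.1
  · constructor
    · rintro ⟨i, hi, hacc⟩
      exact h123.2 i hi hacc
    · intro hq
      exact ⟨0, lt_of_lt_of_le Nat.zero_lt_one (le_add_left (Nat.le_add_left 1 _)), q, hq, rfl⟩

/-- `D` on the periodic odometer word accepts iff `M` accepts. -/
theorem rot_iff (q₀ : Q) (F : Set Q) :
    (∃ m, ((rotStep (deltaD δ) (pad k w))^[m] (Sum.inl q₀, 0, [])).1 ∈ {s | ∃ q ∈ F, s = Sum.inl q})
      ↔ ∃ m, ((dpdaStep δ w)^[m] (q₀, (fun _ => 0), [])).1 ∈ F := by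
  refine sim_iff (rotStep (deltaD δ) (pad k w)) (dpdaStep δ w) (RelD w) (accD F)
    (fun c => c.1 ∈ F) (sim_step δ w F) ?_
  refine ⟨fun i => by simp, ?_⟩
  simp [code]

end

end Pool.Agent.Helper5
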