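import Pool.Agent.Helper5.PadInv
import Pool.Agent.Helper5.RotMain

set_option autoImplicit false

/-!
Two-way multihead DPDAs with macro moves, and the data-independent `k`-head DPDA which moves its
heads like an odometer.
-/

namespace Pool.Agent.Helper5

/-- One step of a macro DPDA. -/
def macroPStep {α : Type} {K : ℕ} {P Γ : Type}
    (η : P → (Fin K → Bool × Option α) → Option Γ → P × (Fin K → Fin 5) × List Γ)
    (w : List α) (c : P × (Fin K → ℕ) × List Γ) : P × (Fin K → ℕ) × List Γ :=
  ((η c.1 (fun j => sym w (c.2.1 j)) c.2.2.head?).1,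
   (fun i => mmv w.length (c.2.1 i) ((η c.1 (fun j => sym w (c.2.1 j)) c.2.2.head?).2.1 i)),
   (η c.1 (fun j => sym w (c.2.1 j)) c.2.2.head?).2.2 ++ c.2.2.tail)

open Classical in
/-- the ordinary DPDA simulating a macro DPDA -/
noncomputable def compileP {α : Type} {K : ℕ} {P Γ : Type}
    (η : P → (Fin K → Bool × Option α) → Option Γ → P × (Fin K → Fin 5) × List Γ)
    (s : P ⊕ (P × (Fin K → Fin 3))) (x : Fin K → Bool × Option α) (top : Option Γ) :
    (P ⊕ (P × (Fin K → Fin 3))) × (Fin K → Fin 3) × List Γ :=
  match s with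
  | Sum.inl p => (Sum.inr ((η p x top).1, fun i => pendMv ((η p x top).2.1 i)),
      (fun i => firstMv ((η p x top).2.1 i)), (η p x top).2.2)
  | Sum.inr (p, π) => if swept π x then (Sum.inl p, (fun _ => 1), top.toList)
      else (Sum.inr (p, π), π, top.toList)

section

variable {α : Type} {K : ℕ} {P Γ : Type}
variable (η : P → (Fin K → Bool × Option α) → Option Γ → P × (Fin K → Fin 5) × List Γ)
variable (w : List α)

/-- accepting configurations of the compiled machine -/
def accP (G : Set P) (c : (P ⊕ (P × (Fin K → Fin 3))) × (Fin K → ℕ) × List Γ) : Prop :=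
  ∃ p ∈ G, c.1 = Sum.inl p

variable {G : Set P} {c : Prop}

lemma runP_sweep (p : P) (π : Fin K → Fin 3) (τ : List Γ) : ∀ (d : ℕ) (pos : Fin K → ℕ),
    (∀ i, pos i ≤ w.length + 1) →
    (∀ i, (π i = 0 → pos i ≤ d) ∧ (π i = 2 → w.length + 1 - pos i ≤ d)) →
    ∃ m, Seg (dpdaStep (compileP η) w) (accP G) c m (Sum.inr (p, π), pos, τ)
      (Sum.inl p, target w.length π pos, τ) := by
  intro d
  induction d with
  | zero =>
    intro pos hpos hd
    have hsw : swept π (fun j => sym w (pos j)) := by
      rw [swept_iff w π pos hpos]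
      intro i
      obtain ⟨h1, h2⟩ := hd i
      have := hpos i
      exact ⟨fun h => by have := h1 h; omega, fun h => by have := h2 h; omega⟩
    refine ⟨1, Seg.single ?_ ?_⟩
    · simp only [dpdaStep, compileP, if_pos hsw, toList_head?_append_tail]
      congr 2
      funext i
      rw [swept_iff w π pos hpos] at hsw
      obtain ⟨h1, h2⟩ := hsw i
      simp only [mv, target]
      rcases fin3_cases (π i) with h | h | h
      · simp [h, h1 h]
      · simp [h]
      · simp [h, h2 h]
    · rintro ⟨q', -, h⟩
      simp at h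
  | succ d ih =>
    intro pos hpos hd
    by_cases hsw : swept π (fun j => sym w (pos j))
    · refine ⟨1, Seg.single ?_ ?_⟩
      · simp only [dpdaStep, compileP, if_pos hsw, toList_head?_append_tail]
        congr 2
        funext i
        rw [swept_iff w π pos hpos] at hsw
        obtain ⟨h1, h2⟩ := hsw i
        simp only [mv, target]
        rcases fin3_cases (π i) with h | h | h
        · simp [h, h1 h]
        · simp [h]
        · simp [h, h2 h]
      · rintro ⟨q', -, h⟩
        simp at h
    · have h1 : Seg (dpdaStep (compileP η) w) (accP G) c 1 (Sum.inr (p, π), pos, τ)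
          (Sum.inr (p, π), (fun i => mv w.length (pos i) (π i)), τ) := by
        refine Seg.single ?_ ?_
        · simp only [dpdaStep, compileP, if_neg hsw, toList_head?_append_tail]
        · rintro ⟨q', -, h⟩
          simp at h
      obtain ⟨m, hm⟩ := ih (fun i => mv w.length (pos i) (π i))
        (fun i => by
          have := hpos i
          simp only [mv]
          split_ifs <;> omega)
        (fun i => by
          obtain ⟨h1, h2⟩ := hd i
          have := hpos i
          constructor
          · intro h
            have := h1 h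
            simp only [mv, h, if_true]
            omega
          · intro h
            have := h2 h
            simp only [mv, h, show (2 : Fin 3) ≠ 0 by decide, show (2 : Fin 3) ≠ 1 by decide,
              if_false]
            omega)
      refine ⟨1 + m, ?_⟩
      have h2 := h1.trans hm
      have ht : target w.length π (fun i => mv w.length (pos i) (π i)) =
          target w.length π pos := by
        funext i
        simp only [target, mv]
        rcases fin3_cases (π i) with h | h | h <;> simp [h]
      rw [ht] at h2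
      exact h2

/-- simulation relation for macro machines -/
def RelPM (a : (P ⊕ (P × (Fin K → Fin 3))) × (Fin K → ℕ) × List Γ) (b : P × (Fin K → ℕ) × List Γ) :
    Prop :=
  (∀ i, b.2.1 i ≤ w.length + 1) ∧ a = (Sum.inl b.1, b.2.1, b.2.2)

lemma simPM_step (G : Set P) (a : (P ⊕ (P × (Fin K → Fin 3))) × (Fin K → ℕ) × List Γ)
    (b : P × (Fin K → ℕ) × List Γ) (hab : RelPM w a b) :
    ∃ m, 1 ≤ m ∧ RelPM w ((dpdaStep (compileP η) w)^[m] a) (macroPStep η w b) ∧
      ((∃ i < m, accP G ((dpdaStep (compileP η) w)^[i] a)) ↔ b.1 ∈ G) := by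
  obtain ⟨p, pos, τ⟩ := b
  obtain ⟨hpos, rfl⟩ := hab
  simp only at hpos
  set x : Fin K → Bool × Option α := fun j => sym w (pos j) with hx
  set π : Fin K → Fin 3 := fun i => pendMv ((η p x τ.head?).2.1 i) with hπ
  set pos₁ : Fin K → ℕ := fun i => mv w.length (pos i) (firstMv ((η p x τ.head?).2.1 i))
    with hpos₁
  have h1 : Seg (dpdaStep (compileP η) w) (accP G) (p ∈ G) 1 (Sum.inl p, pos, τ)
      (Sum.inr ((η p x τ.head?).1, π), pos₁, (η p x τ.head?).2.2 ++ τ.tail) := by
    refine Seg.single rfl ?_
    rintro ⟨q', hq', h⟩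
    simp only [Sum.inl.injEq] at h
    subst h
    exact hq'
  have hb₁ : ∀ i, pos₁ i ≤ w.length + 1 := by
    intro i
    have := hpos i
    simp only [hpos₁, mv]
    split_ifs <;> omega
  obtain ⟨m, hm⟩ := runP_sweep η w (G := G) (c := p ∈ G) (η p x τ.head?).1 π
    ((η p x τ.head?).2.2 ++ τ.tail) (w.length + 1) pos₁ hb₁
    (fun i => ⟨fun _ => hb₁ i, fun _ => by omega⟩)
  have h2 := h1.trans hm
  refine ⟨1 + m, by omega, ⟨?_, ?_⟩, ?_⟩
  · intro i
    have := hpos i
    simp only [macroPStep, mmv]
    split_ifs <;> omega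
  · have ht : target w.length π pos₁ = (macroPStep η w (p, pos, τ)).2.1 := by
      funext i
      have := hpos i
      simp only [target, macroPStep, hπ, hpos₁, ← hx]
      rcases fin5_cases ((η p x τ.head?).2.1 i) with h | h | h | h | h <;>
        simp [h, pendMv, firstMv, mmv, mv]
    rw [h2.1, ht]
    rfl
  · constructor
    · rintro ⟨i, hi, hacc⟩
      exact h2.2 i hi hacc
    · intro hs
      exact ⟨0, by omega, p, hs, rfl⟩

theorem macroP_iff (p₀ : P) (G : Set P) :
    (∃ m, ((dpdaStep (compileP η) w)^[m] (Sum.inl p₀, (fun _ => 0), [])).1 ∈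
        {s : P ⊕ (P × (Fin K → Fin 3)) | ∃ p ∈ G, s = Sum.inl p}) ↔
      ∃ m, ((macroPStep η w)^[m] (p₀, (fun _ => 0), [])).1 ∈ G :=
  sim_iff (dpdaStep (compileP η) w) (macroPStep η w) (RelPM w) (accP G)
    (fun c => c.1 ∈ G) (simPM_step η w G) ⟨fun _ => Nat.zero_le _, rfl⟩

end

section odometer

variable {α : Type} {k : ℕ} {S Γ : Type}

open Classical in
/-- odometer moves -/
noncomputable def odoMv (x : Fin k → Bool × Option α) (j : Fin k) : Fin 5 :=
  if (∀ i, i < j → isEnd (x i)) then (if isEnd (x j) then 3 else 2) else 1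

open Classical in
/-- The macro DPDA which moves its `k` heads like an odometer and feeds the tuples of symbols to
the one-way machine `δ`; after a full period it feeds the separator. -/
noncomputable def odo (δ : S → Option (Letter k α) → Option Γ → S × List Γ)
    (s : S × Bool) (x : Fin k → Bool × Option α) (top : Option Γ) :
    (S × Bool) × (Fin k → Fin 5) × List Γ :=
  if s.2 = true then (((δ s.1 none top).1, false), (fun _ => 3), (δ s.1 none top).2)
  else if ∀ j, isEnd (x j) then
    (((δ s.1 (some x) top).1, true), (fun _ => 1), (δ s.1 (some x) top).2)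
  else (((δ s.1 (some x) top).1, false), odoMv x, (δ s.1 (some x) top).2)

variable (δ : S → Option (Letter k α) → Option Γ → S × List Γ) (w : List α)

/-- relation between the odometer machine and the one-way machine -/
def RelO (a : (S × Bool) × (Fin k → ℕ) × List Γ) (b : S × ℕ × List Γ) : Prop :=
  a.1.1 = b.1 ∧ a.2.2 = b.2.2 ∧ (∀ j, a.2.1 j < w.length + 2) ∧
  ((a.1.2 = false ∧ b.2.1 = code (w.length + 2) a.2.1) ∨
   (a.1.2 = true ∧ b.2.1 = (w.length + 2) ^ k))

lemma simO_step (a : (S × Bool) × (Fin k → ℕ) × List Γ) (b : S × ℕ × List Γ)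
    (hab : RelO w a b) : RelO w (macroPStep (odo δ) w a) (rotStep δ (pad k w) b) := by
  obtain ⟨⟨s, fl⟩, p, τ⟩ := a
  obtain ⟨s', t, τ'⟩ := b
  obtain ⟨h1, h2, hp, h⟩ := hab
  simp only at h1 h2 hp h
  subst h1
  subst h2
  rcases h with ⟨rfl, rfl⟩ | ⟨rfl, rfl⟩
  · have hlt := code_lt hp
    have hE : ∀ j, isEnd (sym w (p j)) ↔ p j = w.length + 2 - 1 := fun j => isEnd_iff w (hp j)
    have hinc := incD_code (B := w.length + 2) (by omega) p hp
    have hl : (fun i : Fin k => sym w (dig (w.length + 2) (code (w.length + 2) p) i)) =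
        fun j => sym w (p j) := by
      funext i
      rw [dig_code hp i]
    have hr : rotStep δ (pad k w) (s, code (w.length + 2) p, τ) =
        ((δ s (some (fun j => sym w (p j))) τ.head?).1, code (w.length + 2) p + 1,
          (δ s (some (fun j => sym w (p j))) τ.head?).2 ++ τ.tail) := by
      simp only [rotStep, pad_getElem? k w hlt, pad_length, hlt, if_true, hl]
    rw [hr]
    by_cases hall : ∀ j, p j = w.length + 2 - 1
    · have hall' : ∀ j, isEnd (sym w (p j)) := fun j => (hE j).2 (hall j)
      have hm : macroPStep (odo δ) w ((s, false), p, τ) =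
          (((δ s (some (fun j => sym w (p j))) τ.head?).1, true), p,
          (δ s (some (fun j => sym w (p j))) τ.head?).2 ++ τ.tail) := by
        simp only [macroPStep, odo, Bool.false_eq_true, if_false, if_pos hall']
        congr 2
      rw [hm]
      refine ⟨rfl, rfl, hp, Or.inr ⟨rfl, ?_⟩⟩
      exact code_all_last (by omega) p hall
    · have hall' : ¬ ∀ j, isEnd (sym w (p j)) := fun h => hall (fun j => (hE j).1 (h j))
      have hm : macroPStep (odo δ) w ((s, false), p, τ) =
          (((δ s (some (fun j => sym w (p j))) τ.head?).1, false), incD (w.length + 2) p,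
          (δ s (some (fun j => sym w (p j))) τ.head?).2 ++ τ.tail) := by
        simp only [macroPStep, odo, Bool.false_eq_true, if_false, if_neg hall']
        congr 2
        funext j
        have hj := hp j
        simp only [odoMv, hE, incD]
        by_cases h1 : ∀ i, i < j → p i = w.length + 2 - 1
        · rw [if_pos h1, if_pos h1]
          by_cases h2 : p j = w.length + 2 - 1
          · rw [if_pos h2, if_pos h2]; simp [mmv]
          · rw [if_neg h2, if_neg h2]
            simp only [mmv, show (2 : Fin 5) ≠ 0 by decide, show (2 : Fin 5) ≠ 1 by decide,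
              if_false, if_true]
            omega
        · rw [if_neg h1, if_neg h1]; simp [mmv]
      rw [hm]
      refine ⟨rfl, rfl, incD_lt p hp, Or.inl ⟨rfl, ?_⟩⟩
      exact (hinc.2 hall).symm
  · have hr : rotStep δ (pad k w) (s, (w.length + 2) ^ k, τ) =
        ((δ s none τ.head?).1, 0, (δ s none τ.head?).2 ++ τ.tail) := by
      simp only [rotStep, pad_getElem?_len, pad_length, lt_irrefl, if_false]
    have hm : macroPStep (odo δ) w ((s, true), p, τ) =
        (((δ s none τ.head?).1, false), (fun _ => 0),
        (δ s none τ.head?).2 ++ τ.tail) := by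
      simp only [macroPStep, odo, if_true]
      congr 2
    rw [hr, hm]
    refine ⟨rfl, rfl, fun j => by simp, Or.inl ⟨rfl, ?_⟩⟩
    simp [code]

theorem odo_iff (s₀ : S) (G : Set S) :
    (∃ m, ((macroPStep (odo δ) w)^[m] ((s₀, false), (fun _ => 0), [])).1 ∈
        {s : S × Bool | s.1 ∈ G}) ↔
      ∃ m, ((rotStep δ (pad k w))^[m] (s₀, 0, [])).1 ∈ G := by
  refine sim_iff (macroPStep (odo δ) w) (rotStep δ (pad k w)) (RelO w)
    (fun c => c.1.1 ∈ G) (fun c => c.1 ∈ G) ?_ ?_
  · intro a b hab
    refine ⟨1, le_rfl, simO_step δ w a b hab, ?_⟩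
    constructor
    · rintro ⟨i, hi, h⟩
      obtain rfl : i = 0 := by omega
      rw [← hab.1]
      exact h
    · intro h
      refine ⟨0, Nat.zero_lt_one, ?_⟩
      rw [← hab.1] at h
      exact h
  · refine ⟨rfl, rfl, fun j => by simp, Or.inl ⟨rfl, by simp [code]⟩⟩

/-- relation between the configurations of the compiled odometer machine on two inputs of the same
length -/
def RelI (a a' : ((S × Bool) ⊕ ((S × Bool) × (Fin k → Fin 3))) × (Fin k → ℕ) × List Γ) : Prop :=
  a.2.1 = a'.2.1 ∧ (∀ j, a.2.1 j < w.length + 2) ∧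
  ((∃ s s' b, a.1 = Sum.inl (s, b) ∧ a'.1 = Sum.inl (s', b)) ∨
   (∃ s s' b π, a.1 = Sum.inr ((s, b), π) ∧ a'.1 = Sum.inr ((s', b), π)))

lemma RelI_step {w' : List α} (hw : w'.length = w.length)
    (a a' : ((S × Bool) ⊕ ((S × Bool) × (Fin k → Fin 3))) × (Fin k → ℕ) × List Γ)
    (h : RelI w a a') :
    RelI w (dpdaStep (compileP (odo δ)) w a) (dpdaStep (compileP (odo δ)) w' a') := by
  obtain ⟨st, p, τ⟩ := a
  obtain ⟨st', p', τ'⟩ := a'
  obtain ⟨h1, hp, h⟩ := h
  simp only at h1 hp h
  subst h1
  have hE : ∀ j, isEnd (sym w (p j)) ↔ p j = w.length + 2 - 1 := fun j => isEnd_iff w (hp j)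
  have hE' : ∀ j, isEnd (sym w' (p j)) ↔ p j = w.length + 2 - 1 := by
    intro j
    have := isEnd_iff w' (p := p j) (by rw [hw]; exact hp j)
    rw [hw] at this
    exact this
  have hodo : odoMv (fun j => sym w (p j)) = odoMv (fun j => sym w' (p j)) := by
    funext j
    simp only [odoMv, hE, hE']
  rcases h with ⟨s, s', b, rfl, rfl⟩ | ⟨s, s', b, π, rfl, rfl⟩
  · -- an `inl` step
    have key : ∀ (μ : Fin k → Fin 5) (b' : Bool) (r r' : S) (γ γ' : List Γ),
        odo δ (s, b) (fun j => sym w (p j)) τ.head? = ((r, b'), μ, γ) →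
        odo δ (s', b) (fun j => sym w' (p j)) τ'.head? = ((r', b'), μ, γ') →
        RelI w (dpdaStep (compileP (odo δ)) w (Sum.inl (s, b), p, τ))
          (dpdaStep (compileP (odo δ)) w' (Sum.inl (s', b), p, τ')) := by
      intro μ b' r r' γ γ' e e'
      refine ⟨?_, ?_, Or.inr ⟨r, r', b', fun i => pendMv (μ i), ?_, ?_⟩⟩
      · simp only [dpdaStep, compileP, e, e', hw]
      · intro j
        simp only [dpdaStep, compileP, e]
        exact mv_lt (hp j) _
      · simp only [dpdaStep, compileP, e]
      · simp only [dpdaStep, compileP, e']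
    cases b with
    | true =>
      exact key (fun _ => 3) false (δ s none τ.head?).1 (δ s' none τ'.head?).1
        (δ s none τ.head?).2 (δ s' none τ'.head?).2 (by simp only [odo, if_true])
        (by simp only [odo, if_true])
    | false =>
      by_cases hall : ∀ j, p j = w.length + 2 - 1
      · have h1 : ∀ j, isEnd (sym w (p j)) := fun j => (hE j).2 (hall j)
        have h2 : ∀ j, isEnd (sym w' (p j)) := fun j => (hE' j).2 (hall j)
        refine key (fun _ => 1) true (δ s (some fun j => sym w (p j)) τ.head?).1
          (δ s' (some fun j => sym w' (p j)) τ'.head?).1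
          (δ s (some fun j => sym w (p j)) τ.head?).2
          (δ s' (some fun j => sym w' (p j)) τ'.head?).2 ?_ ?_
        · simp only [odo, Bool.false_eq_true, if_false, if_pos h1]
        · simp only [odo, Bool.false_eq_true, if_false, if_pos h2]
      · have h1 : ¬ ∀ j, isEnd (sym w (p j)) := fun h => hall (fun j => (hE j).1 (h j))
        have h2 : ¬ ∀ j, isEnd (sym w' (p j)) := fun h => hall (fun j => (hE' j).1 (h j))
        refine key (odoMv (fun j => sym w (p j))) false
          (δ s (some fun j => sym w (p j)) τ.head?).1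
          (δ s' (some fun j => sym w' (p j)) τ'.head?).1
          (δ s (some fun j => sym w (p j)) τ.head?).2
          (δ s' (some fun j => sym w' (p j)) τ'.head?).2 ?_ ?_
        · simp only [odo, Bool.false_eq_true, if_false, if_neg h1]
        · simp only [odo, Bool.false_eq_true, if_false, if_neg h2, hodo]
  · -- an `inr` step
    have hle : ∀ i, p i ≤ w.length + 1 := fun i => by have := hp i; omega
    have hsw : swept π (fun j => sym w (p j)) ↔ swept π (fun j => sym w' (p j)) := by
      rw [swept_iff w π p hle, swept_iff w' π p (by rw [hw]; exact hle), hw]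
    by_cases h1 : swept π (fun j => sym w (p j))
    · have h2 := hsw.1 h1
      refine ⟨?_, ?_, Or.inl ⟨s, s', b, ?_, ?_⟩⟩
      · simp only [dpdaStep, compileP, if_pos h1, if_pos h2, hw]
      · intro j
        simp only [dpdaStep, compileP, if_pos h1]
        exact mv_lt (hp j) _
      · simp only [dpdaStep, compileP, if_pos h1]
      · simp only [dpdaStep, compileP, if_pos h2]
    · have h2 : ¬ swept π (fun j => sym w' (p j)) := fun h => h1 (hsw.2 h)
      refine ⟨?_, ?_, Or.inr ⟨s, s', b, π, ?_, ?_⟩⟩
      · simp only [dpdaStep, compileP, if_neg h1, if_neg h2, hw]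
      · intro j
        simp only [dpdaStep, compileP, if_neg h1]
        exact mv_lt (hp j) _
      · simp only [dpdaStep, compileP, if_neg h1]
      · simp only [dpdaStep, compileP, if_neg h2]

theorem odo_independent (s₀ : S) {w' : List α} (hw : w'.length = w.length) (m : ℕ) :
    ((dpdaStep (compileP (odo δ)) w)^[m] (Sum.inl (s₀, false), (fun _ => 0), [])).2.1 =
      ((dpdaStep (compileP (odo δ)) w')^[m] (Sum.inl (s₀, false), (fun _ => 0), [])).2.1 := by
  have key : RelI w
      ((dpdaStep (compileP (odo δ)) w)^[m] (Sum.inl (s₀, false), (fun _ => 0), []))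
      ((dpdaStep (compileP (odo δ)) w')^[m] (Sum.inl (s₀, false), (fun _ => 0), [])) := by
    induction m with
    | zero => exact ⟨rfl, fun j => by simp, Or.inl ⟨s₀, s₀, false, rfl, rfl⟩⟩
    | succ m ih =>
      rw [Function.iterate_succ_apply', Function.iterate_succ_apply']
      exact RelI_step δ w hw _ _ ih
  exact key.1

end odometer

end Pool.Agent.Helper5
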