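import Pool.Agent.Helper5.MoserMain

/-!
# Blichfeldt's bound and the greedy bound
-/

open MeasureTheory Metric Set Filter
open scoped ENNReal Topology RealInnerProductSpace

namespace Pool.Agent.Helper5.Moser

variable {n : ℕ}

/-- Blichfeldt's density function -/
noncomputable def bl (x y : E n) : ℝ := max 0 (1 - 2 * ‖x - y‖ ^ 2)

theorem bl_nonneg (x y : E n) : 0 ≤ bl x y := le_max_left _ _

theorem sum_sq_identity (F : Finset (E n)) (y : E n) :
    ∑ a ∈ F, ∑ b ∈ F, ‖a - b‖ ^ 2 =
      2 * (F.card : ℝ) * ∑ a ∈ F, ‖a - y‖ ^ 2 - 2 * ‖∑ a ∈ F, (a - y)‖ ^ 2 := by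
  have h1 : ∀ a b : E n, ‖a - b‖ ^ 2 = ‖a - y‖ ^ 2 - 2 * ⟪a - y, b - y⟫ + ‖b - y‖ ^ 2 := by
    intro a b
    have : a - b = (a - y) - (b - y) := by abel
    rw [this, norm_sub_sq_real]
  have h2 : ‖∑ a ∈ F, (a - y)‖ ^ 2 = ∑ a ∈ F, ∑ b ∈ F, ⟪a - y, b - y⟫ := by
    rw [← real_inner_self_eq_norm_sq, sum_inner]
    apply Finset.sum_congr rfl
    intro a _
    rw [inner_sum]
  rw [Finset.sum_congr rfl fun a _ => Finset.sum_congr rfl fun b _ => h1 a b, h2]
  simp only [Finset.sum_add_distrib, Finset.sum_sub_distrib, ← Finset.mul_sum,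
    Finset.sum_const, nsmul_eq_mul]
  ring

theorem blichfeldt_pointwise (F : Finset (E n)) (hF : Sep (F : Set (E n))) (y : E n) :
    ∑ x ∈ F, bl x y ≤ 1 := by
  classical
  set G := F.filter fun x => 0 < 1 - 2 * ‖x - y‖ ^ 2 with hG
  have hGF : G ⊆ F := Finset.filter_subset _ _
  have h1 : ∑ x ∈ F, bl x y = ∑ x ∈ G, (1 - 2 * ‖x - y‖ ^ 2) := by
    rw [hG, Finset.sum_filter]
    apply Finset.sum_congr rfl
    intro x _
    split_ifs with h
    · exact max_eq_right h.le
    · exact max_eq_left (not_lt.1 h)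
  rw [h1, Finset.sum_sub_distrib, ← Finset.mul_sum, Finset.sum_const, nsmul_eq_mul, mul_one]
  rcases Nat.eq_zero_or_pos G.card with h0 | hpos
  · rw [Finset.card_eq_zero] at h0
    simp [h0]
  · have hk : (0 : ℝ) < G.card := by exact_mod_cast hpos
    have h2 := sum_sq_identity G y
    have h3 : (G.card : ℝ) * (G.card - 1) ≤ ∑ a ∈ G, ∑ b ∈ G, ‖a - b‖ ^ 2 := by
      have : ∀ a ∈ G, ((G.card : ℝ) - 1) ≤ ∑ b ∈ G, ‖a - b‖ ^ 2 := by
        intro a ha
        calc ((G.card : ℝ) - 1) = ((G.erase a).card : ℝ) := by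
              rw [Finset.card_erase_of_mem ha, Nat.cast_sub hpos]; simp
          _ = ∑ _b ∈ G.erase a, (1 : ℝ) := by simp
          _ ≤ ∑ b ∈ G.erase a, ‖a - b‖ ^ 2 := by
              apply Finset.sum_le_sum
              intro b hb
              rw [Finset.mem_erase] at hb
              have := hF a (hGF ha) b (hGF hb.2) hb.1.symm
              rw [dist_eq_norm] at this
              nlinarith
          _ ≤ ∑ b ∈ G, ‖a - b‖ ^ 2 :=
              Finset.sum_le_sum_of_subset_of_nonneg (Finset.erase_subset _ _)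
                fun b _ _ => by positivity
      calc (G.card : ℝ) * (G.card - 1) = ∑ _a ∈ G, ((G.card : ℝ) - 1) := by
            rw [Finset.sum_const, nsmul_eq_mul]
        _ ≤ _ := Finset.sum_le_sum this
    have h4 : (G.card : ℝ) * (G.card - 1) ≤ 2 * G.card * ∑ a ∈ G, ‖a - y‖ ^ 2 := by
      have := sq_nonneg ‖∑ a ∈ G, (a - y)‖
      linarith
    have h5 : (G.card : ℝ) * ((G.card : ℝ) - 1 - 2 * ∑ a ∈ G, ‖a - y‖ ^ 2) ≤ 0 := by linarith
    have h6 : (G.card : ℝ) - 1 - 2 * ∑ a ∈ G, ‖a - y‖ ^ 2 ≤ 0 := by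
      by_contra hcon
      push Not at hcon
      have := mul_pos hk hcon
      linarith
    linarith

/-- a lower bound for the mass of Blichfeldt's function -/
theorem blichfeldt_count (F : Finset (E n)) (hF : Sep (F : Set (E n))) (ρ r : ℝ)
    (hr1 : r ≤ 1) (hρ : ∀ x ∈ F, ‖x‖ < ρ) :
    (F.card : ℝ≥0∞) * (ENNReal.ofReal (1 - 2 * r ^ 2) * volume (ball (0 : E n) r)) ≤
      volume (ball (0 : E n) (ρ + 1)) := by
  have hmeas : ∀ x : E n, Measurable fun y => ENNReal.ofReal (bl x y) := by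
    intro x
    unfold bl
    fun_prop
  calc (F.card : ℝ≥0∞) * (ENNReal.ofReal (1 - 2 * r ^ 2) * volume (ball (0 : E n) r))
      = ∑ x ∈ F, ENNReal.ofReal (1 - 2 * r ^ 2) * volume (ball x r) := by
        rw [Finset.sum_congr rfl fun x _ => by rw [Measure.addHaar_ball_center]]
        rw [Finset.sum_const, nsmul_eq_mul]
    _ = ∑ x ∈ F, ∫⁻ _y in ball x r, ENNReal.ofReal (1 - 2 * r ^ 2) := by
        simp
    _ ≤ ∑ x ∈ F, ∫⁻ y in ball x r, ENNReal.ofReal (bl x y) := by
        apply Finset.sum_le_sum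
        intro x _
        apply setLIntegral_mono (hmeas x)
        intro y hy
        apply ENNReal.ofReal_le_ofReal
        refine le_trans ?_ (le_max_right _ _)
        rw [mem_ball, dist_comm, dist_eq_norm] at hy
        have := norm_nonneg (x - y)
        nlinarith
    _ ≤ ∑ x ∈ F, ∫⁻ y in ball (0 : E n) (ρ + 1), ENNReal.ofReal (bl x y) := by
        apply Finset.sum_le_sum
        intro x hx
        apply lintegral_mono_set
        apply ball_subset_ball'
        rw [dist_zero_right]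
        have := hρ x hx
        linarith
    _ = ∫⁻ y in ball (0 : E n) (ρ + 1), ∑ x ∈ F, ENNReal.ofReal (bl x y) := by
        rw [lintegral_finsetSum]
        intro x _
        exact hmeas x
    _ ≤ ∫⁻ _y in ball (0 : E n) (ρ + 1), 1 := by
        apply lintegral_mono
        intro y
        simp only
        rw [← ENNReal.ofReal_sum_of_nonneg fun x _ => bl_nonneg x y]
        rw [← ENNReal.ofReal_one]
        exact ENNReal.ofReal_le_ofReal (blichfeldt_pointwise F hF y)
    _ = _ := by simp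

theorem blichfeldt_dens {S : Set (E n)} (hS : Sep S) (r : ℝ) (hr1 : r ≤ 1) :
    dens S * (ENNReal.ofReal (1 - 2 * r ^ 2) * volume (ball (0 : E n) r)) ≤ v n := by
  classical
  set J := ENNReal.ofReal (1 - 2 * r ^ 2) * volume (ball (0 : E n) r) with hJ
  have hJt : J ≠ ⊤ := ENNReal.mul_ne_top ENNReal.ofReal_ne_top measure_ball_lt_top.ne
  rcases eq_or_ne J 0 with hJ0 | hJ0
  · rw [hJ0, mul_zero]; exact bot_le
  have hvol : ∀ R : ℝ, volume ((⋃ x ∈ S, ball x (1 / 2)) ∩ ball 0 R) ≤
      v n / J * volume (ball (0 : E n) (R + 3 / 2)) := by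
    intro R
    set F := (sep_finite hS (R + 1 / 2)).toFinset with hF
    have hsub : (⋃ x ∈ S, ball x (1 / 2)) ∩ ball 0 R ⊆ ⋃ x ∈ F, ball x (1 / 2) := by
      rintro y ⟨hy, hyR⟩
      simp only [mem_iUnion, exists_prop] at hy ⊢
      obtain ⟨x, hx, hxy⟩ := hy
      refine ⟨x, ?_, hxy⟩
      rw [hF, Set.Finite.mem_toFinset]
      refine ⟨hx, ?_⟩
      rw [mem_ball_zero_iff] at hyR ⊢
      rw [mem_ball, dist_eq_norm] at hxy
      calc ‖x‖ = ‖y - (y - x)‖ := by rw [sub_sub_cancel]
        _ ≤ ‖y‖ + ‖y - x‖ := norm_sub_le _ _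
        _ < R + 1 / 2 := by linarith
    have hFS : Sep (F : Set (E n)) := hS.mono fun x hx => by
      rw [hF, Finset.mem_coe, Set.Finite.mem_toFinset] at hx; exact hx.1
    have hcount := blichfeldt_count F hFS (R + 1 / 2) r hr1 (by
      intro x hx
      rw [hF, Set.Finite.mem_toFinset] at hx
      have := hx.2
      rwa [mem_ball_zero_iff] at this)
    rw [← hJ] at hcount
    have hc2 : (F.card : ℝ≥0∞) ≤ volume (ball (0 : E n) (R + 3 / 2)) / J := by
      rw [ENNReal.le_div_iff_mul_le (Or.inl hJ0) (Or.inl hJt)]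
      refine hcount.trans (le_of_eq ?_)
      congr 2
      ring
    calc volume ((⋃ x ∈ S, ball x (1 / 2)) ∩ ball 0 R)
        ≤ volume (⋃ x ∈ F, ball x (1 / 2 : ℝ)) := measure_mono hsub
      _ ≤ ∑ x ∈ F, volume (ball x (1 / 2 : ℝ)) := measure_biUnion_finset_le _ _
      _ = F.card * v n := by
          rw [Finset.sum_congr rfl fun x _ => vol_ball n x, Finset.sum_const, nsmul_eq_mul]
      _ ≤ volume (ball (0 : E n) (R + 3 / 2)) / J * v n := by gcongr
      _ = _ := by simp only [div_eq_mul_inv]; ring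
  have hlim : Tendsto (fun R : ℝ => (v n / J) *
      ENNReal.ofReal (((R + 3 / 2) / R) ^ n)) atTop (𝓝 ((v n / J) * 1)) := by
    apply ENNReal.Tendsto.const_mul (tendsto_ratio _)
    left; norm_num
  rw [mul_one] at hlim
  have hd : dens S ≤ v n / J := by
    unfold dens
    rw [← hlim.limsup_eq]
    refine limsup_le_limsup ?_
    filter_upwards [eventually_gt_atTop 0] with R hR
    rw [← ratio_ball hR (by norm_num), ← mul_div_assoc]
    gcongr
    exact hvol R
  rwa [ENNReal.le_div_iff_mul_le (Or.inl hJ0) (Or.inl hJt)] at hd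

theorem blichfeldt_Delta (r : ℝ) (hr : 0 < r) (hr1 : 2 * r ^ 2 ≤ 1) :
    Delta n * ((1 - 2 * r ^ 2) * (2 * r) ^ n) ≤ 1 := by
  have hr2 : r ≤ 1 := by nlinarith
  have h1 : (⨆ (S : Set (E n)) (_ : Sep S), dens S) *
      (ENNReal.ofReal (1 - 2 * r ^ 2) * volume (ball (0 : E n) r)) ≤ v n := by
    rw [ENNReal.iSup_mul]
    apply iSup_le
    intro S
    rw [ENNReal.iSup_mul]
    exact iSup_le fun hS => blichfeldt_dens hS r hr2
  have h2 := ENNReal.toReal_mono (v_lt_top n).ne h1
  rw [ENNReal.toReal_mul, ENNReal.toReal_mul, ENNReal.toReal_ofReal (by linarith)] at h2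
  have h3 : volume (ball (0 : E n) r) = ENNReal.ofReal ((2 * r) ^ n) * v n := by
    unfold v
    rw [Measure.addHaar_ball_of_pos _ _ hr,
      Measure.addHaar_ball_of_pos (r := 1 / 2) _ _ (by norm_num), ← mul_assoc, ← ENNReal.ofReal_mul (by positivity), finrank_euclideanSpace_fin, ← mul_pow]
    have : 2 * r * (1 / 2) = r := by ring
    rw [this]
  rw [h3, ENNReal.toReal_mul, ENNReal.toReal_ofReal (by positivity)] at h2
  have hv := v_toReal_pos n
  have h4 : (Delta n * ((1 - 2 * r ^ 2) * (2 * r) ^ n)) * (v n).toReal ≤ 1 * (v n).toReal := by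
    have : Delta n = (⨆ (S : Set (E n)) (_ : Sep S), dens S).toReal := rfl
    rw [this]
    linarith
  exact le_of_mul_le_mul_right h4 hv

/-- greedy bound -/
theorem greedy : 1 ≤ (moser n : ℝ) * ((v n).toReal * 2 ^ n) := by
  obtain ⟨X, hX, hsep, hcard⟩ := moser_mem n
  classical
  have hcov : cube n ⊆ ⋃ x ∈ X, ball x 1 := by
    intro y hy
    simp only [mem_iUnion, exists_prop]
    by_contra hcon
    push Not at hcon
    have hyX : y ∉ X := fun h => hcon y h (mem_ball_self one_pos)
    have h1 := le_moser (insert y X) (by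
      intro x hx
      rw [Finset.mem_insert] at hx
      rcases hx with rfl | hx
      · exact hy
      · exact hX x hx) (by
      intro a ha b hb hab
      rw [Finset.mem_coe, Finset.mem_insert] at ha hb
      rcases ha with rfl | ha <;> rcases hb with rfl | hb
      · exact absurd rfl hab
      · have := hcon b hb
        rwa [mem_ball, not_lt] at this
      · have := hcon a ha
        rw [mem_ball, not_lt, dist_comm] at this
        exact this
      · exact hsep a ha b hb hab)
    rw [Finset.card_insert_of_notMem hyX, hcard] at h1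
    omega
  have hb : ∀ x : E n, volume (ball x 1) = ENNReal.ofReal (2 ^ n) * v n := by
    intro x
    unfold v
    rw [Measure.addHaar_ball_center, Measure.addHaar_ball_of_pos (r := 1 / 2) _ _ (by norm_num),
      ← mul_assoc, ← ENNReal.ofReal_mul (by positivity), finrank_euclideanSpace_fin, ← mul_pow]
    norm_num
  have h2 : (1 : ℝ≥0∞) ≤ moser n * (ENNReal.ofReal (2 ^ n) * v n) := by
    calc (1 : ℝ≥0∞) = volume (cube n) := (volume_cube n).symm
      _ ≤ volume (⋃ x ∈ X, ball x (1 : ℝ)) := measure_mono hcov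
      _ ≤ ∑ x ∈ X, volume (ball x (1 : ℝ)) := measure_biUnion_finset_le _ _
      _ = _ := by
        rw [Finset.sum_congr rfl fun x _ => hb x, Finset.sum_const, nsmul_eq_mul, hcard]
  have h3 := ENNReal.toReal_mono (ENNReal.mul_ne_top (ENNReal.natCast_ne_top _)
    (ENNReal.mul_ne_top ENNReal.ofReal_ne_top (v_lt_top n).ne)) h2
  rw [ENNReal.toReal_mul, ENNReal.toReal_mul, ENNReal.toReal_ofReal (by positivity)] at h3
  simp only [ENNReal.toReal_one, ENNReal.toReal_natCast] at h3
  linarith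

end Pool.Agent.Helper5.Moser
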