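import Mathlib

/-!
# A Gilbert-Varshamov code over `ZMod 3`
-/

namespace Pool.Agent.Helper5.Moser

open Finset

variable {n : ℕ}

/-- words at Hamming distance at most one from `y` -/
def mods (y : Fin n → ZMod 3) : Finset (Fin n → ZMod 3) :=
  insert y (univ.image fun p : Fin n × Bool =>
    Function.update y p.1 (y p.1 + if p.2 then 1 else 2))

theorem card_mods (y : Fin n → ZMod 3) : (mods y).card ≤ 2 * n + 1 := by
  unfold mods
  refine (card_insert_le _ _).trans ?_
  have : (univ.image fun p : Fin n × Bool =>
    Function.update y p.1 (y p.1 + if p.2 then 1 else 2)).card ≤ n * 2 := by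
    refine card_image_le.trans ?_
    simp
  omega

/-- Hamming ball -/
def hball (x : Fin n → ZMod 3) (r : ℕ) : Finset (Fin n → ZMod 3) :=
  univ.filter fun y => hammingDist x y ≤ r

theorem hball_succ (x : Fin n → ZMod 3) (r : ℕ) :
    hball x (r + 1) ⊆ (hball x r).biUnion mods := by
  intro y hy
  simp only [hball, mem_filter, mem_univ, true_and, mem_biUnion] at hy ⊢
  rcases Nat.lt_or_ge (hammingDist x y) (r + 1) with h | h
  · exact ⟨y, by omega, by simp [mods]⟩
  · have hr : hammingDist x y = r + 1 := le_antisymm hy h
    have hpos : 0 < hammingDist x y := by omega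
    obtain ⟨i, hi⟩ : ∃ i, x i ≠ y i := by
      by_contra hcon
      push Not at hcon
      have : x = y := funext hcon
      rw [this, hammingDist_self] at hpos
      exact absurd hpos (lt_irrefl _)
    refine ⟨Function.update y i (x i), ?_, ?_⟩
    · have : (univ.filter fun j => x j ≠ Function.update y i (x i) j) =
          (univ.filter fun j => x j ≠ y j).erase i := by
        ext j
        simp only [mem_filter, mem_univ, true_and, mem_erase]
        by_cases hj : j = i
        · subst hj; simp
        · simp [hj]
      unfold hammingDist at hr ⊢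
      rw [this, card_erase_of_mem (by simp [hi]), hr]
      omega
    · unfold mods
      rw [mem_insert, mem_image]
      right
      have key : ∀ a b : ZMod 3, a ≠ b → b = a + 1 ∨ b = a + 2 := by decide
      rcases key (x i) (y i) hi with h1 | h1
      · refine ⟨(i, true), mem_univ _, ?_⟩
        simp [← h1]
      · refine ⟨(i, false), mem_univ _, ?_⟩
        simp [← h1]

theorem card_hball (x : Fin n → ZMod 3) (r : ℕ) : (hball x r).card ≤ (2 * n + 1) ^ r := by
  induction r with
  | zero =>
    have : hball x 0 ⊆ {x} := by
      intro y hy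
      simp only [hball, mem_filter, mem_univ, true_and, Nat.le_zero, hammingDist_eq_zero] at hy
      simp [hy]
    simpa using card_le_card this
  | succ r ih =>
    calc (hball x (r + 1)).card ≤ ((hball x r).biUnion mods).card := card_le_card (hball_succ x r)
      _ ≤ ∑ y ∈ hball x r, (mods y).card := card_biUnion_le
      _ ≤ ∑ _y ∈ hball x r, (2 * n + 1) := sum_le_sum fun y _ => card_mods y
      _ = (hball x r).card * (2 * n + 1) := by rw [sum_const, smul_eq_mul]
      _ ≤ (2 * n + 1) ^ r * (2 * n + 1) := Nat.mul_le_mul_right _ ih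
      _ = _ := (pow_succ _ _).symm

/-- minimum distance at least `d` -/
def IsCode (d : ℕ) (C : Finset (Fin n → ZMod 3)) : Prop :=
  ∀ x ∈ C, ∀ y ∈ C, x ≠ y → d ≤ hammingDist x y

/-- Gilbert-Varshamov bound -/
theorem exists_code (n d : ℕ) (hd : 1 ≤ d) :
    ∃ C : Finset (Fin n → ZMod 3), IsCode d C ∧ 3 ^ n ≤ C.card * (2 * n + 1) ^ (d - 1) := by
  classical
  obtain ⟨C, hC, hmax⟩ := exists_max_image
    ((univ : Finset (Finset (Fin n → ZMod 3))).filter fun C => IsCode d C) card
    ⟨∅, mem_filter.2 ⟨mem_univ _, by intro x hx; simp at hx⟩⟩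
  simp only [mem_filter, mem_univ, true_and] at hC hmax
  refine ⟨C, hC, ?_⟩
  have hcov : (univ : Finset (Fin n → ZMod 3)) ⊆ C.biUnion fun c => hball c (d - 1) := by
    intro y _
    rw [mem_biUnion]
    by_contra hcon
    push Not at hcon
    have hy : y ∉ C := by
      intro hyC
      exact hcon y hyC (by simp [hball])
    have hfar : ∀ c ∈ C, d ≤ hammingDist c y := by
      intro c hc
      have := hcon c hc
      simp only [hball, mem_filter, mem_univ, true_and, not_le] at this
      omega
    have hcode : IsCode d (insert y C) := by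
      intro a ha b hb hab
      rw [mem_insert] at ha hb
      rcases ha with rfl | ha <;> rcases hb with rfl | hb
      · exact absurd rfl hab
      · rw [hammingDist_comm]; exact hfar b hb
      · exact hfar a ha
      · exact hC a ha b hb hab
    have := hmax _ hcode
    rw [card_insert_of_notMem hy] at this
    omega
  calc 3 ^ n = (univ : Finset (Fin n → ZMod 3)).card := by simp [ZMod.card]
    _ ≤ (C.biUnion fun c => hball c (d - 1)).card := card_le_card hcov
    _ ≤ ∑ c ∈ C, (hball c (d - 1)).card := card_biUnion_le
    _ ≤ ∑ _c ∈ C, (2 * n + 1) ^ (d - 1) := sum_le_sum fun c _ => card_hball c _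
    _ = _ := by rw [sum_const, smul_eq_mul]

end Pool.Agent.Helper5.Moser
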