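import Mathlib

/-!
# Separated points in the unit cube and the sphere packing density: definitions
-/

open MeasureTheory Metric Set Filter
open scoped ENNReal

namespace Pool.Agent.Helper5.Moser

/-- `n`-dimensional Euclidean space -/
abbrev E (n : ℕ) := EuclideanSpace ℝ (Fin n)

/-- The closed unit cube `[0,1]^n`. -/
def cube (n : ℕ) : Set (E n) := {x | ∀ i, 0 ≤ x i ∧ x i ≤ 1}

/-- A set of points all of whose pairwise distances are at least `1`. -/
def Sep {n : ℕ} (S : Set (E n)) : Prop := ∀ x ∈ S, ∀ y ∈ S, x ≠ y → 1 ≤ dist x y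

/-- The set of all `N` such that the unit cube contains `N` points at mutual distances at least `1`.
-/
def cubeSizes (n : ℕ) : Set ℕ :=
  {N | ∃ s : Finset (E n), (∀ x ∈ s, x ∈ cube n) ∧ Sep (s : Set (E n)) ∧ s.card = N}

/-- Moser's function: the largest number of points of `[0,1]^n` at mutual distances at least `1`. -/
noncomputable def moser (n : ℕ) : ℕ := sSup (cubeSizes n)

/-- Upper density of the family of balls of radius `1/2` centred at the points of `S`. -/
noncomputable def dens {n : ℕ} (S : Set (E n)) : ℝ≥0∞ :=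
  limsup (fun R : ℝ => volume ((⋃ x ∈ S, ball x (1 / 2)) ∩ ball 0 R) / volume (ball (0 : E n) R))
    atTop

/-- The sphere packing density `Δ_n` of `ℝ^n`: the supremum of the upper densities of all
packings by balls of radius `1/2`. -/
noncomputable def Delta (n : ℕ) : ℝ := (⨆ (S : Set (E n)) (_ : Sep S), dens S).toReal

/-- volume of a ball of radius one half -/
noncomputable def v (n : ℕ) : ℝ≥0∞ := volume (ball (0 : E n) (1 / 2))

theorem v_pos (n : ℕ) : 0 < v n := measure_ball_pos _ _ (by norm_num)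

theorem v_lt_top (n : ℕ) : v n < ⊤ := measure_ball_lt_top

theorem vol_ball (n : ℕ) (x : E n) : volume (ball x (1 / 2)) = v n := by
  rw [v, Measure.addHaar_ball_center]

theorem Sep.disjoint {n : ℕ} {S : Set (E n)} (h : Sep S) :
    S.PairwiseDisjoint fun x => ball x (1 / 2 : ℝ) := by
  intro x hx y hy hxy
  apply ball_disjoint_ball
  have := h x hx y hy hxy
  linarith

theorem Sep.mono {n : ℕ} {S T : Set (E n)} (h : Sep S) (hT : T ⊆ S) : Sep T :=
  fun x hx y hy hxy => h x (hT hx) y (hT hy) hxy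

/-- packing inequality -/
theorem card_mul_le {n : ℕ} (s : Finset (E n)) (hs : Sep (s : Set (E n))) (K : Set (E n))
    (hK : ∀ x ∈ s, ball x (1 / 2) ⊆ K) : (s.card : ℝ≥0∞) * v n ≤ volume K := by
  have h1 : volume (⋃ x ∈ s, ball x (1 / 2 : ℝ)) = ∑ x ∈ s, volume (ball x (1 / 2 : ℝ)) :=
    measure_biUnion_finset hs.disjoint fun x _ => measurableSet_ball
  have h2 : ∑ x ∈ s, volume (ball x (1 / 2 : ℝ)) = (s.card : ℝ≥0∞) * v n := by
    rw [Finset.sum_congr rfl fun x _ => vol_ball n x, Finset.sum_const, nsmul_eq_mul]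
  rw [← h2, ← h1]
  exact measure_mono (iUnion₂_subset hK)

theorem cube_norm {n : ℕ} {x : E n} (hx : x ∈ cube n) : ‖x‖ ≤ Real.sqrt n := by
  rw [EuclideanSpace.norm_eq]
  apply Real.sqrt_le_sqrt
  calc ∑ i, ‖x i‖ ^ 2 ≤ ∑ _i : Fin n, (1 : ℝ) := by
        apply Finset.sum_le_sum
        intro i _
        obtain ⟨h0, h1⟩ := hx i
        rw [Real.norm_eq_abs, sq_abs]
        nlinarith
    _ = n := by simp

theorem cubeSizes_bdd (n : ℕ) : BddAbove (cubeSizes n) := by
  have hfin : volume (ball (0 : E n) (Real.sqrt n + 1)) / v n ≠ ⊤ := by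
    apply ENNReal.div_ne_top measure_ball_lt_top.ne (v_pos n).ne'
  refine ⟨⌊(volume (ball (0 : E n) (Real.sqrt n + 1)) / v n).toReal⌋₊, ?_⟩
  rintro N ⟨s, hs, hsep, rfl⟩
  apply Nat.le_floor
  have h := card_mul_le s hsep (ball (0 : E n) (Real.sqrt n + 1)) (by
    intro x hx
    apply ball_subset_ball'
    rw [dist_zero_right]
    have := cube_norm (hs x hx)
    linarith)
  have h' : (s.card : ℝ≥0∞) ≤ volume (ball (0 : E n) (Real.sqrt n + 1)) / v n := by
    rw [ENNReal.le_div_iff_mul_le (Or.inl (v_pos n).ne') (Or.inl (v_lt_top n).ne)]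
    exact h
  have := (ENNReal.toReal_le_toReal (ENNReal.natCast_ne_top _) hfin).2 h'
  simpa using this

theorem cubeSizes_nonempty (n : ℕ) : (cubeSizes n).Nonempty :=
  ⟨0, ∅, by simp, by simp [Sep], by simp⟩

theorem moser_mem (n : ℕ) : moser n ∈ cubeSizes n :=
  Nat.sSup_mem (cubeSizes_nonempty n) (cubeSizes_bdd n)

theorem le_moser {n : ℕ} (s : Finset (E n)) (hs : ∀ x ∈ s, x ∈ cube n)
    (hsep : Sep (s : Set (E n))) : s.card ≤ moser n :=
  le_csSup (cubeSizes_bdd n) ⟨s, hs, hsep, rfl⟩

theorem one_le_moser (n : ℕ) : 1 ≤ moser n := by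
  have := le_moser ({0} : Finset (E n)) (by intro x hx; simp at hx; subst hx; intro i; simp)
    (by intro x hx y hy hxy; simp at hx hy; exact absurd (hx.trans hy.symm) hxy)
  simpa using this

theorem isGreatest_moser (n : ℕ) : IsGreatest (cubeSizes n) (moser n) :=
  ⟨moser_mem n, fun _ hN => le_csSup (cubeSizes_bdd n) hN⟩

theorem measurableSet_cube (n : ℕ) : MeasurableSet (cube n) := by
  have : cube n = ⋂ i : Fin n, {x : E n | 0 ≤ x i ∧ x i ≤ 1} := by
    ext x; simp [cube]
  rw [this]
  apply MeasurableSet.iInter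
  intro i
  have hc : Continuous fun x : E n => x i := by fun_prop
  exact ((isClosed_le continuous_const hc).inter (isClosed_le hc continuous_const)).measurableSet

theorem volume_cube (n : ℕ) : volume (cube n) = 1 := by
  have h := EuclideanSpace.volume_preserving_symm_measurableEquiv_toLp (Fin n)
  have h2 : cube n = (MeasurableEquiv.toLp 2 (Fin n → ℝ)).symm ⁻¹' (Icc 0 1) := by
    ext x
    simp only [cube, Set.mem_ofPred_eq, mem_preimage, mem_Icc, Pi.le_def]
    constructor
    · intro h; exact ⟨fun i => (h i).1, fun i => (h i).2⟩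
    · intro h i; exact ⟨h.1 i, h.2 i⟩
  rw [h2, h.measure_preimage_equiv, Real.volume_Icc_pi]
  simp

end Pool.Agent.Helper5.Moser
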