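import Pool.Agent.Helper5.MoserDef

/-!
# The sphere packing density is at most `moser n` times the volume of a ball
-/

open MeasureTheory Metric Set Filter
open scoped ENNReal Topology

namespace Pool.Agent.Helper5.Moser

variable {n : ℕ}

theorem card_filter_le (s : Finset (E n)) (hsep : Sep (s : Set (E n))) (y : E n)
    [DecidablePred fun x => x - y ∈ cube n] :
    (s.filter fun x => x - y ∈ cube n).card ≤ moser n := by
  classical
  have hinj : Function.Injective fun x : E n => x - y := fun a b h => by simpa using h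
  have h := le_moser (((s.filter fun x => x - y ∈ cube n)).image fun x => x - y) (by
      intro x hx
      simp only [Finset.mem_image, Finset.mem_filter] at hx
      obtain ⟨z, ⟨_, hz⟩, rfl⟩ := hx
      exact hz) (by
      intro x hx z hz hxz
      simp only [Finset.coe_image, Finset.coe_filter, Set.mem_image, Set.mem_ofPred_eq] at hx hz
      obtain ⟨x', ⟨hx', _⟩, rfl⟩ := hx
      obtain ⟨z', ⟨hz', _⟩, rfl⟩ := hz
      rw [dist_sub_right]
      exact hsep x' hx' z' hz' fun h => hxz (by rw [h]))
  rwa [Finset.card_image_of_injective _ hinj] at h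

theorem count_le (s : Finset (E n)) (hsep : Sep (s : Set (E n))) (ρ : ℝ)
    (hρ : ∀ x ∈ s, ‖x‖ < ρ) :
    (s.card : ℝ≥0∞) ≤ moser n * volume (ball (0 : E n) (ρ + Real.sqrt n)) := by
  classical
  have hmeas : ∀ x : E n, MeasurableSet {y : E n | x - y ∈ cube n} := fun x =>
    (measurableSet_cube n).preimage (by fun_prop)
  have h1 : ∀ x : E n, volume {y : E n | x - y ∈ cube n} = 1 := by
    intro x
    have := (Measure.measurePreserving_sub_left (volume : Measure (E n)) x).measure_preimage
      (measurableSet_cube n).nullMeasurableSet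
    rw [volume_cube] at this
    exact this
  calc (s.card : ℝ≥0∞) = ∑ x ∈ s, volume {y : E n | x - y ∈ cube n} := by
        rw [Finset.sum_congr rfl fun x _ => h1 x]; simp
    _ = ∑ x ∈ s, ∫⁻ y, ({y : E n | x - y ∈ cube n}).indicator (fun _ => (1 : ℝ≥0∞)) y := by
        apply Finset.sum_congr rfl
        intro x _
        rw [lintegral_indicator (hmeas x)]
        simp
    _ = ∫⁻ y, ∑ x ∈ s, ({y : E n | x - y ∈ cube n}).indicator (fun _ => (1 : ℝ≥0∞)) y := by
        rw [lintegral_finsetSum]
        intro x _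
        exact measurable_const.indicator (hmeas x)
    _ ≤ ∫⁻ y, (ball (0 : E n) (ρ + Real.sqrt n)).indicator (fun _ => (moser n : ℝ≥0∞)) y := by
        apply lintegral_mono
        intro y
        have hs : ∑ x ∈ s, ({y : E n | x - y ∈ cube n}).indicator (fun _ => (1 : ℝ≥0∞)) y
            = ((s.filter fun x => x - y ∈ cube n).card : ℝ≥0∞) := by
          rw [Finset.card_filter]
          push_cast
          apply Finset.sum_congr rfl
          intro x _
          simp [Set.indicator]
        simp only [hs]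
        by_cases hy : y ∈ ball (0 : E n) (ρ + Real.sqrt n)
        · rw [Set.indicator_of_mem hy]
          exact_mod_cast card_filter_le s hsep y
        · rw [Set.indicator_of_notMem hy]
          have : (s.filter fun x => x - y ∈ cube n) = ∅ := by
            apply Finset.filter_false_of_mem
            intro x hx hxy
            apply hy
            rw [mem_ball_zero_iff]
            have h2 := cube_norm hxy
            have h3 := hρ x hx
            calc ‖y‖ = ‖x - (x - y)‖ := by rw [sub_sub_cancel]
              _ ≤ ‖x‖ + ‖x - y‖ := norm_sub_le _ _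
              _ < ρ + Real.sqrt n := by linarith
          rw [this]; simp
    _ = moser n * volume (ball (0 : E n) (ρ + Real.sqrt n)) := by
        rw [lintegral_indicator measurableSet_ball]
        simp

theorem sep_finite {S : Set (E n)} (hS : Sep S) (ρ : ℝ) : (S ∩ ball 0 ρ).Finite := by
  by_contra hinf
  have hinf' : (S ∩ ball 0 ρ).Infinite := hinf
  set B := moser n * volume (ball (0 : E n) (ρ + Real.sqrt n)) with hB
  have hBt : B ≠ ⊤ := ENNReal.mul_ne_top (ENNReal.natCast_ne_top _) measure_ball_lt_top.ne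
  obtain ⟨k, hk⟩ := ENNReal.exists_nat_gt hBt
  obtain ⟨t, ht, htc⟩ := hinf'.exists_subset_card_eq k
  have h := count_le t (hS.mono fun x hx => (ht hx).1) ρ (by
    intro x hx
    have := (ht hx).2
    rwa [mem_ball_zero_iff] at this)
  rw [htc] at h
  exact absurd (lt_of_lt_of_le hk h) (lt_irrefl _)

theorem vol_union_le {S : Set (E n)} (hS : Sep S) (R : ℝ) :
    volume ((⋃ x ∈ S, ball x (1 / 2)) ∩ ball 0 R) ≤
      moser n * v n * volume (ball (0 : E n) (R + (1 / 2 + Real.sqrt n))) := by
  classical
  set F := (sep_finite hS (R + 1 / 2)).toFinset with hF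
  have hsub : (⋃ x ∈ S, ball x (1 / 2)) ∩ ball 0 R ⊆ ⋃ x ∈ F, ball x (1 / 2) := by
    rintro y ⟨hy, hyR⟩
    simp only [mem_iUnion, exists_prop] at hy ⊢
    obtain ⟨x, hx, hxy⟩ := hy
    refine ⟨x, ?_, hxy⟩
    rw [hF, Set.Finite.mem_toFinset]
    refine ⟨hx, ?_⟩
    rw [mem_ball_zero_iff] at hyR ⊢
    rw [mem_ball, dist_eq_norm] at hxy
    calc ‖x‖ = ‖y - (y - x)‖ := by rw [sub_sub_cancel]
      _ ≤ ‖y‖ + ‖y - x‖ := norm_sub_le _ _
      _ < R + 1 / 2 := by linarith
  have hcount := count_le F (hS.mono fun x hx => by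
    rw [hF, Finset.mem_coe, Set.Finite.mem_toFinset] at hx; exact hx.1) (R + 1 / 2) (by
    intro x hx
    rw [hF, Set.Finite.mem_toFinset] at hx
    have := hx.2
    rwa [mem_ball_zero_iff] at this)
  calc volume ((⋃ x ∈ S, ball x (1 / 2)) ∩ ball 0 R)
      ≤ volume (⋃ x ∈ F, ball x (1 / 2 : ℝ)) := measure_mono hsub
    _ ≤ ∑ x ∈ F, volume (ball x (1 / 2 : ℝ)) := measure_biUnion_finset_le _ _
    _ = F.card * v n := by
        rw [Finset.sum_congr rfl fun x _ => vol_ball n x, Finset.sum_const, nsmul_eq_mul]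
    _ ≤ (moser n * volume (ball (0 : E n) (R + 1 / 2 + Real.sqrt n))) * v n := by gcongr
    _ = _ := by
        rw [add_assoc]; ring

theorem ratio_ball {R c : ℝ} (hR : 0 < R) (hc : 0 ≤ c) :
    volume (ball (0 : E n) (R + c)) / volume (ball (0 : E n) R) =
      ENNReal.ofReal (((R + c) / R) ^ n) := by
  rw [Measure.addHaar_ball_of_pos _ _ (by positivity : 0 < R + c),
    Measure.addHaar_ball_of_pos _ _ hR]
  have hV : volume (ball (0 : E n) 1) ≠ 0 := (measure_ball_pos _ _ one_pos).ne'
  have hV' : volume (ball (0 : E n) 1) ≠ ⊤ := measure_ball_lt_top.ne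
  rw [ENNReal.mul_div_mul_right _ _ hV hV', ← ENNReal.ofReal_div_of_pos (by positivity),
    div_pow]
  simp

theorem tendsto_ratio (c : ℝ) :
    Tendsto (fun R : ℝ => ENNReal.ofReal (((R + c) / R) ^ n)) atTop (𝓝 1) := by
  have h1 : Tendsto (fun R : ℝ => (R + c) / R) atTop (𝓝 1) := by
    have : Tendsto (fun R : ℝ => 1 + c / R) atTop (𝓝 (1 + 0)) :=
      tendsto_const_nhds.add (tendsto_const_nhds.div_atTop tendsto_id)
    rw [add_zero] at this
    apply this.congr'
    filter_upwards [eventually_gt_atTop 0] with R hR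
    field_simp
  have h2 := (h1.pow n)
  rw [one_pow] at h2
  have h3 := ENNReal.tendsto_ofReal h2
  simpa using h3

theorem dens_le {S : Set (E n)} (hS : Sep S) : dens S ≤ moser n * v n := by
  have hc : (0 : ℝ) ≤ 1 / 2 + Real.sqrt n := by positivity
  have hlim : Tendsto (fun R : ℝ => (moser n * v n) *
      ENNReal.ofReal (((R + (1 / 2 + Real.sqrt n)) / R) ^ n)) atTop (𝓝 ((moser n * v n) * 1)) := by
    apply ENNReal.Tendsto.const_mul (tendsto_ratio _)
    left; norm_num
  rw [mul_one] at hlim
  unfold dens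
  rw [← hlim.limsup_eq]
  refine limsup_le_limsup ?_
  filter_upwards [eventually_gt_atTop 0] with R hR
  rw [← ratio_ball hR hc, ← mul_div_assoc]
  gcongr
  exact vol_union_le hS R

theorem iSup_dens_le : (⨆ (S : Set (E n)) (_ : Sep S), dens S) ≤ moser n * v n :=
  iSup₂_le fun _ hS => dens_le hS

theorem Delta_le : Delta n ≤ moser n * (v n).toReal := by
  unfold Delta
  have h := ENNReal.toReal_mono (ENNReal.mul_ne_top (ENNReal.natCast_ne_top _) (v_lt_top n).ne)
    (iSup_dens_le (n := n))
  simpa using h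

theorem iSup_dens_lt_top : (⨆ (S : Set (E n)) (_ : Sep S), dens S) < ⊤ :=
  lt_of_le_of_lt iSup_dens_le (ENNReal.mul_lt_top (ENNReal.natCast_lt_top _) (v_lt_top n))

theorem le_Delta {S : Set (E n)} (hS : Sep S) : (dens S).toReal ≤ Delta n := by
  unfold Delta
  apply ENNReal.toReal_mono iSup_dens_lt_top.ne
  exact le_iSup₂_of_le S hS le_rfl

end Pool.Agent.Helper5.Moser
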