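import Pool.Agent.Helper5.MoserStirling

/-!
# Main estimates for `log (moser n)`
-/

open Real MeasureTheory Metric
open scoped ENNReal

namespace Pool.Agent.Helper5.Moser

theorem v_toReal (n : ℕ) (hn : 1 ≤ n) :
    (v n).toReal = (1 / 2) ^ n * (√π ^ n / Gamma ((n : ℝ) / 2 + 1)) := by
  have : Nonempty (Fin n) := ⟨⟨0, hn⟩⟩
  unfold v
  rw [EuclideanSpace.volume_ball, Fintype.card_fin, ENNReal.toReal_mul, ENNReal.toReal_pow,
    ENNReal.toReal_ofReal (by norm_num), ENNReal.toReal_ofReal]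
  have : 0 < Gamma ((n : ℝ) / 2 + 1) := Real.Gamma_pos_of_pos (by positivity)
  positivity

theorem log_v (n : ℕ) (hn : 1 ≤ n) :
    log (v n).toReal = -(n * log 2) + n / 2 * log π - log (Gamma ((n : ℝ) / 2 + 1)) := by
  have hG : 0 < Gamma ((n : ℝ) / 2 + 1) := Real.Gamma_pos_of_pos (by positivity)
  have hs : (√π) ≠ 0 := (Real.sqrt_pos.2 Real.pi_pos).ne'
  rw [v_toReal n hn, Real.log_mul (by positivity) (by positivity), Real.log_pow,
    Real.log_div (by positivity) hG.ne', Real.log_pow, Real.log_sqrt Real.pi_pos.le, one_div,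
    Real.log_inv]
  ring

theorem v_toReal_pos (n : ℕ) : 0 < (v n).toReal :=
  ENNReal.toReal_pos (v_pos n).ne' (v_lt_top n).ne

theorem Delta_pos (n : ℕ) : 0 < Delta n := by
  have h := moser_le n 1 le_rfl (h := 1) one_pos (by norm_num)
  have h1 : (1 : ℝ) ≤ moser n := by exact_mod_cast one_le_moser n
  have h2 := v_toReal_pos n
  by_contra hcon
  push Not at hcon
  have h3 : Delta n * ((1 + 1) ^ n * (2 * n + 1) ^ (1 - 1)) ≤ 0 :=
    mul_nonpos_of_nonpos_of_nonneg hcon (by positivity)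
  nlinarith

/-- lower estimate -/
theorem log_Delta_le (n : ℕ) : log (Delta n) ≤ log (moser n) + log (v n).toReal := by
  have h1 : (0 : ℝ) < moser n := by exact_mod_cast one_le_moser n
  rw [← Real.log_mul h1.ne' (v_toReal_pos n).ne']
  exact Real.log_le_log (Delta_pos n) Delta_le

/-- upper estimate -/
theorem log_moser_le (n : ℕ) (hn : 2 ≤ n) :
    log (moser n) + log (v n).toReal ≤
      log (Delta n) + 4 * ((n : ℝ) ^ (2 / 3 : ℝ) * log n ^ (1 / 3 : ℝ)) := by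
  have h1 : (0 : ℝ) < moser n := by exact_mod_cast one_le_moser n
  have hn' : (2 : ℝ) ≤ n := by exact_mod_cast hn
  have hn0 : (0 : ℝ) < n := by linarith
  have hlog : 0 < log n := Real.log_pos (by linarith)
  set q : ℝ := n / log n with hq
  have hqpos : 0 < q := by positivity
  have hq1 : 1 ≤ q := by
    rw [hq, le_div_iff₀ hlog, one_mul]
    have := Real.log_le_sub_one_of_pos hn0
    linarith
  set d : ℕ := ⌈q ^ (2 / 3 : ℝ)⌉₊ with hd
  have hqp : 0 < q ^ (2 / 3 : ℝ) := Real.rpow_pos_of_pos hqpos _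
  have hd1 : 1 ≤ d := Nat.one_le_ceil_iff.2 hqp
  have hdge : q ^ (2 / 3 : ℝ) ≤ d := Nat.le_ceil _
  have hdlt : (d : ℝ) < q ^ (2 / 3 : ℝ) + 1 := Nat.ceil_lt_add_one hqp.le
  have hdpos : (0 : ℝ) < d := by exact_mod_cast hd1
  set h : ℝ := (√d)⁻¹ with hh
  have hhpos : 0 < h := inv_pos.2 (Real.sqrt_pos.2 hdpos)
  have hdh : 1 ≤ (d : ℝ) * h ^ 2 := by
    rw [hh, inv_pow, Real.sq_sqrt hdpos.le, mul_inv_cancel₀ hdpos.ne']
  have hmain := moser_le n d hd1 hhpos hdh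
  have hlog2 := Real.log_le_log (mul_pos h1 (v_toReal_pos n)) hmain
  rw [Real.log_mul h1.ne' (v_toReal_pos n).ne', Real.log_mul (Delta_pos n).ne' (by positivity),
    Real.log_mul (by positivity) (by positivity), Real.log_pow, Real.log_pow] at hlog2
  -- first error term
  have hq13 : q ^ (1 / 3 : ℝ) ≤ √d := by
    apply Real.le_sqrt_of_sq_le
    rw [← Real.rpow_natCast, ← Real.rpow_mul hqpos.le]
    norm_num
    exact hdge
  have hq13pos : 0 < q ^ (1 / 3 : ℝ) := Real.rpow_pos_of_pos hqpos _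
  have he1 : (n : ℝ) * log (1 + h) ≤ (n : ℝ) ^ (2 / 3 : ℝ) * log n ^ (1 / 3 : ℝ) := by
    have a1 : log (1 + h) ≤ h := by
      have := Real.log_le_sub_one_of_pos (by positivity : 0 < 1 + h)
      linarith
    have a2 : h ≤ (q ^ (1 / 3 : ℝ))⁻¹ := by
      rw [hh]
      exact inv_anti₀ hq13pos hq13
    have a3 : (n : ℝ) * (q ^ (1 / 3 : ℝ))⁻¹ = (n : ℝ) ^ (2 / 3 : ℝ) * log n ^ (1 / 3 : ℝ) := by
      rw [hq, Real.div_rpow hn0.le hlog.le, inv_div]
      have : (n : ℝ) = (n : ℝ) ^ (2 / 3 : ℝ) * (n : ℝ) ^ (1 / 3 : ℝ) := by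
        rw [← Real.rpow_add hn0]; norm_num
      have hp : (0 : ℝ) < (n : ℝ) ^ (1 / 3 : ℝ) := Real.rpow_pos_of_pos hn0 _
      rw [mul_div_assoc', div_eq_iff hp.ne']
      calc (n : ℝ) * log n ^ (1 / 3 : ℝ)
          = ((n : ℝ) ^ (2 / 3 : ℝ) * (n : ℝ) ^ (1 / 3 : ℝ)) * log n ^ (1 / 3 : ℝ) := by rw [← this]
        _ = _ := by ring
    calc (n : ℝ) * log (1 + h) ≤ n * (q ^ (1 / 3 : ℝ))⁻¹ :=
          mul_le_mul_of_nonneg_left (a1.trans a2) hn0.le
      _ = _ := a3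
  -- second error term
  have he2 : ((d - 1 : ℕ) : ℝ) * log (2 * n + 1) ≤
      3 * ((n : ℝ) ^ (2 / 3 : ℝ) * log n ^ (1 / 3 : ℝ)) := by
    have b1 : ((d - 1 : ℕ) : ℝ) ≤ q ^ (2 / 3 : ℝ) := by
      rw [Nat.cast_sub hd1]
      push_cast
      linarith
    have b2 : log (2 * (n : ℝ) + 1) ≤ 3 * log n := by
      have : (3 : ℝ) * log n = log ((n : ℝ) ^ 3) := by rw [Real.log_pow]; norm_num
      rw [this]
      apply Real.log_le_log (by positivity)
      nlinarith [sq_nonneg ((n : ℝ) - 2), mul_pos hn0 hn0]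
    have b3 : q ^ (2 / 3 : ℝ) * (3 * log n) =
        3 * ((n : ℝ) ^ (2 / 3 : ℝ) * log n ^ (1 / 3 : ℝ)) := by
      rw [hq, Real.div_rpow hn0.le hlog.le]
      have : log (n : ℝ) = log n ^ (2 / 3 : ℝ) * log n ^ (1 / 3 : ℝ) := by
        rw [← Real.rpow_add hlog]; norm_num
      have hp : (0 : ℝ) < log n ^ (2 / 3 : ℝ) := Real.rpow_pos_of_pos hlog _
      rw [div_mul_eq_mul_div, div_eq_iff hp.ne']
      calc (n : ℝ) ^ (2 / 3 : ℝ) * (3 * log n)
          = (n : ℝ) ^ (2 / 3 : ℝ) * (3 * (log n ^ (2 / 3 : ℝ) * log n ^ (1 / 3 : ℝ))) := by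
            rw [← this]
        _ = _ := by ring
    have b4 : 0 ≤ log (2 * (n : ℝ) + 1) := Real.log_nonneg (by linarith)
    calc ((d - 1 : ℕ) : ℝ) * log (2 * n + 1) ≤ q ^ (2 / 3 : ℝ) * (3 * log n) :=
          mul_le_mul b1 b2 b4 hqp.le
      _ = _ := b3
  linarith

theorem log_le_err (n : ℕ) (hn : 2 ≤ n) :
    log n ≤ (n : ℝ) ^ (2 / 3 : ℝ) * log n ^ (1 / 3 : ℝ) := by
  have hn' : (2 : ℝ) ≤ n := by exact_mod_cast hn
  have hn0 : (0 : ℝ) < n := by linarith
  have hlog : 0 < log n := Real.log_pos (by linarith)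
  have h1 : log n ≤ n := by
    have := Real.log_le_sub_one_of_pos hn0
    linarith
  calc log (n : ℝ) = log n ^ (2 / 3 : ℝ) * log n ^ (1 / 3 : ℝ) := by
        rw [← Real.rpow_add hlog]; norm_num
    _ ≤ _ := by
        apply mul_le_mul_of_nonneg_right _ (Real.rpow_nonneg hlog.le _)
        exact Real.rpow_le_rpow hlog.le h1 (by norm_num)

theorem main (n : ℕ) (hn : 2 ≤ n) :
    |log (moser n) - (n / 2 * log n - n / 2 * log (π * exp 1 / 2) + log (Delta n))| ≤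
      10 * ((n : ℝ) ^ (2 / 3 : ℝ) * log n ^ (1 / 3 : ℝ)) := by
  have h1 := log_Delta_le n
  have h2 := log_moser_le n hn
  have h3 := log_Gamma_le n hn
  have h4 := log_Gamma_ge n hn
  have h5 := log_v n (by omega)
  have h6 := log_le_err n hn
  have h7 : log (2 * exp 1) = log 2 + 1 := by
    rw [Real.log_mul (by norm_num) (exp_pos _).ne', Real.log_exp]
  have h8 : log (π * exp 1 / 2) = log π + 1 - log 2 := by
    rw [Real.log_div (by positivity) (by norm_num), Real.log_mul Real.pi_pos.ne' (exp_pos _).ne',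
      Real.log_exp]
  rw [h7] at h3 h4
  rw [h8, abs_le]
  rw [h5] at h1 h2
  have h9 : 0 ≤ (n : ℝ) ^ (2 / 3 : ℝ) * log n ^ (1 / 3 : ℝ) := by positivity
  constructor
  · linarith
  · linarith

end Pool.Agent.Helper5.Moser
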