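import Pool.Agent.Helper5.MoserUpper

/-!
# Elementary Stirling estimates
-/

open Real

namespace Pool.Agent.Helper5.Moser

theorem log_factorial_ge (k : ℕ) (hk : 1 ≤ k) : (k : ℝ) * log k - k ≤ log (k.factorial) := by
  have h := Real.pow_div_factorial_le_exp (k : ℝ) (Nat.cast_nonneg k) k
  have hk' : (0 : ℝ) < k := by exact_mod_cast hk
  have hf : (0 : ℝ) < k.factorial := by exact_mod_cast k.factorial_pos
  rw [div_le_iff₀ hf] at h
  have h2 := Real.log_le_log (by positivity) h
  rw [Real.log_pow, Real.log_mul (Real.exp_pos _).ne' hf.ne', Real.log_exp] at h2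
  linarith

theorem log_factorial_le (k : ℕ) (hk : 1 ≤ k) :
    log (k.factorial) ≤ ((k : ℝ) + 1) * log k - k + 1 := by
  induction k, hk using Nat.le_induction with
  | base => simp
  | succ k hk ih =>
    have hk' : (0 : ℝ) < k := by exact_mod_cast hk
    have hf : (0 : ℝ) < k.factorial := by exact_mod_cast k.factorial_pos
    rw [Nat.factorial_succ]
    push_cast
    rw [Real.log_mul (by positivity) hf.ne']
    have h1 : 1 / ((k : ℝ) + 1) ≤ log (((k : ℝ) + 1) / k) := by
      have := Real.one_sub_inv_le_log_of_pos (x := ((k : ℝ) + 1) / k) (by positivity)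
      refine le_trans (le_of_eq ?_) this
      field_simp
      ring
    rw [Real.log_div (by positivity) hk'.ne'] at h1
    have h2 : 1 ≤ ((k : ℝ) + 1) * (log ((k : ℝ) + 1) - log k) := by
      have := mul_le_mul_of_nonneg_left h1 (by positivity : (0 : ℝ) ≤ (k : ℝ) + 1)
      rwa [mul_one_div_cancel (by positivity)] at this
    nlinarith

theorem half_cases (n : ℕ) : ((n / 2 : ℕ) : ℝ) = n / 2 ∨ ((n / 2 : ℕ) : ℝ) = ((n : ℝ) - 1) / 2 := by
  rcases Nat.even_or_odd' n with ⟨m, h | h⟩
  · left
    subst h
    rw [Nat.mul_div_cancel_left _ (by norm_num)]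
    push_cast; ring
  · right
    subst h
    have : (2 * m + 1) / 2 = m := by omega
    rw [this]
    push_cast; ring

theorem log_two_bounds (n : ℕ) (hn : 2 ≤ n) : (1 / 2 : ℝ) ≤ log n := by
  have h := Real.log_two_gt_d9
  have h2 : log 2 ≤ log n := Real.log_le_log (by norm_num) (by exact_mod_cast hn)
  linarith

theorem log_Gamma_le (n : ℕ) (hn : 2 ≤ n) :
    log (Gamma ((n : ℝ) / 2 + 1)) ≤ (n : ℝ) / 2 * log n - n / 2 * log (2 * exp 1) + 6 * log n := by
  have hk : 1 ≤ n / 2 := by omega
  have hn' : (2 : ℝ) ≤ n := by exact_mod_cast hn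
  have hcase := half_cases n
  set k := n / 2 with hkdef
  have hk' : (1 : ℝ) ≤ k := by exact_mod_cast hk
  have hkn : (k : ℝ) ≤ n / 2 := by rcases hcase with h | h <;> linarith
  have hkn2 : ((n : ℝ) - 1) / 2 ≤ k := by rcases hcase with h | h <;> linarith
  have hmono : Gamma ((n : ℝ) / 2 + 1) ≤ Gamma ((k : ℝ) + 1 + 1) := by
    apply Real.Gamma_strictMonoOn_Ici.monotoneOn
    · simp only [Set.mem_Ici]; linarith
    · simp only [Set.mem_Ici]; linarith
    · linarith
  have hfac : Gamma ((k : ℝ) + 1 + 1) = (k + 1).factorial := by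
    have := Real.Gamma_nat_eq_factorial (k + 1)
    push_cast at this
    exact this
  rw [hfac] at hmono
  have hGpos : 0 < Gamma ((n : ℝ) / 2 + 1) := Real.Gamma_pos_of_pos (by positivity)
  have h1 := Real.log_le_log hGpos hmono
  have h2 : log ((k + 1).factorial : ℝ) = log ((k : ℝ) + 1) + log (k.factorial) := by
    rw [Nat.factorial_succ]
    push_cast
    rw [Real.log_mul (by positivity) (by exact_mod_cast k.factorial_pos.ne')]
  have h3 := log_factorial_le k hk
  have h4 : log (k : ℝ) ≤ log n - log 2 := by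
    rw [← Real.log_div (by positivity) (by norm_num)]
    exact Real.log_le_log (by linarith) hkn
  have h5 : log ((k : ℝ) + 1) ≤ log n := Real.log_le_log (by positivity) (by linarith)
  have h6 : 0 ≤ log n - log 2 := by
    rw [← Real.log_div (by positivity) (by norm_num)]
    exact Real.log_nonneg (by linarith)
  have h7 : ((k : ℝ) + 1) * log k ≤ (n / 2 + 1) * (log n - log 2) := by
    have a1 : ((k : ℝ) + 1) * log k ≤ (k + 1) * (log n - log 2) :=
      mul_le_mul_of_nonneg_left h4 (by positivity)
    have a2 : ((k : ℝ) + 1) * (log n - log 2) ≤ (n / 2 + 1) * (log n - log 2) :=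
      mul_le_mul_of_nonneg_right (by linarith) h6
    linarith
  have h8 : log (2 * exp 1) = log 2 + 1 := by
    rw [Real.log_mul (by norm_num) (exp_pos _).ne', Real.log_exp]
  have h9 := log_two_bounds n hn
  have h10 := Real.log_two_gt_d9
  rw [h8]
  nlinarith

theorem log_Gamma_ge (n : ℕ) (hn : 2 ≤ n) :
    (n : ℝ) / 2 * log n - n / 2 * log (2 * exp 1) - log n ≤ log (Gamma ((n : ℝ) / 2 + 1)) := by
  have hk : 1 ≤ n / 2 := by omega
  have hn' : (2 : ℝ) ≤ n := by exact_mod_cast hn
  have hcase := half_cases n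
  set k := n / 2 with hkdef
  have hk' : (1 : ℝ) ≤ k := by exact_mod_cast hk
  have hkn : (k : ℝ) ≤ n / 2 := by rcases hcase with h | h <;> linarith
  have hmono : Gamma ((k : ℝ) + 1) ≤ Gamma ((n : ℝ) / 2 + 1) := by
    apply Real.Gamma_strictMonoOn_Ici.monotoneOn
    · simp only [Set.mem_Ici]; linarith
    · simp only [Set.mem_Ici]; linarith
    · linarith
  rw [Real.Gamma_nat_eq_factorial] at hmono
  have hfpos : (0 : ℝ) < k.factorial := by exact_mod_cast k.factorial_pos
  have h1 := Real.log_le_log hfpos hmono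
  have h2 := log_factorial_ge k hk
  have h8 : log (2 * exp 1) = log 2 + 1 := by
    rw [Real.log_mul (by norm_num) (exp_pos _).ne', Real.log_exp]
  have h9 := log_two_bounds n hn
  have h10 := Real.log_two_gt_d9
  rw [h8]
  rcases hcase with h | h
  · have h3 : log (k : ℝ) = log n - log 2 := by
      rw [h, Real.log_div (by positivity) (by norm_num)]
    rw [h3, h] at h2
    nlinarith
  · have hnk : (n : ℝ) = 2 * k + 1 := by linarith
    have h3 : log (n : ℝ) - log 2 - log k ≤ 1 / (2 * k) := by
      have e1 : log (n : ℝ) - log 2 - log k = log ((n : ℝ) / 2 / k) := by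
        rw [Real.log_div (by positivity) (by positivity), Real.log_div (by positivity) (by norm_num)]
      rw [e1]
      refine (Real.log_le_sub_one_of_pos (by positivity)).trans (le_of_eq ?_)
      rw [hnk]
      field_simp
      ring
    have h4 : (k : ℝ) * (log (n : ℝ) - log 2 - log k) ≤ 1 / 2 := by
      have := mul_le_mul_of_nonneg_left h3 (by positivity : (0 : ℝ) ≤ k)
      refine this.trans (le_of_eq ?_)
      field_simp
    have h5 : (n : ℝ) / 2 * (log n - log 2) = k * (log n - log 2) + 1 / 2 * (log n - log 2) := by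
      rw [hnk]; ring
    have h6 : (n : ℝ) / 2 = k + 1 / 2 := by linarith
    nlinarith

end Pool.Agent.Helper5.Moser
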