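import Pool.Agent.Helper5.MoserLower
import Pool.Agent.Helper5.MoserCode

/-!
# Tiling with copies of an optimal configuration placed along a code
-/

open MeasureTheory Metric Set Filter
open scoped ENNReal Topology

namespace Pool.Agent.Helper5.Moser

variable {n : ℕ}

/-- integer vector as a point of Euclidean space -/
noncomputable def toE (w : Fin n → ℤ) : E n := WithLp.toLp 2 fun i => (w i : ℝ)

@[simp] theorem toE_apply (w : Fin n → ℤ) (i : Fin n) : toE w i = w i := rfl

/-- the integer points in a ball -/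
noncomputable def zball (n : ℕ) (ρ : ℝ) : Finset (Fin n → ℤ) := by
  classical
  exact (Fintype.piFinset fun _ => Finset.Icc (-⌈ρ⌉) ⌈ρ⌉).filter fun w => ‖toE w‖ ≤ ρ

theorem abs_coord_le (x : E n) (i : Fin n) : |x i| ≤ ‖x‖ := by
  have := PiLp.norm_apply_le x i
  simpa [Real.norm_eq_abs] using this

theorem mem_zball {ρ : ℝ} {w : Fin n → ℤ} : w ∈ zball n ρ ↔ ‖toE w‖ ≤ ρ := by
  classical
  unfold zball
  rw [Finset.mem_filter]
  refine ⟨fun h => h.2, fun h => ⟨?_, h⟩⟩
  rw [Fintype.mem_piFinset]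
  intro i
  have h1 : |(w i : ℝ)| ≤ ρ := (abs_coord_le (toE w) i).trans h
  rw [abs_le] at h1
  rw [Finset.mem_Icc]
  have h2 := Int.le_ceil ρ
  constructor
  · have : (-(⌈ρ⌉ : ℤ) : ℝ) ≤ w i := by linarith
    exact_mod_cast this
  · have : (w i : ℝ) ≤ (⌈ρ⌉ : ℤ) := by linarith
    exact_mod_cast this

theorem volume_ball_le_zball (ρ : ℝ) :
    volume (ball (0 : E n) (ρ - Real.sqrt n)) ≤ (zball n ρ).card := by
  classical
  have hcov : ball (0 : E n) (ρ - Real.sqrt n) ⊆
      ⋃ w ∈ zball n ρ, {y : E n | y - toE w ∈ cube n} := by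
    intro y hy
    rw [mem_ball_zero_iff] at hy
    have hc : y - toE (fun i => ⌊y i⌋) ∈ cube n := by
      intro i
      have h1 := Int.floor_le (y i)
      have h2 := Int.lt_floor_add_one (y i)
      rw [PiLp.sub_apply, toE_apply]
      constructor <;> linarith
    simp only [mem_iUnion, exists_prop]
    refine ⟨fun i => ⌊y i⌋, ?_, hc⟩
    rw [mem_zball]
    have h3 := cube_norm hc
    calc ‖toE fun i => ⌊y i⌋‖ = ‖y - (y - toE fun i => ⌊y i⌋)‖ := by rw [sub_sub_cancel]
      _ ≤ ‖y‖ + ‖y - toE fun i => ⌊y i⌋‖ := norm_sub_le _ _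
      _ ≤ ρ := by linarith
  have h1 : ∀ w : Fin n → ℤ, volume {y : E n | y - toE w ∈ cube n} = 1 := by
    intro w
    have := (measurePreserving_sub_right (volume : Measure (E n)) (toE w)).measure_preimage
      (measurableSet_cube n).nullMeasurableSet
    rw [volume_cube] at this
    exact this
  calc volume (ball (0 : E n) (ρ - Real.sqrt n))
      ≤ volume (⋃ w ∈ zball n ρ, {y : E n | y - toE w ∈ cube n}) := measure_mono hcov
    _ ≤ ∑ w ∈ zball n ρ, volume {y : E n | y - toE w ∈ cube n} := measure_biUnion_finset_le _ _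
    _ = (zball n ρ).card := by rw [Finset.sum_congr rfl fun w _ => h1 w]; simp

/-- the point of the big packing with cell `z` and inner point `x` -/
noncomputable def pt (h : ℝ) (z : Fin n → ℤ) (x : E n) : E n := (1 + h) • toE z + x

@[simp] theorem pt_apply (h : ℝ) (z : Fin n → ℤ) (x : E n) (i : Fin n) :
    pt h z x i = (1 + h) * z i + x i := by
  simp [pt]

/-- reduction modulo three -/
def red (z : Fin n → ℤ) : Fin n → ZMod 3 := fun i => (z i : ZMod 3)

theorem dist_pt {d : ℕ} {C : Finset (Fin n → ZMod 3)} (hC : IsCode d C) {h : ℝ} (hh : 0 < h)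
    (hd : 1 ≤ d * h ^ 2) {z z' : Fin n → ℤ} (hz : red z ∈ C) (hz' : red z' ∈ C) (hne : z ≠ z')
    {x x' : E n} (hx : x ∈ cube n) (hx' : x' ∈ cube n) :
    1 ≤ dist (pt h z x) (pt h z' x') := by
  have hco : ∀ i, |(pt h z x - pt h z' x') i| = |(1 + h) * ((z i : ℝ) - z' i) + (x i - x' i)| := by
    intro i
    rw [PiLp.sub_apply, pt_apply, pt_apply]
    congr 1; ring
  have hxx : ∀ i, |x i - x' i| ≤ 1 := by
    intro i
    rw [abs_le]
    have := hx i; have := hx' i
    constructor <;> linarith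
  have hlow : ∀ i (k : ℝ), k ≤ |(z i : ℝ) - z' i| →
      (1 + h) * k - 1 ≤ |(pt h z x - pt h z' x') i| := by
    intro i k hk
    rw [hco]
    have h1 : |(1 + h) * ((z i : ℝ) - z' i)| = (1 + h) * |(z i : ℝ) - z' i| := by
      rw [abs_mul, abs_of_pos (by linarith : (0 : ℝ) < 1 + h)]
    have h2 := abs_sub_abs_le_abs_sub ((1 + h) * ((z i : ℝ) - z' i)) (-(x i - x' i))
    rw [sub_neg_eq_add, abs_neg, h1] at h2
    have h3 := hxx i
    have h4 : (1 + h) * k ≤ (1 + h) * |(z i : ℝ) - z' i| :=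
      mul_le_mul_of_nonneg_left hk (by linarith)
    linarith
  rw [dist_eq_norm]
  by_cases hbig : ∃ i, 2 ≤ |z i - z' i|
  · obtain ⟨i, hi⟩ := hbig
    have hi' : (2 : ℝ) ≤ |(z i : ℝ) - z' i| := by exact_mod_cast hi
    have h1 := hlow i 2 hi'
    have h2 := abs_coord_le (pt h z x - pt h z' x') i
    linarith
  · push Not at hbig
    have hdiff : ∀ i, z i ≠ z' i → red z i ≠ red z' i := by
      intro i hi heq
      have h1 := hbig i
      have h2 : ((z i - z' i : ℤ) : ZMod 3) = 0 := by
        have : (z i : ZMod 3) = (z' i : ZMod 3) := heq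
        push_cast
        rw [this, sub_self]
      rw [ZMod.intCast_zmod_eq_zero_iff_dvd] at h2
      obtain ⟨k, hk⟩ := h2
      have h3 : z i - z' i ≠ 0 := sub_ne_zero.2 hi
      rw [abs_lt] at h1
      push_cast at hk
      omega
    have hrne : red z ≠ red z' := by
      intro heq
      apply hne
      funext i
      by_contra hi
      exact hdiff i hi (by rw [heq])
    have hham := hC _ hz _ hz' hrne
    have hsq : 1 ≤ ‖pt h z x - pt h z' x'‖ ^ 2 := by
      rw [EuclideanSpace.norm_sq_eq]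
      calc (1 : ℝ) ≤ d * h ^ 2 := hd
        _ ≤ (Finset.univ.filter fun i => red z i ≠ red z' i).card * h ^ 2 := by
            have : (d : ℝ) ≤ (Finset.univ.filter fun i => red z i ≠ red z' i).card := by
              exact_mod_cast hham
            exact mul_le_mul_of_nonneg_right this (by positivity)
        _ = ∑ _i ∈ Finset.univ.filter fun i => red z i ≠ red z' i, h ^ 2 := by
            rw [Finset.sum_const, nsmul_eq_mul]
        _ ≤ ∑ i ∈ Finset.univ.filter fun i => red z i ≠ red z' i,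
              ‖(pt h z x - pt h z' x') i‖ ^ 2 := by
            apply Finset.sum_le_sum
            intro i hi
            rw [Finset.mem_filter] at hi
            have h1 : z i ≠ z' i := fun heq => hi.2 (by simp [red, heq])
            have h2 : (1 : ℝ) ≤ |(z i : ℝ) - z' i| := by
              have : 1 ≤ |z i - z' i| := Int.one_le_abs (sub_ne_zero.2 h1)
              exact_mod_cast this
            have h3 := hlow i 1 h2
            rw [Real.norm_eq_abs]
            apply pow_le_pow_left₀ hh.le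
            linarith
        _ ≤ ∑ i, ‖(pt h z x - pt h z' x') i‖ ^ 2 := by
            apply Finset.sum_le_sum_of_subset_of_nonneg (Finset.filter_subset _ _)
            intro i _ _
            positivity
    nlinarith [norm_nonneg (pt h z x - pt h z' x')]

/-- the big packing -/
def big (h : ℝ) (C : Finset (Fin n → ZMod 3)) (X : Finset (E n)) : Set (E n) :=
  {p | ∃ z, red z ∈ C ∧ ∃ x ∈ X, p = pt h z x}

theorem sep_big {d : ℕ} {C : Finset (Fin n → ZMod 3)} (hC : IsCode d C) {h : ℝ} (hh : 0 < h)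
    (hd : 1 ≤ d * h ^ 2) {X : Finset (E n)} (hX : ∀ x ∈ X, x ∈ cube n)
    (hsep : Sep (X : Set (E n))) : Sep (big h C X) := by
  rintro p ⟨z, hz, x, hx, rfl⟩ q ⟨z', hz', x', hx', rfl⟩ hpq
  by_cases hzz : z = z'
  · subst hzz
    have hxx : x ≠ x' := fun heq => hpq (by rw [heq])
    have := hsep x hx x' hx' hxx
    unfold pt
    rwa [dist_add_left]
  · exact dist_pt hC hh hd hz hz' hzz (hX x hx) (hX x' hx')

/-- integer vector with given quotient and residue -/
def zc (w : Fin n → ℤ) (c : Fin n → ZMod 3) : Fin n → ℤ := fun i => 3 * w i + (c i).val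

theorem red_zc (w : Fin n → ℤ) (c : Fin n → ZMod 3) : red (zc w c) = c := by
  funext i
  simp only [red, zc]
  push_cast
  have h3 : (3 : ZMod 3) = 0 := by decide
  rw [h3, zero_mul, zero_add]
  exact ZMod.natCast_zmod_val (c i)

theorem zc_inj {w w' : Fin n → ℤ} {c c' : Fin n → ZMod 3} (h : zc w c = zc w' c') :
    w = w' ∧ c = c' := by
  have hc : c = c' := by rw [← red_zc w c, h, red_zc]
  refine ⟨?_, hc⟩
  subst hc
  funext i
  have := congrFun h i
  simp only [zc] at this
  omega

theorem norm_pt_le {h : ℝ} (hh : 0 < h) (w : Fin n → ℤ) (c : Fin n → ZMod 3) {x : E n}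
    (hx : x ∈ cube n) :
    ‖pt h (zc w c) x‖ ≤ 3 * (1 + h) * (‖toE w‖ + Real.sqrt n) := by
  set y : E n := (3 * (1 + h))⁻¹ • (pt h (zc w c) x - (3 * (1 + h)) • toE w) with hy
  have hpos : 0 < 3 * (1 + h) := by positivity
  have hyc : y ∈ cube n := by
    intro i
    have hval : ((c i).val : ℝ) ≤ 2 := by
      have : (c i).val < 3 := ZMod.val_lt (c i)
      exact_mod_cast Nat.lt_succ_iff.1 this
    have hval0 : (0 : ℝ) ≤ (c i).val := Nat.cast_nonneg _
    have hyi : y i = (3 * (1 + h))⁻¹ * ((1 + h) * (c i).val + x i) := by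
      rw [hy]
      simp only [PiLp.smul_apply, PiLp.sub_apply, pt_apply, toE_apply, zc, smul_eq_mul]
      push_cast
      ring
    have hxi := hx i
    rw [hyi]
    constructor
    · have := hxi.1
      positivity
    · rw [inv_mul_le_iff₀ hpos]
      nlinarith [hxi.2]
  have hyn := cube_norm hyc
  have hpt : pt h (zc w c) x = (3 * (1 + h)) • (toE w + y) := by
    rw [hy, smul_add, smul_inv_smul₀ hpos.ne']
    abel
  rw [hpt, norm_smul, Real.norm_eq_abs, abs_of_pos hpos]
  apply mul_le_mul_of_nonneg_left _ hpos.le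
  exact (norm_add_le _ _).trans (by linarith)

theorem vol_big_ge {d : ℕ} {C : Finset (Fin n → ZMod 3)} (hC : IsCode d C) {h : ℝ} (hh : 0 < h)
    (hd : 1 ≤ d * h ^ 2) {X : Finset (E n)} (hX : ∀ x ∈ X, x ∈ cube n)
    (hsep : Sep (X : Set (E n))) (R ρ : ℝ)
    (hR : 3 * (1 + h) * (ρ + Real.sqrt n) + 1 / 2 ≤ R) :
    (C.card : ℝ≥0∞) * X.card * v n * volume (ball (0 : E n) (ρ - Real.sqrt n)) ≤
      volume ((⋃ x ∈ big h C X, ball x (1 / 2)) ∩ ball 0 R) := by
  classical
  set F : Finset (E n) := ((zball n ρ ×ˢ C) ×ˢ X).image fun p => pt h (zc p.1.1 p.1.2) p.2 with hF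
  have hFcard : F.card = (zball n ρ).card * C.card * X.card := by
    rw [hF, Finset.card_image_of_injOn, Finset.card_product, Finset.card_product]
    rintro ⟨⟨w, c⟩, x⟩ h1 ⟨⟨w', c'⟩, x'⟩ h2 heq
    simp only [Finset.coe_product, Set.mem_prod, Finset.mem_coe] at h1 h2
    simp only at heq
    have hz : zc w c = zc w' c' := by
      by_contra hne
      have := dist_pt hC hh hd (z := zc w c) (z' := zc w' c') (by rw [red_zc]; exact h1.1.2)
        (by rw [red_zc]; exact h2.1.2) hne (hX x h1.2) (hX x' h2.2)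
      rw [heq, dist_self] at this
      linarith
    obtain ⟨rfl, rfl⟩ := zc_inj hz
    have hx : x = x' := by
      unfold pt at heq
      exact add_left_cancel heq
    rw [hx]
  have hFsub : ∀ p ∈ F, p ∈ big h C X := by
    intro p hp
    rw [hF, Finset.mem_image] at hp
    obtain ⟨⟨⟨w, c⟩, x⟩, h1, rfl⟩ := hp
    simp only [Finset.mem_product] at h1
    exact ⟨zc w c, by rw [red_zc]; exact h1.1.2, x, h1.2, rfl⟩
  have hFsep : Sep (F : Set (E n)) := (sep_big hC hh hd hX hsep).mono fun p hp => hFsub p hp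
  have h1 := card_mul_le F hFsep ((⋃ x ∈ big h C X, ball x (1 / 2)) ∩ ball 0 R) (by
    intro p hp
    apply subset_inter
    · exact subset_iUnion₂_of_subset p (hFsub p hp) subset_rfl
    · apply ball_subset_ball'
      rw [dist_zero_right]
      rw [hF, Finset.mem_image] at hp
      obtain ⟨⟨⟨w, c⟩, x⟩, h1, rfl⟩ := hp
      simp only [Finset.mem_product] at h1
      have h2 := norm_pt_le hh w c (hX x h1.2)
      have h3 := mem_zball.1 h1.1.1
      have h4 : 3 * (1 + h) * (‖toE w‖ + Real.sqrt n) ≤ 3 * (1 + h) * (ρ + Real.sqrt n) := by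
        apply mul_le_mul_of_nonneg_left _ (by positivity)
        linarith
      linarith)
  calc (C.card : ℝ≥0∞) * X.card * v n * volume (ball (0 : E n) (ρ - Real.sqrt n))
      ≤ (C.card : ℝ≥0∞) * X.card * v n * (zball n ρ).card := by
        gcongr
        exact volume_ball_le_zball ρ
    _ = (F.card : ℝ≥0∞) * v n := by
        rw [hFcard]; push_cast; ring
    _ ≤ _ := h1

theorem tendsto_ratio' (c a : ℝ) (ha : 0 < a) :
    Tendsto (fun R : ℝ => ENNReal.ofReal (((R - c) / a / R) ^ n)) atTop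
      (𝓝 (ENNReal.ofReal ((1 / a) ^ n))) := by
  have h1 : Tendsto (fun R : ℝ => (R - c) / a / R) atTop (𝓝 (1 / a)) := by
    have : Tendsto (fun R : ℝ => 1 / a - c / a / R) atTop (𝓝 (1 / a - 0)) :=
      tendsto_const_nhds.sub (tendsto_const_nhds.div_atTop tendsto_id)
    rw [sub_zero] at this
    apply this.congr'
    filter_upwards [eventually_gt_atTop 0] with R hR
    field_simp
  exact ENNReal.tendsto_ofReal (h1.pow n)

theorem dens_big_ge {d : ℕ} {C : Finset (Fin n → ZMod 3)} (hC : IsCode d C) {h : ℝ} (hh : 0 < h)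
    (hd : 1 ≤ d * h ^ 2) {X : Finset (E n)} (hX : ∀ x ∈ X, x ∈ cube n)
    (hsep : Sep (X : Set (E n))) :
    (C.card : ℝ≥0∞) * X.card * v n * ENNReal.ofReal ((1 / (3 * (1 + h))) ^ n) ≤
      dens (big h C X) := by
  have hpos : 0 < 3 * (1 + h) := by positivity
  set c : ℝ := 1 / 2 + 6 * (1 + h) * Real.sqrt n with hc
  have hlim : Tendsto (fun R : ℝ => ((C.card : ℝ≥0∞) * X.card * v n) *
      ENNReal.ofReal (((R - c) / (3 * (1 + h)) / R) ^ n)) atTop
      (𝓝 (((C.card : ℝ≥0∞) * X.card * v n) * ENNReal.ofReal ((1 / (3 * (1 + h))) ^ n))) := by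
    apply ENNReal.Tendsto.const_mul (tendsto_ratio' _ _ hpos)
    right
    exact ENNReal.mul_ne_top (ENNReal.mul_ne_top (ENNReal.natCast_ne_top _)
      (ENNReal.natCast_ne_top _)) (v_lt_top n).ne
  unfold dens
  rw [← hlim.limsup_eq]
  refine limsup_le_limsup ?_
  filter_upwards [eventually_gt_atTop 0, eventually_gt_atTop c] with R hR hRc
  have hRc' : 0 < (R - c) / (3 * (1 + h)) := div_pos (by linarith) hpos
  have hratio : volume (ball (0 : E n) ((R - c) / (3 * (1 + h)))) / volume (ball (0 : E n) R) =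
      ENNReal.ofReal (((R - c) / (3 * (1 + h)) / R) ^ n) := by
    rw [Measure.addHaar_ball_of_pos _ _ hRc', Measure.addHaar_ball_of_pos _ _ hR]
    have hV : volume (ball (0 : E n) 1) ≠ 0 := (measure_ball_pos _ _ one_pos).ne'
    have hV' : volume (ball (0 : E n) 1) ≠ ⊤ := measure_ball_lt_top.ne
    rw [ENNReal.mul_div_mul_right _ _ hV hV', ← ENNReal.ofReal_div_of_pos (by positivity),
      finrank_euclideanSpace_fin, ← div_pow]
  rw [← hratio, ← mul_div_assoc]
  gcongr
  have hkey := vol_big_ge hC hh hd hX hsep R ((R - c) / (3 * (1 + h)) + Real.sqrt n) (by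
    have : 3 * (1 + h) * ((R - c) / (3 * (1 + h)) + Real.sqrt n + Real.sqrt n) =
        (R - c) + 6 * (1 + h) * Real.sqrt n := by
      field_simp
      ring
    rw [this, hc]
    linarith)
  rwa [add_sub_cancel_right] at hkey

/-- main inequality -/
theorem moser_le (n d : ℕ) (hd1 : 1 ≤ d) {h : ℝ} (hh : 0 < h) (hd : 1 ≤ d * h ^ 2) :
    (moser n : ℝ) * (v n).toReal ≤ Delta n * ((1 + h) ^ n * (2 * n + 1) ^ (d - 1)) := by
  obtain ⟨X, hX, hsep, hcard⟩ := moser_mem n
  obtain ⟨C, hC, hCcard⟩ := exists_code n d hd1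
  have h1 := dens_big_ge hC hh hd hX hsep
  have h2 := le_Delta (sep_big hC hh hd hX hsep)
  have hfin : dens (big h C X) ≠ ⊤ :=
    (lt_of_le_of_lt (dens_le (sep_big hC hh hd hX hsep))
      (ENNReal.mul_lt_top (ENNReal.natCast_lt_top _) (v_lt_top n))).ne
  have h3 := ENNReal.toReal_mono hfin h1
  have hpos : 0 < 3 * (1 + h) := by positivity
  rw [ENNReal.toReal_mul, ENNReal.toReal_mul, ENNReal.toReal_mul, ENNReal.toReal_natCast,
    ENNReal.toReal_natCast, ENNReal.toReal_ofReal (by positivity), hcard] at h3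
  have h4 : (C.card : ℝ) * moser n * (v n).toReal * (1 / (3 * (1 + h))) ^ n ≤ Delta n :=
    h3.trans h2
  have h5 : (3 : ℝ) ^ n ≤ C.card * (2 * n + 1) ^ (d - 1) := by exact_mod_cast hCcard
  have hD : 0 ≤ Delta n := ENNReal.toReal_nonneg
  have hv : 0 ≤ (v n).toReal := ENNReal.toReal_nonneg
  have h6 : (C.card : ℝ) * (moser n * (v n).toReal) ≤ Delta n * (3 * (1 + h)) ^ n := by
    rw [one_div, inv_pow, ← div_eq_mul_inv, div_le_iff₀ (by positivity)] at h4
    linarith
  have h7 : (3 : ℝ) ^ n * (moser n * (v n).toReal) ≤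
      Delta n * (3 * (1 + h)) ^ n * (2 * n + 1) ^ (d - 1) := by
    calc (3 : ℝ) ^ n * (moser n * (v n).toReal)
        ≤ (C.card * (2 * n + 1) ^ (d - 1)) * (moser n * (v n).toReal) :=
          mul_le_mul_of_nonneg_right h5 (by positivity)
      _ = (C.card * (moser n * (v n).toReal)) * (2 * n + 1) ^ (d - 1) := by ring
      _ ≤ _ := mul_le_mul_of_nonneg_right h6 (by positivity)
  rw [mul_pow] at h7
  have h8 : (3 : ℝ) ^ n * (moser n * (v n).toReal) ≤
      3 ^ n * (Delta n * ((1 + h) ^ n * (2 * n + 1) ^ (d - 1))) := by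
    linarith
  exact le_of_mul_le_mul_left h8 (by positivity)

end Pool.Agent.Helper5.Moser
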