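import Pool.Agent.Helper5.MacroDFA

set_option autoImplicit false

/-!
The class of languages accepted by two-way multihead DFAs is closed under inverse images of the
odometer map `pad k`.
-/

namespace Pool.Agent.Helper5

section digits

open Classical in
/-- odometer increment (wrapping around) -/
noncomputable def incD {k : ℕ} (B : ℕ) (p : Fin k → ℕ) : Fin k → ℕ := fun j =>
  if (∀ i, i < j → p i = B - 1) then (if p j = B - 1 then 0 else p j + 1) else p j

open Classical in
/-- odometer decrement (wrapping around) -/
noncomputable def decD {k : ℕ} (B : ℕ) (p : Fin k → ℕ) : Fin k → ℕ := fun j =>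
  if (∀ i, i < j → p i = 0) then (if p j = 0 then B - 1 else p j - 1) else p j

lemma forall_lt_castSucc {k : ℕ} (j : Fin k) (f : Fin (k + 1) → Prop) :
    (∀ i, i < j.castSucc → f i) ↔ ∀ i : Fin k, i < j → f i.castSucc := by
  constructor
  · intro h i hi
    exact h _ (by simpa using hi)
  · intro h i hi
    have hlt : (i : ℕ) < k := lt_of_lt_of_le (by simpa [Fin.lt_def] using hi) (le_of_lt j.2)
    have := h ⟨i, hlt⟩ (by simpa [Fin.lt_def] using hi)
    simpa using this

lemma forall_lt_last {k : ℕ} (f : Fin (k + 1) → Prop) :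
    (∀ i, i < Fin.last k → f i) ↔ ∀ i : Fin k, f i.castSucc := by
  constructor
  · intro h i
    exact h _ (Fin.castSucc_lt_last i)
  · intro h i hi
    have hlt : (i : ℕ) < k := by simpa [Fin.lt_def] using hi
    have := h ⟨i, hlt⟩
    simpa using this

lemma incD_castSucc {k : ℕ} (B : ℕ) (p : Fin (k + 1) → ℕ) (j : Fin k) :
    incD B p j.castSucc = incD B (fun i : Fin k => p i.castSucc) j := by
  unfold incD
  simp only [forall_lt_castSucc j (fun i => p i = B - 1)]

lemma decD_castSucc {k : ℕ} (B : ℕ) (p : Fin (k + 1) → ℕ) (j : Fin k) :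
    decD B p j.castSucc = decD B (fun i : Fin k => p i.castSucc) j := by
  unfold decD
  simp only [forall_lt_castSucc j (fun i => p i = 0)]

lemma incD_code {B : ℕ} (hB : 0 < B) : ∀ {k : ℕ} (p : Fin k → ℕ), (∀ i, p i < B) →
    ((∀ i, p i = B - 1) → code B (incD B p) = 0 ∧ code B p + 1 = B ^ k) ∧
    (¬ (∀ i, p i = B - 1) → code B (incD B p) = code B p + 1) := by
  intro k
  induction k with
  | zero =>
    intro p _
    refine ⟨fun _ => by simp [code], fun h => absurd (fun i => i.elim0) h⟩
  | succ k ih =>
    intro p hp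
    obtain ⟨ih1, ih2⟩ := ih (fun i => p i.castSucc) (fun i => hp _)
    have hsplit : (∀ i, p i = B - 1) ↔ (∀ i : Fin k, p i.castSucc = B - 1) ∧
        p (Fin.last k) = B - 1 := by
      constructor
      · intro h; exact ⟨fun i => h _, h _⟩
      · rintro ⟨h1, h2⟩ i
        exact Fin.lastCases h2 h1 i
    have hlow : code B (incD B p) = code B (incD B (fun i : Fin k => p i.castSucc)) +
        incD B p (Fin.last k) * B ^ k := by
      rw [code_succ]
      congr 2
      funext i
      exact incD_castSucc B p i
    have hlast : incD B p (Fin.last k) = if (∀ i : Fin k, p i.castSucc = B - 1) then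
        (if p (Fin.last k) = B - 1 then 0 else p (Fin.last k) + 1) else p (Fin.last k) := by
      unfold incD
      simp only [forall_lt_last (fun i => p i = B - 1)]
    have hpl := hp (Fin.last k)
    rw [hsplit, hlow, hlast, code_succ]
    by_cases h1 : ∀ i : Fin k, p i.castSucc = B - 1
    · obtain ⟨e1, e2⟩ := ih1 h1
      rw [e1]
      generalize hC : code B (fun i : Fin k => p i.castSucc) = C at *
      by_cases h2 : p (Fin.last k) = B - 1
      · refine ⟨fun _ => ?_, fun hn => absurd ⟨h1, h2⟩ hn⟩
        rw [if_pos h1, if_pos h2, h2]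
        refine ⟨by ring, ?_⟩
        obtain ⟨b, rfl⟩ : ∃ b, B = b + 1 := ⟨B - 1, by omega⟩
        simp only [Nat.add_sub_cancel]
        have : C + b * (b + 1) ^ k + 1 = (C + 1) + b * (b + 1) ^ k := by ring
        rw [this, e2]
        ring
      · refine ⟨fun hn => absurd hn.2 h2, fun _ => ?_⟩
        rw [if_pos h1, if_neg h2, add_mul, one_mul, ← e2]
        ring
    · have e := ih2 h1
      refine ⟨fun hn => absurd hn.1 h1, fun _ => ?_⟩
      rw [if_neg h1, e]
      ring

lemma decD_code {B : ℕ} (hB : 0 < B) : ∀ {k : ℕ} (p : Fin k → ℕ), (∀ i, p i < B) →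
    ((∀ i, p i = 0) → code B (decD B p) + 1 = B ^ k ∧ code B p = 0) ∧
    (¬ (∀ i, p i = 0) → code B (decD B p) + 1 = code B p) := by
  intro k
  induction k with
  | zero =>
    intro p _
    refine ⟨fun _ => by simp [code], fun h => absurd (fun i => i.elim0) h⟩
  | succ k ih =>
    intro p hp
    obtain ⟨ih1, ih2⟩ := ih (fun i => p i.castSucc) (fun i => hp _)
    have hsplit : (∀ i, p i = 0) ↔ (∀ i : Fin k, p i.castSucc = 0) ∧
        p (Fin.last k) = 0 := by
      constructor
      · intro h; exact ⟨fun i => h _, h _⟩
      · rintro ⟨h1, h2⟩ i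
        exact Fin.lastCases h2 h1 i
    have hlow : code B (decD B p) = code B (decD B (fun i : Fin k => p i.castSucc)) +
        decD B p (Fin.last k) * B ^ k := by
      rw [code_succ]
      congr 2
      funext i
      exact decD_castSucc B p i
    have hlast : decD B p (Fin.last k) = if (∀ i : Fin k, p i.castSucc = 0) then
        (if p (Fin.last k) = 0 then B - 1 else p (Fin.last k) - 1) else p (Fin.last k) := by
      unfold decD
      simp only [forall_lt_last (fun i => p i = 0)]
    have hpl := hp (Fin.last k)
    rw [hsplit, hlow, hlast, code_succ]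
    by_cases h1 : ∀ i : Fin k, p i.castSucc = 0
    · obtain ⟨e1, e2⟩ := ih1 h1
      rw [e2]
      generalize hC : code B (decD B (fun i : Fin k => p i.castSucc)) = C at *
      by_cases h2 : p (Fin.last k) = 0
      · refine ⟨fun _ => ?_, fun hn => absurd ⟨h1, h2⟩ hn⟩
        rw [if_pos h1, if_pos h2, h2]
        refine ⟨?_, by ring⟩
        obtain ⟨b, rfl⟩ : ∃ b, B = b + 1 := ⟨B - 1, by omega⟩
        simp only [Nat.add_sub_cancel]
        have : C + b * (b + 1) ^ k + 1 = (C + 1) + b * (b + 1) ^ k := by ring
        rw [this, e1]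
        ring
      · refine ⟨fun hn => absurd hn.2 h2, fun _ => ?_⟩
        rw [if_pos h1, if_neg h2]
        obtain ⟨x, hx⟩ : ∃ x, p (Fin.last k) = x + 1 := ⟨p (Fin.last k) - 1, by omega⟩
        rw [hx, Nat.add_sub_cancel]
        have : C + x * B ^ k + 1 = (C + 1) + x * B ^ k := by ring
        rw [this, e1]
        ring
    · have e := ih2 h1
      refine ⟨fun hn => absurd hn.1 h1, fun _ => ?_⟩
      rw [if_neg h1, ← e]
      ring

lemma incD_lt {k B : ℕ} (p : Fin k → ℕ) (hp : ∀ i, p i < B) : ∀ i, incD B p i < B := by
  intro i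
  have := hp i
  unfold incD
  split_ifs <;> omega

lemma decD_lt {k B : ℕ} (p : Fin k → ℕ) (hp : ∀ i, p i < B) : ∀ i, decD B p i < B := by
  intro i
  have := hp i
  unfold decD
  split_ifs <;> omega

end digits

section machine

variable {α : Type} {k k' : ℕ} {P : Type}

/-- the index of digit `j` of head `h` -/
def hd (h : Fin k') (j : Fin k) : Fin (k' * k) := finProdFinEquiv (h, j)

/-- the head is on the right endmarker -/
def isEnd (x : Bool × Option α) : Prop := x.1 = false ∧ x.2 = none

/-- the head is on the left endmarker -/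
def isStart (x : Bool × Option α) : Prop := x.1 = true

/-- the letter of the odometer word seen by head `h` -/
def seen (x : Fin (k' * k) → Bool × Option α) (h : Fin k') : Letter k α := fun j => x (hd h j)

/-- the symbol seen by head `h` on the odometer word (`f` is the flag of the head: `0` on the left
endmarker, `1` inside, `2` on the right endmarker) -/
def symOf (f : Fin 3) (l : Letter k α) : Bool × Option (Letter k α) :=
  if f = 0 then (true, some l) else if f = 1 then (false, some l) else (false, none)

open Classical in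
/-- new flag after a move `d` -/
noncomputable def newFlag (f : Fin 3) (l : Letter k α) (d : Fin 3) : Fin 3 :=
  if d = 1 then f
  else if d = 0 then
    (if f = 0 then 0 else if f = 1 then (if ∀ j, isStart (l j) then 0 else 1) else 1)
  else (if f = 0 then 1 else if f = 1 then (if ∀ j, isEnd (l j) then 2 else 1) else 2)

open Classical in
/-- moves of the digits when the head makes the move `d` -/
noncomputable def digMv (f : Fin 3) (l : Letter k α) (d : Fin 3) (j : Fin k) : Fin 5 :=
  if f ≠ 1 then 1
  else if d = 1 then 1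
  else if d = 0 then
    (if ∀ j, isStart (l j) then 1
     else if ∀ i, i < j → isStart (l i) then (if isStart (l j) then 4 else 0) else 1)
  else
    (if ∀ j, isEnd (l j) then 1
     else if ∀ i, i < j → isEnd (l i) then (if isEnd (l j) then 3 else 2) else 1)

/-- The macro machine for the inverse image. -/
noncomputable def padMachine (η : P → (Fin k' → Bool × Option (Letter k α)) → P × (Fin k' → Fin 3))
    (s : P × (Fin k' → Fin 3)) (x : Fin (k' * k) → Bool × Option α) :
    (P × (Fin k' → Fin 3)) × (Fin (k' * k) → Fin 5) :=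
  (((η s.1 (fun h => symOf (s.2 h) (seen x h))).1,
    fun h => newFlag (s.2 h) (seen x h) ((η s.1 (fun h => symOf (s.2 h) (seen x h))).2 h)),
   fun m => digMv (s.2 (finProdFinEquiv.symm m).1) (seen x (finProdFinEquiv.symm m).1)
      ((η s.1 (fun h => symOf (s.2 h) (seen x h))).2 (finProdFinEquiv.symm m).1)
      (finProdFinEquiv.symm m).2)

variable (w : List α)

/-- coding of the position `X` of a head on the odometer word by a flag and digits -/
def PosRel (X : ℕ) (f : Fin 3) (p : Fin k → ℕ) : Prop :=
  (∀ j, p j < w.length + 2) ∧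
  ((f = 0 ∧ X = 0 ∧ ∀ j, p j = 0) ∨
   (f = 1 ∧ X = code (w.length + 2) p + 1) ∨
   (f = 2 ∧ X = (w.length + 2) ^ k + 1 ∧ ∀ j, p j = w.length + 1))

lemma code_zero' (B : ℕ) (p : Fin k → ℕ) (hp : ∀ j, p j = 0) : code B p = 0 := by
  simp [code, hp]

lemma symOf_eq {X : ℕ} {f : Fin 3} {p : Fin k → ℕ} (h : PosRel w X f p) :
    symOf f (fun j => sym w (p j)) = sym (pad k w) X := by
  obtain ⟨hp, h | h | h⟩ := h
  · obtain ⟨rfl, rfl, h0⟩ := h
    have hpos : 0 < (w.length + 2) ^ k := by positivity
    simp only [symOf, if_true, sym, decide_true, Nat.zero_sub, pad_getElem? k w hpos]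
    congr 2
    funext j
    have hd : dig (w.length + 2) 0 j = 0 := by simp [dig]
    rw [h0 j, hd]
  · obtain ⟨rfl, rfl⟩ := h
    have hlt := code_lt hp
    simp only [symOf, one_ne_zero, if_false, if_true, sym, Nat.add_eq_zero_iff, and_false,
      decide_false, Nat.add_sub_cancel, pad_getElem? k w hlt]
    congr 2
    funext j
    rw [dig_code hp j]
  · obtain ⟨rfl, rfl, h0⟩ := h
    simp only [symOf, show (2 : Fin 3) ≠ 0 by decide, show (2 : Fin 3) ≠ 1 by decide, if_false,
      sym, Nat.add_eq_zero_iff, one_ne_zero, and_false, decide_false, Nat.add_sub_cancel,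
      pad_getElem?_len]

lemma isEnd_iff {p : ℕ} (hp : p < w.length + 2) : isEnd (sym w p) ↔ p = w.length + 2 - 1 := by
  simp only [isEnd, sym, decide_eq_false_iff_not, List.getElem?_eq_none_iff]
  omega

lemma isStart_iff (p : ℕ) : isStart (sym w p) ↔ p = 0 := by
  simp [isStart, sym]

lemma code_all_last {B : ℕ} (hB : 0 < B) (p : Fin k → ℕ) (hp : ∀ j, p j = B - 1) :
    code B p + 1 = B ^ k :=
  ((incD_code hB p (fun i => by rw [hp i]; omega)).1 hp).2

/-- one move of one head -/
lemma PosRel_move {X : ℕ} {f : Fin 3} {p : Fin k → ℕ} (h : PosRel w X f p) (d : Fin 3) :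
    PosRel w (mv (pad k w).length X d) (newFlag f (fun j => sym w (p j)) d)
      (fun j => mmv w.length (p j) (digMv f (fun j => sym w (p j)) d j)) := by
  have hpos : 0 < (w.length + 2) ^ k := by positivity
  rw [pad_length]
  have hp := h.1
  have hE : ∀ j, isEnd (sym w (p j)) ↔ p j = w.length + 2 - 1 := fun j => isEnd_iff w (hp j)
  have hS : ∀ j, isStart (sym w (p j)) ↔ p j = 0 := fun j => isStart_iff w (p j)
  have hinc := incD_code (B := w.length + 2) (by omega) p hp
  have hdec := decD_code (B := w.length + 2) (by omega) p hp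
  obtain ⟨-, h | h | h⟩ := h
  · obtain ⟨rfl, rfl, h0⟩ := h
    have hdm : ∀ j, mmv w.length (p j) (digMv (0 : Fin 3) (fun j => sym w (p j)) d j) = p j := by
      intro j; simp [digMv, mmv]
    simp only [hdm]
    refine ⟨hp, ?_⟩
    rcases fin3_cases d with rfl | rfl | rfl
    · left; simp [newFlag, mv, h0]
    · left; simp [newFlag, mv, h0]
    · right; left
      refine ⟨by simp [newFlag], ?_⟩
      rw [code_zero' _ _ h0]
      simp [mv]
  · obtain ⟨rfl, rfl⟩ := h
    have hlt := code_lt hp
    rcases fin3_cases d with rfl | rfl | rfl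
    · by_cases hall : ∀ j, p j = 0
      · have hdm : ∀ j, mmv w.length (p j) (digMv (1 : Fin 3) (fun j => sym w (p j)) 0 j) =
            p j := by
          intro j
          simp only [digMv, ne_eq, not_true, if_false, show (0 : Fin 3) ≠ 1 by decide, if_true,
            hS, if_pos hall]
          simp [mmv]
        simp only [hdm]
        refine ⟨hp, Or.inl ⟨?_, ?_, hall⟩⟩
        · simp only [newFlag, show (0 : Fin 3) ≠ 1 by decide, show (1 : Fin 3) ≠ 0 by decide,
            if_false, if_true, hS, if_pos hall]
        · rw [code_zero' _ _ hall]; simp [mv]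
      · have hdm : ∀ j, mmv w.length (p j) (digMv (1 : Fin 3) (fun j => sym w (p j)) 0 j) =
            decD (w.length + 2) p j := by
          intro j
          simp only [digMv, ne_eq, not_true, if_false, show (0 : Fin 3) ≠ 1 by decide, if_true,
            hS, if_neg hall, decD]
          by_cases h1 : ∀ i, i < j → p i = 0
          · rw [if_pos h1, if_pos h1]
            by_cases h2 : p j = 0
            · rw [if_pos h2, if_pos h2]; simp [mmv]
            · rw [if_neg h2, if_neg h2]; simp [mmv]
          · rw [if_neg h1, if_neg h1]; simp [mmv]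
        simp only [hdm]
        refine ⟨decD_lt p hp, Or.inr (Or.inl ⟨?_, ?_⟩)⟩
        · simp only [newFlag, show (0 : Fin 3) ≠ 1 by decide, show (1 : Fin 3) ≠ 0 by decide,
            if_false, if_true, hS, if_neg hall]
        · rw [hdec.2 hall]; simp [mv]
    · have hdm : ∀ j, mmv w.length (p j) (digMv (1 : Fin 3) (fun j => sym w (p j)) 1 j) =
          p j := by
        intro j; simp [digMv, mmv]
      simp only [hdm]
      refine ⟨hp, Or.inr (Or.inl ⟨?_, ?_⟩)⟩
      · simp [newFlag]
      · simp [mv]
    · by_cases hall : ∀ j, p j = w.length + 2 - 1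
      · have hdm : ∀ j, mmv w.length (p j) (digMv (1 : Fin 3) (fun j => sym w (p j)) 2 j) =
            p j := by
          intro j
          simp only [digMv, ne_eq, not_true, if_false, show (2 : Fin 3) ≠ 1 by decide,
            show (2 : Fin 3) ≠ 0 by decide, hE, if_pos hall]
          simp [mmv]
        simp only [hdm]
        refine ⟨hp, Or.inr (Or.inr ⟨?_, ?_, fun j => by show p j = _; rw [hall j]; omega⟩)⟩
        · simp only [newFlag, show (2 : Fin 3) ≠ 1 by decide,
            show (2 : Fin 3) ≠ 0 by decide, show (1 : Fin 3) ≠ 0 by decide, hE, if_pos hall,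
            if_false, if_true]
        · have := code_all_last (B := w.length + 2) (by omega) p hall
          rw [this]; simp [mv]
      · have hdm : ∀ j, mmv w.length (p j) (digMv (1 : Fin 3) (fun j => sym w (p j)) 2 j) =
            incD (w.length + 2) p j := by
          intro j
          have hj := hp j
          simp only [digMv, ne_eq, not_true, if_false, show (2 : Fin 3) ≠ 1 by decide,
            show (2 : Fin 3) ≠ 0 by decide, hE, if_neg hall, incD]
          by_cases h1 : ∀ i, i < j → p i = w.length + 2 - 1
          · rw [if_pos h1, if_pos h1]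
            by_cases h2 : p j = w.length + 2 - 1
            · rw [if_pos h2, if_pos h2]; simp [mmv]
            · rw [if_neg h2, if_neg h2]
              simp only [mmv, show (2 : Fin 5) ≠ 0 by decide, show (2 : Fin 5) ≠ 1 by decide,
                if_false, if_true]
              omega
          · rw [if_neg h1, if_neg h1]; simp [mmv]
        simp only [hdm]
        refine ⟨incD_lt p hp, Or.inr (Or.inl ⟨?_, ?_⟩)⟩
        · simp only [newFlag, show (2 : Fin 3) ≠ 1 by decide,
            show (2 : Fin 3) ≠ 0 by decide, show (1 : Fin 3) ≠ 0 by decide, hE, if_neg hall,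
            if_false, if_true]
        · rw [hinc.2 hall]
          have h2 := code_lt (incD_lt p hp)
          rw [hinc.2 hall] at h2
          simp only [mv, show (2 : Fin 3) ≠ 1 by decide,
            show (2 : Fin 3) ≠ 0 by decide, if_false]
          omega
  · obtain ⟨rfl, rfl, h0⟩ := h
    have hdm : ∀ j, mmv w.length (p j) (digMv (2 : Fin 3) (fun j => sym w (p j)) d j) = p j := by
      intro j; simp [digMv, mmv]
    simp only [hdm]
    refine ⟨hp, ?_⟩
    rcases fin3_cases d with rfl | rfl | rfl
    · right; left
      refine ⟨by simp [newFlag], ?_⟩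
      have := code_all_last (B := w.length + 2) (by omega) p (fun j => by rw [h0 j]; omega)
      rw [this]
      simp [mv]
    · right; right
      exact ⟨by simp [newFlag], by simp [mv], h0⟩
    · right; right
      exact ⟨by simp [newFlag], by simp [mv], h0⟩

/-- relation between the macro machine on `w` and the given machine on `pad k w` -/
def RelP (a : (P × (Fin k' → Fin 3)) × (Fin (k' * k) → ℕ)) (b : P × (Fin k' → ℕ)) : Prop :=
  a.1.1 = b.1 ∧ ∀ h, PosRel w (b.2 h) (a.1.2 h) (fun j : Fin k => a.2 (hd h j))

lemma simP_step (η : P → (Fin k' → Bool × Option (Letter k α)) → P × (Fin k' → Fin 3))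
    (a : (P × (Fin k' → Fin 3)) × (Fin (k' * k) → ℕ)) (b : P × (Fin k' → ℕ))
    (hab : RelP w a b) :
    RelP w (macroStep (padMachine η) w a) (dfaStep η (pad k w) b) := by
  obtain ⟨⟨p, fl⟩, pos⟩ := a
  obtain ⟨p', X⟩ := b
  obtain ⟨rfl, h⟩ := hab
  simp only at h
  have hs : (fun h' : Fin k' => symOf (fl h') (seen (fun j => sym w (pos j)) h')) =
      fun h' => sym (pad k w) (X h') := by
    funext h'
    exact symOf_eq w (h h')
  refine ⟨?_, ?_⟩
  · simp only [macroStep, padMachine, dfaStep]
    rw [hs]
  · intro h'
    have := PosRel_move w (h h') ((η p (fun h' => sym (pad k w) (X h'))).2 h')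
    simp only [macroStep, padMachine, dfaStep]
    rw [hs]
    simp only [hd, Equiv.symm_apply_apply]
    exact this

theorem padMachine_iff (η : P → (Fin k' → Bool × Option (Letter k α)) → P × (Fin k' → Fin 3))
    (p₀ : P) (G : Set P) :
    (∃ m, ((macroStep (padMachine η) w)^[m] ((p₀, fun _ => 0), (fun _ => 0))).1 ∈
        {s : P × (Fin k' → Fin 3) | s.1 ∈ G}) ↔
      ∃ m, ((dfaStep η (pad k w))^[m] (p₀, (fun _ => 0))).1 ∈ G := by
  refine sim_iff (macroStep (padMachine η) w) (dfaStep η (pad k w)) (RelP w)
    (fun c => c.1.1 ∈ G) (fun c => c.1 ∈ G) ?_ ?_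
  · intro a b hab
    refine ⟨1, le_rfl, simP_step w η a b hab, ?_⟩
    constructor
    · rintro ⟨i, hi, h⟩
      obtain rfl : i = 0 := by omega
      rw [← hab.1]
      exact h
    · intro h
      refine ⟨0, Nat.zero_lt_one, ?_⟩
      rw [← hab.1] at h
      exact h
  · refine ⟨rfl, fun h => ⟨fun j => by simp, Or.inl ⟨rfl, rfl, fun j => rfl⟩⟩⟩

end machine

end Pool.Agent.Helper5
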