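import Pool.Agent.Helper5.Auto

set_option autoImplicit false

/-!
Mixed radix coding of head positions and the odometer word.
-/

namespace Pool.Agent.Helper5

open Finset

/-- The code of a tuple of positions in base `B`. -/
def code {k : ℕ} (B : ℕ) (p : Fin k → ℕ) : ℕ := ∑ i, p i * B ^ (i : ℕ)

/-- The `i`-th digit of `t` in base `B`. -/
def dig (B : ℕ) (t i : ℕ) : ℕ := t / B ^ i % B

lemma code_succ {k : ℕ} (B : ℕ) (p : Fin (k + 1) → ℕ) :
    code B p = code B (fun i : Fin k => p i.castSucc) + p (Fin.last k) * B ^ k := by
  simp [code, Fin.sum_univ_castSucc]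

lemma code_lt {k : ℕ} {B : ℕ} {p : Fin k → ℕ} (hp : ∀ i, p i < B) : code B p < B ^ k := by
  induction k with
  | zero => simp [code]
  | succ k ih =>
    rw [code_succ, pow_succ]
    have h1 := ih (p := fun i : Fin k => p i.castSucc) (fun i => hp _)
    have h2 := hp (Fin.last k)
    have h3 : (p (Fin.last k) + 1) * B ^ k ≤ B * B ^ k := Nat.mul_le_mul_right _ h2
    nlinarith

lemma dig_code {k : ℕ} {B : ℕ} {p : Fin k → ℕ} (hp : ∀ i, p i < B) (i : Fin k) :
    dig B (code B p) i = p i := by
  induction k with
  | zero => exact i.elim0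
  | succ k ih =>
    rw [code_succ, dig]
    have hB : 0 < B := lt_of_le_of_lt (Nat.zero_le _) (hp (Fin.last k))
    have h1 := code_lt (p := fun i : Fin k => p i.castSucc) (fun i => hp _)
    refine Fin.lastCases ?_ (fun j => ?_) i
    · have hd : (code B (fun i : Fin k => p i.castSucc) + p (Fin.last k) * B ^ k) / B ^ k =
          p (Fin.last k) := by
        rw [Nat.add_mul_div_right _ _ (pow_pos hB k), Nat.div_eq_of_lt h1, zero_add]
      simp only [Fin.val_last]
      rw [hd, Nat.mod_eq_of_lt (hp _)]
    · have hj : (j : ℕ) < k := j.2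
      have hk : B ^ k = B ^ (k - j - 1) * B * B ^ (j : ℕ) := by
        rw [← pow_succ, ← pow_add]
        congr 1
        omega
      have h2 := ih (p := fun i : Fin k => p i.castSucc) (fun i => hp _) j
      simp only [Fin.val_castSucc]
      rw [hk, ← mul_assoc, Nat.add_mul_div_right _ _ (pow_pos hB _), ← mul_assoc,
        Nat.add_mul_mod_self_right]
      exact h2

lemma dig_eq_zero_of_lt {B t i j : ℕ} (ht : t < B ^ j) (hij : j ≤ i) (hB : 0 < B) :
    dig B t i = 0 := by
  unfold dig
  rw [Nat.div_eq_of_lt (lt_of_lt_of_le ht (Nat.pow_le_pow_right hB hij))]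
  simp

lemma lt_of_dig_eq_zero {B j : ℕ} (hB : 0 < B) : ∀ {k t : ℕ}, t < B ^ k → j ≤ k →
    (∀ i, j ≤ i → i < k → dig B t i = 0) → t < B ^ j := by
  intro k
  induction k with
  | zero =>
    intro t ht hj _
    obtain rfl : j = 0 := by omega
    exact ht
  | succ k ih =>
    intro t ht hj h
    rcases Nat.lt_or_ge k j with hkj | hkj
    · obtain rfl : j = k + 1 := by omega
      exact ht
    · have hd := h k hkj (Nat.lt_succ_self k)
      have h1 : t / B ^ k < B := by
        rw [Nat.div_lt_iff_lt_mul (pow_pos hB k), mul_comm, ← pow_succ]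
        exact ht
      have h2 : t / B ^ k = 0 := by
        unfold dig at hd
        rwa [Nat.mod_eq_of_lt h1] at hd
      have h3 : t < B ^ k := by
        rcases Nat.lt_or_ge t (B ^ k) with h4 | h4
        · exact h4
        · exfalso
          have := Nat.div_pos h4 (pow_pos hB k)
          omega
      exact ih h3 hkj (fun i hi hik => h i hi (by omega))

/-- The letters of the odometer word: tuples of symbols seen by the `k` heads. -/
abbrev Letter (k : ℕ) (α : Type) : Type := Fin k → Bool × Option α

/-- The odometer word: it lists, for all tuples of head positions in lexicographic order (the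
first head moving fastest), the tuple of symbols which the `k` heads see on `w`. -/
def pad {α : Type} (k : ℕ) (w : List α) : List (Letter k α) :=
  (List.range ((w.length + 2) ^ k)).map (fun t i => sym w (dig (w.length + 2) t i))

@[simp] lemma pad_length {α : Type} (k : ℕ) (w : List α) :
    (pad k w).length = (w.length + 2) ^ k := by
  simp [pad]

lemma pad_getElem? {α : Type} (k : ℕ) (w : List α) {t : ℕ} (ht : t < (w.length + 2) ^ k) :
    (pad k w)[t]? = some (fun i : Fin k => sym w (dig (w.length + 2) t i)) := by
  simp [pad, ht]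

lemma pad_getElem?_len {α : Type} (k : ℕ) (w : List α) :
    (pad k w)[(w.length + 2) ^ k]? = none := by
  rw [List.getElem?_eq_none_iff]
  simp

end Pool.Agent.Helper5
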