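import Pool.Agent.Helper5.RotCode

set_option autoImplicit false

/-!
The real-time one-way DPDA `D` that simulates a two-way `k`-head DPDA `M` on the periodic word
`pad k w # pad k w # ...`.
-/

namespace Pool.Agent.Helper5

open List

/-- States of `D`: `inl q` is the phase in which the block of `none`s on top of the stack (coding
the head positions in unary) is removed; `inr (q, μ, r, b)` are the remaining `2k+2` passes
`r = 0, ..., 2k+1` (`b` says whether we are pushing). -/
abbrev DState (k : ℕ) (Q : Type) : Type := Q ⊕ (Q × (Fin k → Fin 3) × Fin (2 * k + 2) × Bool)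

/-- The head whose move is performed in pass `r`, if any. -/
def kind {k : ℕ} (μ : Fin k → Fin 3) (r : ℕ) : Option (Fin k) :=
  if h : r % 2 = 1 ∧ r / 2 < k then
    (if μ ⟨r / 2, h.2⟩ = 0 then some ⟨r / 2, h.2⟩ else none)
  else if h : r % 2 = 0 ∧ 0 < r ∧ r / 2 - 1 < k then
    (if μ ⟨r / 2 - 1, h.2.2⟩ = 2 then some ⟨r / 2 - 1, h.2.2⟩ else none)
  else none

/-- The letters which are skipped in a pass of a given kind. -/
def skip {k : ℕ} {α : Type} (kd : Option (Fin k)) (l : Letter k α) : Prop :=
  ∃ j, kd = some j ∧ ∀ i : Fin k, j ≤ i → (l i).1 = true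

open Classical in
/-- The effective moves (moves across an endmarker are replaced by `stay`). -/
noncomputable def eff {k : ℕ} {α : Type} (l : Letter k α) (μ : Fin k → Fin 3) : Fin k → Fin 3 :=
  fun j => if μ j = 0 then (if (l j).1 = true then 1 else 0)
    else if μ j = 1 then 1
    else (if (l j).1 = false ∧ (l j).2 = none then 1 else 2)

open Classical in
/-- The transition function of `D`. -/
noncomputable def deltaD {α : Type} {k : ℕ} {Q Γ : Type}
    (δ : Q → (Fin k → Bool × Option α) → Option Γ → Q × (Fin k → Fin 3) × List Γ)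
    (s : DState k Q) (x : Option (Letter k α)) (top : Option (Option Γ)) :
    DState k Q × List (Option Γ) :=
  match s, x with
  | Sum.inl q, some l =>
      if top = some none then (Sum.inl q, [])
      else (Sum.inr ((δ q l top.join).1, eff l (δ q l top.join).2.1, 0, true),
        none :: (δ q l top.join).2.2.map some)
  | Sum.inl q, none => (Sum.inl q, top.toList)
  | Sum.inr (q, μ, r, true), some _ => (Sum.inr (q, μ, r, true), none :: top.toList)
  | Sum.inr (q, μ, r, false), some l =>
      if skip (kind μ r) l then (Sum.inr (q, μ, r, false), top.toList)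
      else if top = some none then (Sum.inr (q, μ, r, false), [])
      else (Sum.inr (q, μ, r, true), none :: top.toList)
  | Sum.inr (q, μ, r, _), none =>
      (if h : (r : ℕ) + 1 < 2 * k + 2 then Sum.inr (q, μ, ⟨r + 1, h⟩, false) else Sum.inl q,
        top.toList)

section

variable {α : Type} {k : ℕ} {Q Γ : Type}
variable (δ : Q → (Fin k → Bool × Option α) → Option Γ → Q × (Fin k → Fin 3) × List Γ)
variable (w : List α)

/-- Accepting configurations of `D`. -/
def accD (F : Set Q) (c : DState k Q × ℕ × List (Option Γ)) : Prop := ∃ q ∈ F, c.1 = Sum.inl q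

/-- The state of `D` after pass `r`. -/
noncomputable def nextD {k : ℕ} {Q : Type} (q : Q) (μ : Fin k → Fin 3) (r : Fin (2 * k + 2)) :
    DState k Q :=
  if h : (r : ℕ) + 1 < 2 * k + 2 then Sum.inr (q, μ, ⟨r + 1, h⟩, false) else Sum.inl q

lemma toList_head?_append_tail {β : Type} (l : List β) : l.head?.toList ++ l.tail = l := by
  cases l <;> simp

variable {F : Set Q} {c : Prop}

lemma step_hash (q : Q) (μ : Fin k → Fin 3) (r : Fin (2 * k + 2)) (b : Bool)
    (τ : List (Option Γ)) :
    Seg (rotStep (deltaD δ) (pad k w)) (accD F) c 1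
      (Sum.inr (q, μ, r, b), (w.length + 2) ^ k, τ) (nextD q μ r, 0, τ) := by
  refine Seg.single ?_ ?_
  · simp only [rotStep, pad_getElem?_len, pad_length, lt_irrefl, if_false]
    cases b <;> simp only [deltaD, nextD, toList_head?_append_tail]
  · rintro ⟨q', -, h⟩
    simp at h

lemma run_push (q : Q) (μ : Fin k → Fin 3) (r : Fin (2 * k + 2)) (τ : List (Option Γ)) :
    ∀ (s a t : ℕ), t + s ≤ (w.length + 2) ^ k →
    Seg (rotStep (deltaD δ) (pad k w)) (accD F) c s
      (Sum.inr (q, μ, r, true), t, replicate a none ++ τ)
      (Sum.inr (q, μ, r, true), t + s, replicate (a + s) none ++ τ) := by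
  intro s
  induction s with
  | zero => intro a t _; exact Seg.refl _ _ _ _
  | succ s ih =>
    intro a t ht
    have h1 : Seg (rotStep (deltaD δ) (pad k w)) (accD F) c 1
        (Sum.inr (q, μ, r, true), t, replicate a none ++ τ)
        (Sum.inr (q, μ, r, true), t + 1, replicate (a + 1) none ++ τ) := by
      refine Seg.single ?_ ?_
      · have hlt : t < (w.length + 2) ^ k := by omega
        simp only [rotStep, pad_getElem? k w hlt, pad_length, hlt, if_true, deltaD]
        rw [List.cons_append, toList_head?_append_tail]
        rfl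
      · rintro ⟨q', -, h⟩
        simp at h
    have h2 := ih (a + 1) (t + 1) (by omega)
    have h3 := h1.trans h2
    have e1 : 1 + s = s + 1 := by omega
    have e2 : t + 1 + s = t + (s + 1) := by omega
    have e3 : a + 1 + s = a + (s + 1) := by omega
    rw [e1, e2, e3] at h3
    exact h3

lemma run_pop (q : Q) (μ : Fin k → Fin 3) (r : Fin (2 * k + 2)) (τ : List (Option Γ)) :
    ∀ (X t : ℕ), t + X ≤ (w.length + 2) ^ k →
    (∀ t', t ≤ t' → t' < t + X →
      ¬ skip (kind μ r) (fun i : Fin k => sym w (dig (w.length + 2) t' i))) →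
    Seg (rotStep (deltaD δ) (pad k w)) (accD F) c X
      (Sum.inr (q, μ, r, false), t, replicate X none ++ τ)
      (Sum.inr (q, μ, r, false), t + X, τ) := by
  intro X
  induction X with
  | zero => intro t _ _; exact Seg.refl _ _ _ _
  | succ X ih =>
    intro t ht hs
    have h1 : Seg (rotStep (deltaD δ) (pad k w)) (accD F) c 1
        (Sum.inr (q, μ, r, false), t, replicate (X + 1) none ++ τ)
        (Sum.inr (q, μ, r, false), t + 1, replicate X none ++ τ) := by
      refine Seg.single ?_ ?_
      · have hlt : t < (w.length + 2) ^ k := by omega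
        have hns := hs t le_rfl (by omega)
        simp only [rotStep, pad_getElem? k w hlt, pad_length, hlt, if_true, deltaD,
          replicate_succ, List.cons_append, List.head?_cons, List.tail_cons, if_neg hns,
          List.nil_append]
      · rintro ⟨q', -, h⟩
        simp at h
    have h2 := ih (t + 1) (by omega) (fun t' h1 h2 => hs t' (by omega) (by omega))
    have h3 := h1.trans h2
    have e1 : 1 + X = X + 1 := by omega
    have e2 : t + 1 + X = t + (X + 1) := by omega
    rw [e1, e2] at h3
    exact h3

lemma run_skip (q : Q) (μ : Fin k → Fin 3) (r : Fin (2 * k + 2)) (τ : List (Option Γ)) :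
    ∀ (s t : ℕ), t + s ≤ (w.length + 2) ^ k →
    (∀ t', t ≤ t' → t' < t + s →
      skip (kind μ r) (fun i : Fin k => sym w (dig (w.length + 2) t' i))) →
    Seg (rotStep (deltaD δ) (pad k w)) (accD F) c s
      (Sum.inr (q, μ, r, false), t, τ)
      (Sum.inr (q, μ, r, false), t + s, τ) := by
  intro s
  induction s with
  | zero => intro t _ _; exact Seg.refl _ _ _ _
  | succ s ih =>
    intro t ht hs
    have h1 : Seg (rotStep (deltaD δ) (pad k w)) (accD F) c 1
        (Sum.inr (q, μ, r, false), t, τ)
        (Sum.inr (q, μ, r, false), t + 1, τ) := by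
      refine Seg.single ?_ ?_
      · have hlt : t < (w.length + 2) ^ k := by omega
        have hns := hs t le_rfl (by omega)
        simp only [rotStep, pad_getElem? k w hlt, pad_length, hlt, if_true, deltaD,
          if_pos hns, toList_head?_append_tail]
      · rintro ⟨q', -, h⟩
        simp at h
    have h2 := ih (t + 1) (by omega) (fun t' h1 h2 => hs t' (by omega) (by omega))
    have h3 := h1.trans h2
    have e1 : 1 + s = s + 1 := by omega
    have e2 : t + 1 + s = t + (s + 1) := by omega
    rw [e1, e2] at h3
    exact h3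

lemma step_turn (q : Q) (μ : Fin k → Fin 3) (r : Fin (2 * k + 2)) (τ : List (Option Γ))
    (hτ : τ.head? ≠ some none) {t : ℕ} (ht : t < (w.length + 2) ^ k)
    (hs : ¬ skip (kind μ r) (fun i : Fin k => sym w (dig (w.length + 2) t i))) :
    Seg (rotStep (deltaD δ) (pad k w)) (accD F) c 1
      (Sum.inr (q, μ, r, false), t, τ)
      (Sum.inr (q, μ, r, true), t + 1, replicate 1 none ++ τ) := by
  refine Seg.single ?_ ?_
  · simp only [rotStep, pad_getElem? k w ht, pad_length, ht, if_true, deltaD,
          if_neg hs, if_neg hτ, List.cons_append, toList_head?_append_tail]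
    rfl
  · rintro ⟨q', -, h⟩
    simp at h

/-- The number of letters skipped in a pass. -/
def skipAmt (B : ℕ) (kd : Option (Fin k)) : ℕ :=
  match kd with
  | none => 0
  | some j => B ^ (j : ℕ)

lemma skip_iff (kd : Option (Fin k)) {t : ℕ} (ht : t < (w.length + 2) ^ k) :
    skip kd (fun i : Fin k => sym w (dig (w.length + 2) t i)) ↔
      t < skipAmt (w.length + 2) kd := by
  cases kd with
  | none => simp [skip, skipAmt]
  | some j =>
    simp only [skip, skipAmt, Option.some.injEq, exists_eq_left', sym, decide_eq_true_eq]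
    constructor
    · intro h
      exact lt_of_dig_eq_zero (by omega) ht (le_of_lt j.2)
        (fun i hi hik => h ⟨i, hik⟩ (by rw [Fin.le_def]; exact hi))
    · intro h i hi
      exact dig_eq_zero_of_lt h (by rw [Fin.le_def] at hi; exact hi) (by omega)

/-- One full pass. -/
lemma run_pass (q : Q) (μ : Fin k → Fin 3) (r : Fin (2 * k + 2)) (τ : List (Option Γ))
    (hτ : τ.head? ≠ some none) {X : ℕ}
    (hX : skipAmt (w.length + 2) (kind μ r) + X ≤ (w.length + 2) ^ k) :
    Seg (rotStep (deltaD δ) (pad k w)) (accD F) c ((w.length + 2) ^ k + 1)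
      (Sum.inr (q, μ, r, false), 0, replicate X none ++ τ)
      (nextD q μ r, 0, replicate ((w.length + 2) ^ k - (skipAmt (w.length + 2) (kind μ r) + X))
        none ++ τ) := by
  set N := (w.length + 2) ^ k with hN
  set s := skipAmt (w.length + 2) (kind μ r) with hs
  have h1 := run_skip δ w (F := F) (c := c) q μ r (replicate X none ++ τ) s 0 (by omega)
    (fun t' _ h2 => (skip_iff w _ (by omega)).2 (by omega))
  have h2 := run_pop δ w (F := F) (c := c) q μ r τ X (0 + s) (by omega)
    (fun t' h1 h2 => by rw [skip_iff w _ (by omega)]; omega)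
  have h12 := h1.trans h2
  rcases Nat.eq_or_lt_of_le hX with heq | hlt
  · have h3 := step_hash δ w (F := F) (c := c) q μ r false τ
    have e : 0 + s + X = (w.length + 2) ^ k := by omega
    rw [e] at h12
    have h4 := h12.trans h3
    have e1 : s + X + 1 = N + 1 := by omega
    have e2 : N - (s + X) = 0 := by omega
    rw [e1] at h4
    rw [e2]
    exact h4
  · have h3 := step_turn δ w (F := F) (c := c) q μ r τ hτ (t := 0 + s + X) (by omega)
      (by rw [skip_iff w _ (by omega)]; omega)
    have h4 := run_push δ w (F := F) (c := c) q μ r τ (N - (s + X) - 1) 1 (0 + s + X + 1)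
      (by omega)
    have h5 := step_hash δ w (F := F) (c := c) q μ r true
      (replicate (1 + (N - (s + X) - 1)) none ++ τ)
    have e : 0 + s + X + 1 + (N - (s + X) - 1) = (w.length + 2) ^ k := by omega
    rw [e] at h4
    have h6 := ((h12.trans h3).trans h4).trans h5
    have e1 : s + X + 1 + (N - (s + X) - 1) + 1 = N + 1 := by omega
    have e2 : 1 + (N - (s + X) - 1) = N - (s + X) := by omega
    rw [e1, e2] at h6
    exact h6

end

end Pool.Agent.Helper5
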