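import Pool.Agent.Helper5.Auto

set_option autoImplicit false

/-!
A real-time one-way DPDA on the periodic word `w # w # ...` is simulated by a two-way one-head DPDA
on `w`.
-/

namespace Pool.Agent.Helper5

section

variable {β S Γ : Type} (δ : S → Option β → Option Γ → S × List Γ) (w : List β)

open Classical in
/-- The transition function of the two-way one-head DPDA (mode `true`: run, `false`: rewind). -/
noncomputable def deltaC (s : S × Bool) (x : Fin 1 → Bool × Option β) (top : Option Γ) :
    (S × Bool) × (Fin 1 → Fin 3) × List Γ :=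
  match s with
  | (s, true) =>
      if (x 0).2 = none then (((δ s (x 0).2 top).1, false), (fun _ => 0), (δ s (x 0).2 top).2)
      else (((δ s (x 0).2 top).1, true), (fun _ => 2), (δ s (x 0).2 top).2)
  | (s, false) =>
      if (x 0).1 = true then ((s, true), (fun _ => 2), top.toList)
      else ((s, false), (fun _ => 0), top.toList)

/-- Accepting configurations. -/
def accC (F : Set S) (c : (S × Bool) × (Fin 1 → ℕ) × List Γ) : Prop :=
  c.1.1 ∈ F ∧ c.1.2 = true

lemma toList_append_tail' (l : List Γ) : l.head?.toList ++ l.tail = l := by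
  cases l <;> simp

variable {F : Set S} {c : Prop}

lemma stepC_run {s : S} {t : ℕ} (ht : t < w.length) (τ : List Γ) (hc : s ∈ F → c) :
    Seg (dpdaStep (deltaC δ) w) (accC F) c 1 ((s, true), (fun _ => t + 1), τ)
      (((δ s w[t]? τ.head?).1, true), (fun _ => t + 1 + 1), (δ s w[t]? τ.head?).2 ++ τ.tail) := by
  refine Seg.single ?_ ?_
  · have h1 : w[t]? ≠ none := by
      rw [Ne, List.getElem?_eq_none_iff]; omega
    simp only [dpdaStep, deltaC, sym, Nat.add_sub_cancel, if_neg h1]
    congr 2
    funext i
    simp only [mv, show (2 : Fin 3) ≠ 0 by decide, show (2 : Fin 3) ≠ 1 by decide, if_false]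
    omega
  · intro h
    exact hc h.1

lemma stepC_hash {s : S} (τ : List Γ) (hc : s ∈ F → c) :
    Seg (dpdaStep (deltaC δ) w) (accC F) c 1 ((s, true), (fun _ => w.length + 1), τ)
      (((δ s none τ.head?).1, false), (fun _ => w.length), (δ s none τ.head?).2 ++ τ.tail) := by
  refine Seg.single ?_ ?_
  · have h1 : w[w.length]? = none := by
      rw [List.getElem?_eq_none_iff]
    simp only [dpdaStep, deltaC, sym, Nat.add_sub_cancel, h1, if_true]
    congr 2
  · intro h
    exact hc h.1

lemma stepC_left {s : S} (p : ℕ) (τ : List Γ) :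
    Seg (dpdaStep (deltaC δ) w) (accC F) c 1 ((s, false), (fun _ => p + 1), τ)
      ((s, false), (fun _ => p), τ) := by
  refine Seg.single ?_ ?_
  · simp only [dpdaStep, deltaC, sym, Nat.add_eq_zero_iff, one_ne_zero, and_false, decide_false,
      Bool.false_eq_true, if_false, toList_append_tail']
    congr 2
  · intro h
    exact absurd h.2 (by simp)

lemma stepC_turn {s : S} (τ : List Γ) :
    Seg (dpdaStep (deltaC δ) w) (accC F) c 1 ((s, false), (fun _ => 0), τ)
      ((s, true), (fun _ => 1), τ) := by
  refine Seg.single ?_ ?_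
  · simp only [dpdaStep, deltaC, sym, decide_true, if_true, toList_append_tail']
    congr 2
  · intro h
    exact absurd h.2 (by simp)

lemma runC_left {s : S} (τ : List Γ) : ∀ p : ℕ,
    Seg (dpdaStep (deltaC δ) w) (accC F) c p ((s, false), (fun _ => p), τ)
      ((s, false), (fun _ => 0), τ) := by
  intro p
  induction p with
  | zero => exact Seg.refl _ _ _ _
  | succ p ih =>
    have h := (stepC_left δ w (F := F) (c := c) (s := s) p τ).trans ih
    rw [Nat.add_comm] at h
    exact h

/-- simulation relation -/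
def RelC (a : (S × Bool) × (Fin 1 → ℕ) × List Γ) (b : S × ℕ × List Γ) : Prop :=
  b.2.1 ≤ w.length ∧ a = ((b.1, true), (fun _ => b.2.1 + 1), b.2.2)

lemma simC_step (F : Set S) (a : (S × Bool) × (Fin 1 → ℕ) × List Γ) (b : S × ℕ × List Γ)
    (hab : RelC w a b) :
    ∃ m, 1 ≤ m ∧ RelC w ((dpdaStep (deltaC δ) w)^[m] a) (rotStep δ w b) ∧
      ((∃ i < m, accC F ((dpdaStep (deltaC δ) w)^[i] a)) ↔ b.1 ∈ F) := by
  obtain ⟨s, t, τ⟩ := b
  obtain ⟨ht, rfl⟩ := hab
  simp only at ht
  rcases Nat.lt_or_ge t w.length with hlt | hge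
  · have h1 := stepC_run δ w (F := F) (c := s ∈ F) hlt τ id
    refine ⟨1, le_rfl, ⟨?_, ?_⟩, ?_⟩
    · simp only [rotStep, hlt, if_true]
      omega
    · simp only [rotStep, hlt, if_true]
      exact h1.1
    · constructor
      · rintro ⟨i, hi, h⟩
        exact h1.2 i hi h
      · intro h
        exact ⟨0, Nat.zero_lt_one, h, rfl⟩
  · obtain rfl : t = w.length := le_antisymm ht hge
    have h1 := stepC_hash δ w (F := F) (c := s ∈ F) (s := s) τ id
    have h2 := runC_left δ w (F := F) (c := s ∈ F) (s := (δ s none τ.head?).1)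
      ((δ s none τ.head?).2 ++ τ.tail) w.length
    have h3 := stepC_turn δ w (F := F) (c := s ∈ F) (s := (δ s none τ.head?).1)
      ((δ s none τ.head?).2 ++ τ.tail)
    have h := (h1.trans h2).trans h3
    have hn : w[w.length]? = none := by
      rw [List.getElem?_eq_none_iff]
    refine ⟨1 + w.length + 1, by omega, ⟨?_, ?_⟩, ?_⟩
    · simp only [rotStep, lt_irrefl, if_false]
      omega
    · simp only [rotStep, lt_irrefl, if_false, hn]
      exact h.1
    · constructor
      · rintro ⟨i, hi, hacc⟩
        exact h.2 i hi hacc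
      · intro hs
        exact ⟨0, by omega, hs, rfl⟩

/-- The two-way one-head DPDA accepts `w` iff the one-way DPDA accepts some prefix of
`w # w # ...`. -/
theorem rotToDPDA_iff (q₀ : S) (F : Set S) :
    (∃ m, ((dpdaStep (deltaC δ) w)^[m] ((q₀, false), (fun _ => 0), [])).1 ∈
        {s : S × Bool | s.1 ∈ F ∧ s.2 = true}) ↔
      ∃ m, ((rotStep δ w)^[m] (q₀, 0, [])).1 ∈ F := by
  have h := sim_iff (dpdaStep (deltaC δ) w) (rotStep δ w) (RelC w) (accC F)
    (fun c => c.1 ∈ F) (simC_step δ w F) (a := ((q₀, true), (fun _ => 1), []))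
    (b := (q₀, 0, [])) ⟨Nat.zero_le _, rfl⟩
  rw [← h]
  have h1 := stepC_turn δ w (F := F) (c := False) (s := q₀) []
  constructor
  · rintro ⟨m, hm⟩
    cases m with
    | zero => exact absurd hm.2 (by simp)
    | succ m =>
      refine ⟨m, ?_⟩
      rw [Function.iterate_succ_apply] at hm
      have : dpdaStep (deltaC δ) w ((q₀, false), (fun _ => 0), []) =
        ((q₀, true), (fun _ => 1), []) := h1.1
      rw [this] at hm
      exact hm
  · rintro ⟨m, hm⟩
    refine ⟨m + 1, ?_⟩
    rw [Function.iterate_succ_apply]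
    have : dpdaStep (deltaC δ) w ((q₀, false), (fun _ => 0), []) =
      ((q₀, true), (fun _ => 1), []) := h1.1
    rw [this]
    exact hm

end

end Pool.Agent.Helper5
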